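import Mathlib

/-!
Definitions for MP_17e24e_ag (totally invariant subsets of `P^k`).
-/

set_option autoImplicit false
open MvPolynomial

noncomputable section

namespace TI

/-- the polynomial ring -/
abbrev RR (κ : ℕ) : Type := MvPolynomial (Fin κ) ℂ

/-- the irrelevant maximal ideal -/
def mm (κ : ℕ) : Ideal (RR κ) := Ideal.span (Set.range (fun i : Fin κ => (X i : RR κ)))

/-- a nondegenerate homogeneous system of degree `d > 1` -/
structure NonDeg {κ : ℕ} (d : ℕ) (F : Fin κ → RR κ) : Prop where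
  hd : 1 < d
  hom : ∀ i, (F i).IsHomogeneous d
  nd : ∀ v : Fin κ → ℂ, (∀ i, eval v (F i) = 0) → v = 0

/-- substitution endomorphism `X i ↦ F i` -/
noncomputable abbrev phi {κ : ℕ} (F : Fin κ → RR κ) : RR κ →ₐ[ℂ] RR κ := aeval F

section seq

variable {κ : ℕ} {Q : Type} [AddCommGroup Q] [Module (RR κ) Q]

/-- the submodule `a • Q` -/
def mulTop (Q : Type) [AddCommGroup Q] [Module (RR κ) Q] (a : RR κ) : Submodule (RR κ) Q :=
  LinearMap.range (LinearMap.lsmul (RR κ) Q a)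

/-- `Bm B₀ c j = B₀ + c 0 • Q + ... + c (j-1) • Q` -/
def Bm (B₀ : Submodule (RR κ) Q) (c : ℕ → RR κ) : ℕ → Submodule (RR κ) Q
  | 0 => B₀
  | j + 1 => Bm B₀ c j ⊔ mulTop Q (c j)

/-- `a` is a nonzerodivisor on `Q / B` -/
def Reg (a : RR κ) (B : Submodule (RR κ) Q) : Prop := ∀ m : Q, a • m ∈ B → m ∈ B

/-- `s` represents a nonzero element of `Q / B` killed by all variables -/
def IsSoc (B : Submodule (RR κ) Q) (s : Q) : Prop := s ∉ B ∧ ∀ i, (X i : RR κ) • s ∈ B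

/-- the mixed sequence `z 0, ..., z (i-1), y i, y (i+1), ...` -/
def mixed (y z : ℕ → RR κ) (i : ℕ) : ℕ → RR κ := fun j => if j < i then z j else y j

/-- every chain of primes above the annihilator of `Q / B` has length at most `r` -/
def DimLe (B : Submodule (RR κ) Q) (r : ℕ) : Prop :=
  ∀ l : LTSeries (PrimeSpectrum (RR κ)),
    (∀ a : RR κ, (∀ m : Q, a • m ∈ B) → a ∈ l.head.asIdeal) → l.length ≤ r

end seq

section graded

variable {κ : ℕ} {Q : Type} [AddCommGroup Q] [Module ℂ Q] [Module (RR κ) Q]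

/-- `ρ` is a scaling operator (semilinear over `X i ↦ 2 X i`) -/
def IsScal (κ : ℕ) {Q : Type} [AddCommGroup Q] [Module ℂ Q] [Module (RR κ) Q]
    (ρ : Q →ₗ[ℂ] Q) : Prop :=
  ∀ (i : Fin κ) (m : Q), ρ ((X i : RR κ) • m) = (2:ℂ) • ((X i : RR κ) • ρ m)

/-- `m` is homogeneous of weight `w` -/
def Hm {Q : Type} [AddCommGroup Q] [Module ℂ Q] (ρ : Q →ₗ[ℂ] Q) (w : ℕ) (m : Q) : Prop :=
  ρ m = (2:ℂ) ^ w • m

/-- `Q` is generated by homogeneous elements of weight `≥ n` -/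
def WGen (κ : ℕ) {Q : Type} [AddCommGroup Q] [Module ℂ Q] [Module (RR κ) Q]
    (ρ : Q →ₗ[ℂ] Q) (n : ℕ) : Prop :=
  Submodule.span (RR κ) {m : Q | ∃ w, n ≤ w ∧ Hm ρ w m} = ⊤

/-- `B` is stable under `ρ` -/
def Stab {κ : ℕ} {Q : Type} [AddCommGroup Q] [Module ℂ Q] [Module (RR κ) Q]
    (ρ : Q →ₗ[ℂ] Q) (B : Submodule (RR κ) Q) : Prop := ∀ m ∈ B, ρ m ∈ B

/-- Frobenius-like pair `(Φ, T)` on `Q`, compatible with `B₀` -/
structure FT {κ : ℕ} (d : ℕ) (F : Fin κ → RR κ) {Q : Type} [AddCommGroup Q] [Module ℂ Q]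
    [Module (RR κ) Q] (ρ : Q →ₗ[ℂ] Q) (B₀ : Submodule (RR κ) Q) (Φ T : Q →+ Q) : Prop where
  Φ_smul : ∀ (a : RR κ) (m : Q), Φ (a • m) = phi F a • Φ m
  Φ_w : ∀ w m, Hm ρ w m → Hm ρ (d * w) (Φ m)
  T_smul : ∀ (a : RR κ) (m : Q), T (phi F a • m) = a • T m
  TΦ : ∃ c : ℂ, c ≠ 0 ∧ ∀ m, T (Φ m) = c • m
  Φ_B : ∀ m ∈ B₀, Φ m ∈ B₀
  T_B : ∀ m ∈ B₀, T m ∈ B₀

end graded

section field

variable {K : Type} [Field K] [Algebra ℂ K]

/-- trace with respect to a field homomorphism `φ : k → K` -/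
def trHom {k K : Type} [Field k] [Field K] (φ : k →+* K) (x : K) : k :=
  letI := φ.toAlgebra
  Algebra.trace k K x

/-- trace to the subfield `ℂ(c 0, ..., c (n-1))`, as an element of `K` -/
def trc {n : ℕ} (c : Fin n → K) (f : K) : K :=
  ((Algebra.trace (IntermediateField.adjoin ℂ (Set.range c)) K f :
    IntermediateField.adjoin ℂ (Set.range c)) : K)

/-- the Jacobian determinant `det (∂_k b_j)` -/
def Dl {n : ℕ} (der : Fin n → Derivation ℂ K K) (b : Fin n → K) : K :=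
  Matrix.det (Matrix.of fun k j => der k (b j))

/-- the image of a variable in `K` -/
def xb (κ : ℕ) (K : Type) [Field K] [Algebra (RR κ) K] (i : Fin κ) : K :=
  algebraMap (RR κ) K (X i)

/-- Data of the prime case: `K` is the fraction field of `R/𝔭`, `𝔭 = ker (R → K)`, `φ` induced by
the system `F`, `ρ` the scaling, `der` dual derivations of a transcendence basis `x (l j)`,
`Dt` their extensions through `φ`. -/
structure Sys (κ d n : ℕ) (K : Type) [Field K] [Algebra ℂ K] [Algebra (RR κ) K] where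
  F : Fin κ → RR κ
  hF : NonDeg d F
  frac : ∀ f : K, ∃ a b : RR κ, algebraMap (RR κ) K b ≠ 0 ∧
    f = algebraMap (RR κ) K a / algebraMap (RR κ) K b
  φ : K →ₐ[ℂ] K
  hφ : ∀ p : RR κ, φ (algebraMap (RR κ) K p) = algebraMap (RR κ) K (phi F p)
  ρ : K →ₐ[ℂ] K
  hρ : ∀ i, ρ (xb κ K i) = (2:ℂ) • xb κ K i
  rad : ∃ L : ℕ, (RingHom.ker (algebraMap (RR κ) K)) ^ L ≤
    Ideal.map (phi F) (RingHom.ker (algebraMap (RR κ) K))
  fin : FiniteDimensional φ.fieldRange K
  int : ∀ a : RR κ, algebraMap (RR κ) K a ≠ 0 → ∃ a' c : RR κ,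
    algebraMap (RR κ) K (a * a') = algebraMap (RR κ) K (phi F c) ∧ algebraMap (RR κ) K c ≠ 0
  hn : 0 < n
  l : Fin n → Fin κ
  trb : IsTranscendenceBasis ℂ (fun j => xb κ K (l j))
  der : Fin n → Derivation ℂ K K
  der_x : ∀ k j, der k (xb κ K (l j)) = if k = j then 1 else 0
  der_span : ∀ (D : Derivation ℂ K K) (f : K), D f = ∑ k, D (xb κ K (l k)) * der k f
  Dt : Fin n → Derivation ℂ K K
  Dt_φ : ∀ k f, Dt k (φ f) = φ (der k f)

namespace Sys

variable {κ d n : ℕ} [Algebra (RR κ) K] (S : Sys κ d n K)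

/-- `Δ_l` for variables -/
def Dx (l' : Fin n → Fin κ) : K := Dl S.der (fun j => xb κ K (l' j))

/-- the module of polynomial `n`-forms restricted to `E` (as multiples of `dx_{l 1} ... dx_{l n}`) -/
def M : Submodule (RR κ) K := Submodule.span (RR κ) (Set.range S.Dx)

/-- its lowest weight piece -/
def V : Submodule ℂ K := Submodule.span ℂ (Set.range S.Dx)

/-- the Jacobian of `φ` -/
def J : K := Dl S.der (fun j => S.φ (xb κ K (S.l j)))

/-- the pull back of `n`-forms -/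
def Φ : K →+ K := AddMonoidHom.mk' (fun m => S.φ m * S.J) (fun a b => by simp [add_mul])

/-- the trace of `n`-forms -/
def T : K →+ K := AddMonoidHom.mk' (fun m => trHom (S.φ : K →+* K) (m / S.J))
  (fun a b => by simp [trHom, add_div])

/-- the scaling operator on `n`-forms -/
def rM : K →ₗ[ℂ] K := (2:ℂ) ^ n • S.ρ.toLinearMap

end Sys

/-- all traces `tr_{K/ℂ(c)} (ν / dc)`, `ν ∈ N`, are polynomials in `c` -/
def TT {κ n : ℕ} [Algebra (RR κ) K] (der : Fin n → Derivation ℂ K K) (c : Fin n → K)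
    (N : Submodule (RR κ) K) : Prop :=
  ∀ ν ∈ N, trc c (ν / Dl der c) ∈ Algebra.adjoin ℂ (Set.range c)

end field

/-! ## Definitions for the connection lemma and matrix representations -/
section LCdefs

/-- alternating sum -/
def GG {E R k : Type} [Ring E] [CommRing R] [AddCommGroup k] {n : ℕ} (tr : E →+ k) (T : R →+* E)
    (δ : Fin n → R → E) (a : R) (b : Fin n → R) : k :=
  ∑ σ : Equiv.Perm (Fin n), ((Equiv.Perm.sign σ : ℤ)) •
    tr (T a * (List.ofFn fun j => δ j (b (σ j))).prod)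

/-- `δ` is a derivation of the commutative ring `R` into the bimodule `E` -/
def IsBD {E R : Type} [Ring E] [CommRing R] (T : R →+* E) (δ : R → E) : Prop :=
  (∀ b b', δ (b + b') = δ b + δ b') ∧ ∀ b b', δ (b * b') = δ b * T b' + T b * δ b'

/-- `G`-invariant of a matrix representation with entrywise derivations -/
def GM {R k : Type} [CommRing R] [Field k] {n : ℕ} {ι : Type} [Fintype ι] [DecidableEq ι]
    (der : Fin n → Derivation ℤ k k) (T : R →+* Matrix ι ι k) (a : R) (b : Fin n → R) : k :=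
  ∑ σ : Equiv.Perm (Fin n), ((Equiv.Perm.sign σ : ℤ)) •
    Matrix.trace (T a * (List.ofFn fun j => (T (b (σ j))).map (der j)).prod)

/-- The common hypotheses: `θ : R → k`, `π : R → K` have the same kernel, `π ∘ φ = θ`,
`k = Frac θ(R)`, `K` spanned by `π(R)`, integrality. -/
structure RepData {R k K : Type} [CommRing R] [Field k] [Field K] [Algebra k K]
    (θ : R →+* k) (π : R →+* K) (φ : R →+* R) : Prop where
  comp : ∀ c, π (φ c) = algebraMap k K (θ c)
  ker : ∀ c, θ c = 0 ↔ π c = 0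
  frac : ∀ x : k, ∃ a b : R, θ b ≠ 0 ∧ x = θ a / θ b
  span : Submodule.span k (Set.range π) = ⊤
  int : ∀ a : R, π a ≠ 0 → ∃ a' c : R, π (a * a') = π (φ c) ∧ θ c ≠ 0

end LCdefs

/-- images in `K` -/
def im {κ n : ℕ} (K : Type) [Field K] [Algebra (RR κ) K] (y : Fin n → RR κ) : Fin n → K :=
  fun j => algebraMap (RR κ) K (y j)

theorem mem_mulTop {κ : ℕ} {Q : Type} [AddCommGroup Q] [Module (RR κ) Q] {a : RR κ} {m : Q} :
    m ∈ mulTop Q a ↔ ∃ q : Q, a • q = m := by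
  simp [mulTop]

theorem Bm_zero {κ : ℕ} {Q : Type} [AddCommGroup Q] [Module (RR κ) Q] (B₀ : Submodule (RR κ) Q)
    (c : ℕ → RR κ) : Bm B₀ c 0 = B₀ := rfl

theorem Bm_succ {κ : ℕ} {Q : Type} [AddCommGroup Q] [Module (RR κ) Q] (B₀ : Submodule (RR κ) Q)
    (c : ℕ → RR κ) (j : ℕ) : Bm B₀ c (j + 1) = Bm B₀ c j ⊔ mulTop Q (c j) := rfl

theorem Bm_congr {κ : ℕ} {Q : Type} [AddCommGroup Q] [Module (RR κ) Q]
    {B₀ : Submodule (RR κ) Q} {c c' : ℕ → RR κ} (g : ℕ) (h : ∀ j < g, c j = c' j) :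
    Bm B₀ c g = Bm B₀ c' g := by
  induction g with
  | zero => rfl
  | succ g ih => simp only [Bm]; rw [ih (fun j hj => h j (by omega)), h g (by omega)]

theorem Bm_le {κ : ℕ} {Q : Type} [AddCommGroup Q] [Module (RR κ) Q]
    (B₀ : Submodule (RR κ) Q) (c : ℕ → RR κ) (j : ℕ) : B₀ ≤ Bm B₀ c j := by
  induction j with
  | zero => exact le_rfl
  | succ j ih => exact ih.trans le_sup_left

/-- cutting down by the first element first -/
theorem Bm_shift {κ : ℕ} {Q : Type} [AddCommGroup Q] [Module (RR κ) Q]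
    (B₀ : Submodule (RR κ) Q) (c : ℕ → RR κ) (j : ℕ) :
    Bm B₀ c (j + 1) = Bm (B₀ ⊔ mulTop Q (c 0)) (fun t => c (t + 1)) j := by
  induction j with
  | zero => rfl
  | succ j ih => rw [Bm_succ, ih, Bm_succ]

end TI
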