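import Pool.Agent.Helper97.TI.Defs
import Pool.Agent.Helper97.TI.L_CHI
import Pool.Agent.Helper97.TI.L_E1

/-!
Module D1 of MP_17e24e_ag: the exchange lemma for trace duality.
-/

set_option autoImplicit false
open MvPolynomial

namespace TI

section DUAL

variable {K : Type} [Field K] [Algebra ℂ K]

/-- scaling the argument of the trace to a subfield generated by equal sets -/
theorem D1_scale (A A' : Set K) (hA : A = A') (f : K) (u : ℂ)
    (h : ((Algebra.trace (IntermediateField.adjoin ℂ A) K f : IntermediateField.adjoin ℂ A) : K) ∈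
      Algebra.adjoin ℂ A) :
    ((Algebra.trace (IntermediateField.adjoin ℂ A') K (u • f) :
      IntermediateField.adjoin ℂ A') : K) ∈ Algebra.adjoin ℂ A' := by
  subst hA
  have : (Algebra.trace (IntermediateField.adjoin ℂ A) K (u • f)) =
      u • (Algebra.trace (IntermediateField.adjoin ℂ A) K f) := by
    rw [← algebraMap_smul (IntermediateField.adjoin ℂ A) u f, map_smul, algebraMap_smul]
  rw [this]
  exact Subalgebra.smul_mem _ h u

/-- an `R`-submodule of `K` as a module over a subalgebra of the image of `R` -/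
def D1_sub {κ : ℕ} [Algebra (RR κ) K] [IsScalarTower ℂ (RR κ) K] (N : Submodule (RR κ) K)
    (C : Subalgebra ℂ K) (hC : ∀ x ∈ C, ∃ p : RR κ, algebraMap (RR κ) K p = x) :
    Submodule C K where
  carrier := N
  add_mem' := N.add_mem
  zero_mem' := N.zero_mem
  smul_mem' := by
    rintro ⟨x, hx⟩ m hm
    obtain ⟨p, rfl⟩ := hC x hx
    have : (⟨algebraMap (RR κ) K p, hx⟩ : C) • m = p • m := by
      rw [Algebra.smul_def p m]
      rfl
    rw [this]
    exact N.smul_mem p hm

theorem D1_range {κ : ℕ} [Algebra (RR κ) K] [IsScalarTower ℂ (RR κ) K] (A : Set K)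
    (hA : ∀ x ∈ A, ∃ p : RR κ, algebraMap (RR κ) K p = x) :
    ∀ x ∈ Algebra.adjoin ℂ A, ∃ p : RR κ, algebraMap (RR κ) K p = x := by
  have h1 : Algebra.adjoin ℂ A ≤ (IsScalarTower.toAlgHom ℂ (RR κ) K).range := by
    rw [Algebra.adjoin_le_iff]
    intro x hx
    obtain ⟨p, hp⟩ := hA x hx
    exact ⟨p, hp⟩
  intro x hx
  obtain ⟨p, hp⟩ := h1 hx
  exact ⟨p, hp⟩

/-- D1 (second wave): the exchange lemma for trace duality -/
theorem TT_exchange {κ n : ℕ} [Algebra (RR κ) K] [IsScalarTower ℂ (RR κ) K]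
    (der : Fin n → Derivation ℂ K K) (c c' : Fin n → RR κ) (i : Fin n)
    (hcc : ∀ j, j ≠ i → c j = c' j)
    (hc : AlgebraicIndependent ℂ (fun j => algebraMap (RR κ) K (c j)))
    (hc' : AlgebraicIndependent ℂ (fun j => algebraMap (RR κ) K (c' j)))
    (hint : ∀ a : RR κ, IsIntegral (Algebra.adjoin ℂ
      (Set.range fun j => algebraMap (RR κ) K (c j))) (algebraMap (RR κ) K a))
    (hint' : ∀ a : RR κ, IsIntegral (Algebra.adjoin ℂ
      (Set.range fun j => algebraMap (RR κ) K (c' j))) (algebraMap (RR κ) K a))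
    (hfin : FiniteDimensional (IntermediateField.adjoin ℂ
      (Set.range fun j => algebraMap (RR κ) K (c j))) K)
    (hfin' : FiniteDimensional (IntermediateField.adjoin ℂ
      (Set.range fun j => algebraMap (RR κ) K (c' j))) K)
    (hJ : Dl der (fun j => algebraMap (RR κ) K (c j)) ≠ 0)
    (hJ' : Dl der (fun j => algebraMap (RR κ) K (c' j)) ≠ 0)
    (N : Submodule (RR κ) K) (h : TT der (fun j => algebraMap (RR κ) K (c j)) N) :
    TT der (fun j => algebraMap (RR κ) K (c' j)) N := by
  obtain ⟨u, hu, hchi⟩ := TI.chi der (fun j => algebraMap (RR κ) K (c j))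
    (fun j => algebraMap (RR κ) K (c' j)) i (fun j hj => by rw [hcc j hj]) hc hc'
    (hint (c' i)) (hint' (c i))
  have hset : (Set.range fun j => algebraMap (RR κ) K (c j)) ∪ {algebraMap (RR κ) K (c' i)} =
      (Set.range fun j => algebraMap (RR κ) K (c' j)) ∪ {algebraMap (RR κ) K (c i)} := by
    ext z
    simp only [Set.mem_union, Set.mem_range, Set.mem_singleton_iff]
    constructor
    · rintro (⟨j, rfl⟩ | rfl)
      · by_cases hj : j = i
        · right; rw [hj]
        · left; exact ⟨j, by rw [hcc j hj]⟩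
      · left; exact ⟨i, rfl⟩
    · rintro (⟨j, rfl⟩ | rfl)
      · by_cases hj : j = i
        · right; rw [hj]
        · left; exact ⟨j, by rw [hcc j hj]⟩
      · left; exact ⟨i, rfl⟩
  have hr : ∀ x ∈ Algebra.adjoin ℂ
      ((Set.range fun j => algebraMap (RR κ) K (c j)) ∪ {algebraMap (RR κ) K (c' i)}),
      ∃ p : RR κ, algebraMap (RR κ) K p = x := by
    apply D1_range
    rintro x (⟨j, rfl⟩ | hx)
    · exact ⟨c j, rfl⟩
    · exact ⟨c' i, hx.symm⟩
  have hr' : ∀ x ∈ Algebra.adjoin ℂ
      ((Set.range fun j => algebraMap (RR κ) K (c' j)) ∪ {algebraMap (RR κ) K (c i)}),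
      ∃ p : RR κ, algebraMap (RR κ) K p = x := by
    apply D1_range
    rintro x (⟨j, rfl⟩ | hx)
    · exact ⟨c' j, rfl⟩
    · exact ⟨c i, hx.symm⟩
  have e1 := TI.TT_iff (fun j => algebraMap (RR κ) K (c j)) hc (algebraMap (RR κ) K (c' i))
    (hint (c' i)) (D1_sub N _ hr) _ hJ
  have e2 := TI.TT_iff (fun j => algebraMap (RR κ) K (c' j)) hc' (algebraMap (RR κ) K (c i))
    (hint' (c i)) (D1_sub N _ hr') _ hJ'
  have h1 := e1.mp h
  refine e2.mpr ?_
  intro ν hν
  have h2 := h1 ν hν
  have h3 := D1_scale _ _ hset _ u⁻¹ h2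
  convert h3 using 4
  have hchi' := hchi
  beta_reduce at hchi'
  rw [div_eq_iff hJ', smul_mul_assoc, div_mul_eq_mul_div, mul_assoc ν, hchi']
  rw [Algebra.smul_def, Algebra.smul_def, map_inv₀]
  have hu' : algebraMap ℂ K u ≠ 0 := by
    simpa using hu
  field_simp

end DUAL

end TI
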