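import Pool.Agent.Helper97.TI.Defs
import Pool.Agent.Helper97.TI.L_GR1

set_option autoImplicit false
open MvPolynomial

namespace TI

theorem FRB_split {κ : ℕ} (L : ℕ) (p : RR κ) : ∃ q ∈ restrictTotalDegree (Fin κ) ℂ L,
    p - q ∈ mm κ ^ L := by
  classical
  refine ⟨∑ x ∈ p.support.filter (fun x => x.degree < L), monomial x (coeff x p), ?_, ?_⟩
  · apply Submodule.sum_mem
    intro x hx
    rw [mem_restrictTotalDegree]
    refine (totalDegree_monomial_le _ _).trans ?_
    have := (Finset.mem_filter.1 hx).2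
    rw [Finsupp.degree_eq_sum] at this
    rw [Finsupp.sum_fintype _ _ (fun _ => rfl)]
    exact this.le
  · have h1 : p - ∑ x ∈ p.support.filter (fun x => x.degree < L), monomial x (coeff x p) =
        ∑ x ∈ p.support.filter (fun x => ¬ x.degree < L), monomial x (coeff x p) := by
      rw [sub_eq_iff_eq_add, add_comm, Finset.sum_filter_add_sum_filter_not]
      exact p.as_sum
    rw [h1]
    apply Ideal.sum_mem
    intro x hx
    have h2 := (Finset.mem_filter.1 hx).2
    have h3 : (monomial x (coeff x p) : RR κ) ∈ idealOfVars (Fin κ) ℂ ^ L := by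
      rw [mem_pow_idealOfVars_iff]
      intro y hy
      have h4 := support_monomial_subset hy
      rw [Finset.mem_singleton] at h4
      rw [h4]
      omega
    exact h3

section FREE
variable {κ : ℕ} {Q : Type} [AddCommGroup Q] [Module (RR κ) Q]
variable [Module ℂ Q] [IsScalarTower ℂ (RR κ) Q] {ρ : Q →ₗ[ℂ] Q}

theorem FRB_C_smul (a : ℂ) (m : Q) : (C a : RR κ) • m = a • m := by
  have h := algebraMap_smul (RR κ) a m
  exact h

theorem FRB_finite [Module.Finite (RR κ) Q] {B : Submodule (RR κ) Q}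
    (hL : ∃ L : ℕ, ∀ p ∈ mm κ ^ L, ∀ m : Q, p • m ∈ B) : Module.Finite ℂ (Q ⧸ B) := by
  obtain ⟨L, hL⟩ := hL
  obtain ⟨n, s, hs⟩ := Module.Finite.exists_fin (R := RR κ) (M := Q)
  let Φ : (Fin n → restrictTotalDegree (Fin κ) ℂ L) →ₗ[ℂ] (Q ⧸ B) :=
    { toFun := fun u => Submodule.Quotient.mk (∑ g, ((u g : RR κ)) • s g)
      map_add' := by
        intro u v
        rw [← Submodule.Quotient.mk_add, ← Finset.sum_add_distrib]
        congr 1
        apply Finset.sum_congr rfl
        intro g _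
        rw [Pi.add_apply, Submodule.coe_add, add_smul]
      map_smul' := by
        intro a u
        rw [RingHom.id_apply, ← Submodule.Quotient.mk_smul, Finset.smul_sum]
        congr 1
        apply Finset.sum_congr rfl
        intro g _
        rw [Pi.smul_apply, Submodule.coe_smul, smul_assoc] }
  apply Module.Finite.of_surjective Φ
  intro v
  obtain ⟨m, rfl⟩ := Submodule.Quotient.mk_surjective B v
  have hm : m ∈ Submodule.span (RR κ) (Set.range s) := by rw [hs]; trivial
  obtain ⟨c, hc⟩ := (Submodule.mem_span_range_iff_exists_fun (RR κ)).1 hm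
  choose q hq1 hq2 using fun g => FRB_split L (c g)
  refine ⟨fun g => ⟨q g, hq1 g⟩, ?_⟩
  show Submodule.Quotient.mk (∑ g, q g • s g) = Submodule.Quotient.mk m
  rw [eq_comm, Submodule.Quotient.eq, ← hc, ← Finset.sum_sub_distrib]
  apply Submodule.sum_mem
  intro g _
  rw [← sub_smul]
  exact hL _ (hq2 g) _

/-- FRB: existence of a homogeneous basis modulo `(c)` -/
theorem exists_basis_mod [Module.Finite (RR κ) Q] (hρ : IsScal κ ρ) {n : ℕ} (hg : WGen κ ρ n)
    {B : Submodule (RR κ) Q} (hB : Stab ρ B)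
    (hL : ∃ L : ℕ, ∀ p ∈ mm κ ^ L, ∀ m : Q, p • m ∈ B) :
    ∃ (N : ℕ) (h : Fin N → Q) (wt : Fin N → ℕ), (∀ i, Hm ρ (wt i) (h i)) ∧
      (∀ m : Q, ∃ a : Fin N → ℂ, m - ∑ i, (C (a i) : RR κ) • h i ∈ B) ∧
      (∀ a : Fin N → ℂ, (∑ i, (C (a i) : RR κ) • h i) ∈ B → a = 0) := by
  haveI := FRB_finite (κ := κ) (Q := Q) hL
  let s : Set (Q ⧸ B) := {v | ∃ w m, Hm ρ w m ∧ v = Submodule.Quotient.mk m}
  have hs : Submodule.span ℂ s = ⊤ := by
    rw [eq_top_iff]
    rintro v -
    obtain ⟨m, rfl⟩ := Submodule.Quotient.mk_surjective B v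
    obtain ⟨f, hf1, -, hf3⟩ := TI.decomp hρ hg m
    have h1 : (Submodule.Quotient.mk m : Q ⧸ B) =
        ∑ w ∈ f.support, (Submodule.Quotient.mk (f w) : Q ⧸ B) := by
      have h2 : m = ∑ w ∈ f.support, f w := hf3
      conv_lhs => rw [h2]
      exact map_sum (Submodule.mkQ B) _ _
    rw [h1]
    apply Submodule.sum_mem
    intro w _
    exact Submodule.subset_span ⟨w, f w, hf1 w, rfl⟩
  obtain ⟨b, hbs, hbspan, hbli⟩ := exists_linearIndependent ℂ s
  have hbfin : b.Finite := hbli.setFinite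
  haveI : Fintype b := hbfin.fintype
  let e : Fin (Fintype.card b) ≃ b := (Fintype.equivFin b).symm
  choose wt h hw hh using fun v : b => hbs v.2
  have hC : ∀ a : Fin (Fintype.card b) → ℂ,
      (Submodule.Quotient.mk (∑ i, (C (a i) : RR κ) • h (e i)) : Q ⧸ B) =
      ∑ i, a i • ((e i : b) : Q ⧸ B) := by
    intro a
    have h1 : (Submodule.Quotient.mk (∑ i, (C (a i) : RR κ) • h (e i)) : Q ⧸ B) =
      ∑ i, (Submodule.Quotient.mk ((C (a i) : RR κ) • h (e i)) : Q ⧸ B) :=
      map_sum (Submodule.mkQ B) _ _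
    rw [h1]
    apply Finset.sum_congr rfl
    intro i _
    rw [FRB_C_smul, Submodule.Quotient.mk_smul, ← hh (e i)]
  refine ⟨Fintype.card b, fun i => h (e i), fun i => wt (e i), fun i => hw (e i), ?_, ?_⟩
  · intro m
    have h1 : (Submodule.Quotient.mk m : Q ⧸ B) ∈
        Submodule.span ℂ (Set.range fun i => ((e i : b) : Q ⧸ B)) := by
      have h2 : Set.range (fun i => ((e i : b) : Q ⧸ B)) = b := by
        ext v
        constructor
        · rintro ⟨i, rfl⟩
          exact (e i).2
        · intro hv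
          exact ⟨e.symm ⟨v, hv⟩, by simp⟩
      rw [h2, hbspan, hs]
      trivial
    obtain ⟨a, ha⟩ := (Submodule.mem_span_range_iff_exists_fun ℂ).1 h1
    refine ⟨a, ?_⟩
    rw [← Submodule.Quotient.eq, hC]
    exact ha.symm
  · intro a ha
    rw [← Submodule.Quotient.mk_eq_zero, hC] at ha
    have hli : LinearIndependent ℂ (fun i => ((e i : b) : Q ⧸ B)) := hbli.comp e e.injective
    funext i
    exact Fintype.linearIndependent_iff.1 hli a ha i

end FREE

end TI
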