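import Pool.Agent.Helper97.TI.Defs
import Pool.Agent.Helper97.TI.L_GR1
import Pool.Agent.Helper97.TI.L_GR2

/-!
# MP_17e24e_ag : module FRG (graded generation)
-/

set_option autoImplicit false
set_option linter.unusedSectionVars false
open MvPolynomial

namespace TI

section FRG
variable {κ : ℕ} {Q : Type} [AddCommGroup Q] [Module (RR κ) Q]
variable [Module ℂ Q] [IsScalarTower ℂ (RR κ) Q] {ρ : Q →ₗ[ℂ] Q}

theorem FRG_C_smul (a : ℂ) (m : Q) : (C a : RR κ) • m = a • m := by
  have := algebraMap_smul (RR κ) a m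
  rwa [MvPolynomial.algebraMap_eq] at this

/-- homogeneous elements of a given weight form a subspace -/
def FRG_H (ρ : Q →ₗ[ℂ] Q) (w : ℕ) : Submodule ℂ Q where
  carrier := {m | Hm ρ w m}
  zero_mem' := by
    show ρ 0 = (2:ℂ) ^ w • (0 : Q)
    rw [map_zero, smul_zero]
  add_mem' := by
    intro a b ha hb
    show ρ (a + b) = (2:ℂ) ^ w • (a + b)
    rw [map_add, smul_add, ha, hb]
  smul_mem' := by
    intro c a ha
    show ρ (c • a) = (2:ℂ) ^ w • (c • a)
    rw [map_smul, ha, smul_comm]

theorem FRG_mem {w : ℕ} {m : Q} : m ∈ FRG_H ρ w ↔ Hm ρ w m := Iff.rfl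

/-- representable elements -/
def FRG_rep {ι : Type} [Fintype ι] (r : ℕ) (c : ℕ → RR κ) (h : ι → Q) (m : Q) : Prop :=
  ∃ P : ι → MvPolynomial (Fin r) ℂ, m = ∑ i, (aeval (fun j : Fin r => c j) (P i) : RR κ) • h i

theorem FRG_rep_zero {ι : Type} [Fintype ι] (r : ℕ) (c : ℕ → RR κ) (h : ι → Q) :
    FRG_rep r c h (0 : Q) := ⟨fun _ => 0, by simp⟩

theorem FRG_rep_add {ι : Type} [Fintype ι] {r : ℕ} {c : ℕ → RR κ} {h : ι → Q} {m m' : Q}
    (hm : FRG_rep r c h m) (hm' : FRG_rep r c h m') : FRG_rep r c h (m + m') := by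
  obtain ⟨P, rfl⟩ := hm
  obtain ⟨P', rfl⟩ := hm'
  refine ⟨fun i => P i + P' i, ?_⟩
  rw [← Finset.sum_add_distrib]
  refine Finset.sum_congr rfl fun i _ => ?_
  rw [map_add, add_smul]

theorem FRG_rep_smul {ι : Type} [Fintype ι] {r : ℕ} {c : ℕ → RR κ} {h : ι → Q} {m : Q}
    (hm : FRG_rep r c h m) (j : ℕ) (hj : j < r) : FRG_rep r c h (c j • m) := by
  obtain ⟨P, rfl⟩ := hm
  refine ⟨fun i => X ⟨j, hj⟩ * P i, ?_⟩
  rw [Finset.smul_sum]
  refine Finset.sum_congr rfl fun i _ => ?_
  rw [map_mul, aeval_X, mul_smul]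

/-- FRG: generation -/
theorem free_gen {ι : Type} [Fintype ι] (hρ : IsScal κ ρ) {n : ℕ} (hg : WGen κ ρ n) (r : ℕ)
    (c : ℕ → RR κ) (e : ℕ → ℕ) (hc : ∀ j, (c j).IsHomogeneous (e j)) (he : ∀ j, 0 < e j)
    (h : ι → Q) (wt : ι → ℕ) (hh : ∀ i, Hm ρ (wt i) (h i))
    (hspan : ∀ m : Q, ∃ a : ι → ℂ, m - ∑ i, (C (a i) : RR κ) • h i ∈
      Bm (⊥ : Submodule (RR κ) Q) c r) (m : Q) :
    ∃ P : ι → MvPolynomial (Fin r) ℂ, m = ∑ i, (aeval (fun j : Fin r => c j) (P i) : RR κ) • h i := by
  classical
  have hbot : Stab ρ (⊥ : Submodule (RR κ) Q) := by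
    intro x hx
    rw [Submodule.mem_bot] at hx ⊢
    rw [hx, map_zero]
  -- homogeneous elements
  have key : ∀ w : ℕ, ∀ m : Q, Hm ρ w m → FRG_rep r c h m := by
    intro w
    induction w using Nat.strong_induction_on with
    | _ w ih =>
      intro m hm
      -- elements of the submodule
      have hB : ∀ s, s ≤ r → ∀ m' : Q, Hm ρ w m' → m' ∈ Bm (⊥ : Submodule (RR κ) Q) c s →
          FRG_rep r c h m' := by
        intro s
        induction s with
        | zero =>
          intro _ m' _ hm'
          rw [Bm_zero, Submodule.mem_bot] at hm'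
          rw [hm']
          exact FRG_rep_zero r c h
        | succ s ihs =>
          intro hs m' hw hm'
          rw [Bm_succ] at hm'
          rcases TI.mem_add hρ hg (TI.stab_Bm hρ hbot hc s) (hc s) hw hm' with h1 | h1
          · exact ihs (by omega) m' hw h1
          · obtain ⟨w', q, hw', -, hq, hmem⟩ := h1
            have hwc : Hm ρ w (c s • q) := by
              have := TI.hm_smul hρ (hc s) hq
              rwa [hw'] at this
            have h2 : FRG_rep r c h (m' - c s • q) :=
              ihs (by omega) _ ((FRG_H ρ w).sub_mem hw hwc) hmem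
            have h3 : FRG_rep r c h q := ih w' (by have := he s; omega) q hq
            have h4 := FRG_rep_add h2 (FRG_rep_smul h3 s (by omega))
            rwa [sub_add_cancel] at h4
      obtain ⟨a, ha⟩ := hspan m
      let f : ℕ →₀ Q := Finsupp.single w m -
        ∑ i, Finsupp.single (wt i) ((C (a i) : RR κ) • h i)
      have hCh : ∀ i, Hm ρ (wt i) ((C (a i) : RR κ) • h i) := by
        intro i
        rw [FRG_C_smul]
        exact (FRG_H ρ (wt i)).smul_mem _ (hh i)
      have hfapp : ∀ v, f v = (Finsupp.single w m) v -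
          ∑ i, (Finsupp.single (wt i) ((C (a i) : RR κ) • h i)) v := by
        intro v
        rw [Finsupp.sub_apply, Finsupp.finsetSum_apply]
      have hsingle : ∀ (u v : ℕ) (x : Q), Hm ρ u x → (Finsupp.single u x) v ∈ FRG_H ρ v := by
        intro u v x hx
        by_cases huv : u = v
        · subst huv
          rw [Finsupp.single_eq_same]
          exact hx
        · rw [Finsupp.single_eq_of_ne (Ne.symm huv)]
          exact Submodule.zero_mem _
      have hf : ∀ v, Hm ρ v (f v) := by
        intro v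
        rw [hfapp]
        exact (FRG_H ρ v).sub_mem (hsingle w v m hm)
          ((FRG_H ρ v).sum_mem fun i _ => hsingle (wt i) v _ (hCh i))
      have hsum : (f.sum fun _ v => v) = m - ∑ i, (C (a i) : RR κ) • h i := by
        have e1 : ∀ g : ℕ →₀ Q, (g.sum fun _ v => v) =
            Finsupp.liftAddHom (fun _ => AddMonoidHom.id Q) g := fun g => rfl
        rw [e1, map_sub, map_sum, Finsupp.liftAddHom_apply_single]
        congr 1
        refine Finset.sum_congr rfl fun i _ => ?_
        rw [Finsupp.liftAddHom_apply_single]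
        rfl
      have h1 := TI.comp_mem (TI.stab_Bm hρ hbot hc r) f hf (by rw [hsum]; exact ha) w
      have h2 := hB r le_rfl (f w) (hf w) h1
      have h3 : FRG_rep r c h (∑ i, (Finsupp.single (wt i) ((C (a i) : RR κ) • h i)) w) := by
        refine ⟨fun i => if wt i = w then C (a i) else 0, ?_⟩
        refine Finset.sum_congr rfl fun i _ => ?_
        by_cases hi : wt i = w
        · simp only [if_pos hi]
          rw [hi, Finsupp.single_eq_same, aeval_C]
          rfl
        · simp only [if_neg hi]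
          rw [Finsupp.single_eq_of_ne (Ne.symm hi), map_zero, zero_smul]
      have h4 := FRG_rep_add h2 h3
      rw [hfapp, Finsupp.single_eq_same, sub_add_cancel] at h4
      exact h4
  obtain ⟨f, hf, -, hsum⟩ := TI.decomp hρ hg m
  show FRG_rep r c h m
  rw [hsum, Finsupp.sum]
  have : ∀ s : Finset ℕ, FRG_rep r c h (∑ a ∈ s, f a) := by
    intro s
    induction s using Finset.induction_on with
    | empty =>
      rw [Finset.sum_empty]
      exact FRG_rep_zero r c h
    | insert a s has ihs =>
      rw [Finset.sum_insert has]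
      exact FRG_rep_add (key a _ (hf a)) ihs
  exact this _

end FRG

end TI
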