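import Pool.Agent.Helper97.TI.Defs
import Pool.Agent.Helper97.TI.L_K1

set_option autoImplicit false
open MvPolynomial

namespace TI

theorem K3_mul {k K : Type} [Field k] [Field K] (φ : k →+* K) (a : k) (x : K) :
    trHom φ (φ a * x) = a * trHom φ x := by
  let _ : Algebra k K := φ.toAlgebra
  change Algebra.trace k K (φ a * x) = a * Algebra.trace k K x
  have h : φ a * x = a • x := (Algebra.smul_def a x).symm
  rw [h, map_smul, smul_eq_mul]

theorem K3_eq {k K L : Type} [Field k] [Field K] [Field L] [Algebra L K] (φ : k →+* K)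
    (e : k ≃+* L) (he : ∀ a, algebraMap L K (e a) = φ a) (x : K) :
    algebraMap L K (Algebra.trace L K x) = φ (trHom φ x) := by
  let _ : Algebra k K := φ.toAlgebra
  have h := Algebra.trace_eq_of_equiv_equiv (A₁ := k) (B₁ := K) (A₂ := L) (B₂ := K) e
    (RingEquiv.refl K) (by ext a; exact he a) x
  have h2 : trHom φ x = e.symm (Algebra.trace L K x) := h
  rw [h2, ← he, e.apply_symm_apply]

section SYS
variable {κ d n : ℕ} {K : Type} [Field K] [Algebra ℂ K] [Algebra (RR κ) K]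
  [IsScalarTower ℂ (RR κ) K]

/-- K3a -/
theorem trHom_mul (S : Sys κ d n K) (a x : K) :
    trHom (S.φ : K →+* K) (S.φ a * x) = a * trHom (S.φ : K →+* K) x :=
  K3_mul (S.φ : K →+* K) a x

/-- K3b -/
theorem T_smul (S : Sys κ d n K) (a : RR κ) (m : K) : S.T (phi S.F a • m) = a • S.T m := by
  have h1 : S.T (phi S.F a • m) = trHom (S.φ : K →+* K) ((phi S.F a • m) / S.J) := rfl
  have h2 : S.T m = trHom (S.φ : K →+* K) (m / S.J) := rfl
  rw [h1, h2, Algebra.smul_def, Algebra.smul_def, ← S.hφ, mul_div_assoc, trHom_mul]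

/-- K3d -/
theorem trHom_eq (S : Sys κ d n K) (x : K) :
    ((Algebra.trace S.φ.fieldRange K x : S.φ.fieldRange) : K) = S.φ (trHom (S.φ : K →+* K) x) :=
  K3_eq (L := S.φ.fieldRange) (S.φ : K →+* K) (AlgEquiv.ofInjectiveField S.φ).toRingEquiv
    (fun _ => rfl) x

/-- K3c -/
theorem TΦ (S : Sys κ d n K) : ∃ c : ℂ, c ≠ 0 ∧ ∀ m : K, S.T (S.Φ m) = c • m := by
  have := S.fin
  refine ⟨(Module.finrank S.φ.fieldRange K : ℂ), ?_, fun m => ?_⟩
  · exact_mod_cast (Module.finrank_pos (R := S.φ.fieldRange) (M := K)).ne'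
  · have h1 : S.T (S.Φ m) = trHom (S.φ : K →+* K) ((S.φ m * S.J) / S.J) := rfl
    rw [h1, mul_div_cancel_right₀ _ (TI.J_ne_zero S)]
    apply S.φ.toRingHom.injective
    change S.φ (trHom (S.φ : K →+* K) (S.φ m)) = S.φ _
    rw [← trHom_eq]
    have h3 : S.φ m = algebraMap S.φ.fieldRange K ⟨S.φ m, m, rfl⟩ := rfl
    rw [h3, Algebra.trace_algebraMap]
    rw [Nat.cast_smul_eq_nsmul, map_nsmul]
    rfl

end SYS

end TI
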