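import Pool.Agent.Helper97.TI.L_K4

set_option autoImplicit false
set_option linter.unusedSectionVars false
open MvPolynomial

namespace TI

/-- independence of the weights -/
theorem K4f_indep {K : Type} [Field K] [Algebra ℂ K] (ρ : K →ₗ[ℂ] K) (N : ℕ) :
    ∀ f : ℕ → K, (∀ w, ρ (f w) = (2:ℂ) ^ w • f w) → ∑ w ∈ Finset.range N, f w = 0 →
      ∀ w < N, f w = 0 := by
  induction N with
  | zero => intro f _ _ w hw; omega
  | succ N ih =>
    intro f hf hs
    have h1 : ∑ w ∈ Finset.range (N + 1), (2:ℂ) ^ w • f w = 0 := by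
      have := congrArg ρ hs
      rw [map_sum, map_zero] at this
      rw [← this]
      exact Finset.sum_congr rfl fun w _ => (hf w).symm
    have h2 : ∑ w ∈ Finset.range N, ((2:ℂ) ^ w - 2 ^ N) • f w = 0 := by
      have h3 : ∑ w ∈ Finset.range (N + 1), ((2:ℂ) ^ w - 2 ^ N) • f w = 0 := by
        rw [Finset.sum_congr rfl fun w _ => sub_smul ((2:ℂ) ^ w) (2 ^ N) (f w),
          Finset.sum_sub_distrib, h1, ← Finset.smul_sum, hs, smul_zero, sub_zero]
      rw [Finset.sum_range_succ, sub_self, zero_smul, add_zero] at h3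
      exact h3
    have h4 := ih (fun w => ((2:ℂ) ^ w - 2 ^ N) • f w) (fun w => by
      show ρ (((2:ℂ) ^ w - 2 ^ N) • f w) = (2:ℂ) ^ w • (((2:ℂ) ^ w - 2 ^ N) • f w)
      rw [map_smul, hf w, smul_comm]) h2
    have h5 : ∀ w < N, f w = 0 := by
      intro w hw
      have h6 := h4 w hw
      refine (smul_eq_zero.mp h6).resolve_left ?_
      intro h7'
      have h7 := sub_eq_zero.mp h7'
      have h8 : ((2 ^ w : ℕ) : ℂ) = ((2 ^ N : ℕ) : ℂ) := by push_cast; exact h7
      have h9 := Nat.pow_right_injective le_rfl (Nat.cast_injective h8)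
      omega
    intro w hw
    rcases Nat.lt_succ_iff_lt_or_eq.mp hw with h | h
    · exact h5 w h
    · subst h
      rw [Finset.sum_range_succ, Finset.sum_eq_zero fun w hw => h5 w (Finset.mem_range.mp hw),
        zero_add] at hs
      exact hs

section SYS
variable {κ d n : ℕ} {K : Type} [Field K] [Algebra ℂ K] [Algebra (RR κ) K]
  [IsScalarTower ℂ (RR κ) K]

/-- K4f: elements of `M` of lowest weight -/
theorem mem_V (S : Sys κ d n K) {m : K} (hm : m ∈ S.M) (h : S.ρ m = m) : m ∈ S.V := by
  classical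
  obtain ⟨c, hc⟩ := (Submodule.mem_span_range_iff_exists_fun (RR κ)).mp hm
  obtain ⟨N, hN⟩ : ∃ N : ℕ, ∀ l', (c l').totalDegree < N :=
    ⟨(Finset.univ.sup fun l' => (c l').totalDegree) + 1, fun l' =>
      Nat.lt_succ_of_le (Finset.le_sup (f := fun l' => (c l').totalDegree) (Finset.mem_univ l'))⟩
  have hdec : ∀ l', c l' = ∑ w ∈ Finset.range N, homogeneousComponent w (c l') := by
    intro l'
    conv_lhs => rw [← sum_homogeneousComponent (c l')]
    refine Finset.sum_subset (Finset.range_mono (hN l')) fun w _ hw => ?_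
    apply homogeneousComponent_eq_zero
    have := Finset.mem_range.not.mp hw
    omega
  set f : ℕ → K := fun w => ∑ l', (homogeneousComponent w (c l')) • S.Dx l' with hf
  have hsum : ∑ w ∈ Finset.range N, f w = m := by
    rw [← hc, hf, Finset.sum_comm]
    refine Finset.sum_congr rfl fun l' _ => ?_
    rw [← Finset.sum_smul, ← hdec]
  have hρf : ∀ w, S.ρ (f w) = (2:ℂ) ^ w • f w := by
    intro w
    rw [hf, map_sum, Finset.smul_sum]
    refine Finset.sum_congr rfl fun l' _ => ?_
    rw [Algebra.smul_def, map_mul, ρ_Dx, K4_ρhom S (homogeneousComponent_isHomogeneous w (c l')),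
      smul_mul_assoc]
  have hN0 : 0 < N := lt_of_le_of_lt (Nat.zero_le _) (hN S.l)
  obtain ⟨N', rfl⟩ : ∃ N', N = N' + 1 := ⟨N - 1, by omega⟩
  have h0 : (fun w => if w = 0 then f 0 - m else f w) 0 = 0 := by
    refine K4f_indep S.ρ.toLinearMap (N' + 1) (fun w => if w = 0 then f 0 - m else f w)
      ?_ ?_ 0 hN0
    · intro w
      show S.ρ (if w = 0 then f 0 - m else f w) = (2:ℂ) ^ w • (if w = 0 then f 0 - m else f w)
      by_cases hw : w = 0
      · subst hw
        rw [if_pos rfl, map_sub, h, hρf 0, pow_zero, one_smul, one_smul]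
      · rw [if_neg hw, hρf w]
    · rw [Finset.sum_range_succ'] at hsum ⊢
      rw [if_pos rfl, Finset.sum_congr rfl fun w _ => if_neg (Nat.succ_ne_zero w)]
      rw [← hsum]
      ring
  have h1 : m = f 0 := by
    have h2 : f 0 - m = 0 := by
      have := h0
      simpa using this
    exact (sub_eq_zero.mp h2).symm
  rw [h1, hf]
  refine Submodule.sum_mem _ fun l' _ => ?_
  rw [homogeneousComponent_zero]
  have e : (C (coeff 0 (c l')) : RR κ) • S.Dx l' = (coeff 0 (c l')) • S.Dx l' := by
    rw [Algebra.smul_def, Algebra.smul_def, IsScalarTower.algebraMap_apply ℂ (RR κ) K]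
    rfl
  rw [e]
  exact Submodule.smul_mem _ _ (Submodule.subset_span ⟨l', rfl⟩)

end SYS

end TI
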