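import Pool.Agent.Helper97.TI.Defs
import Pool.Agent.Helper97.TI.L_GR1
import Pool.Agent.Helper97.TI.L_GR2

/-!
Module GOOD3 for MP_17e24e_ag: dimension drop along good elements.
-/

set_option autoImplicit false
open MvPolynomial

namespace TI

section GOOD3a
variable {κ : ℕ} {Q : Type} [AddCommGroup Q] [Module (RR κ) Q]

theorem GOOD3_mem_ann {B : Submodule (RR κ) Q} {a : RR κ} :
    a ∈ Module.annihilator (RR κ) (Q ⧸ B) ↔ ∀ m : Q, a • m ∈ B := by
  rw [Module.mem_annihilator]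
  constructor
  · intro h m
    have h1 := h (Submodule.Quotient.mk m)
    rwa [← Submodule.Quotient.mk_smul, Submodule.Quotient.mk_eq_zero] at h1
  · intro h m
    obtain ⟨m, rfl⟩ := Submodule.Quotient.mk_surjective B m
    rw [← Submodule.Quotient.mk_smul, Submodule.Quotient.mk_eq_zero]
    exact h m

theorem GOOD3_ann_mono {B B' : Submodule (RR κ) Q} (h : B ≤ B') :
    Module.annihilator (RR κ) (Q ⧸ B) ≤ Module.annihilator (RR κ) (Q ⧸ B') := by
  intro a ha
  rw [GOOD3_mem_ann] at ha ⊢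
  exact fun m => h (ha m)

theorem GOOD3_mem_mm {p : RR κ} (hp : coeff 0 p = 0) : p ∈ mm κ := by
  classical
  rw [p.as_sum]
  refine Ideal.sum_mem _ (fun v hv => ?_)
  have hv0 : v ≠ 0 := by
    rintro rfl
    exact (mem_support_iff.mp hv) hp
  obtain ⟨i, hi⟩ : ∃ i, v i ≠ 0 := by
    by_contra hcon
    push Not at hcon
    exact hv0 (Finsupp.ext (by simpa using hcon))
  have h1 : (monomial v (coeff v p) : RR κ) =
      monomial (v - Finsupp.single i 1) (coeff v p) * X i := by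
    rw [X, monomial_mul, mul_one]
    congr 2
    ext j
    by_cases hj : j = i
    · subst hj
      simp
      omega
    · simp [Ne.symm hj]
  rw [h1]
  exact Ideal.mul_mem_left _ _ (Ideal.subset_span ⟨i, rfl⟩)

theorem GOOD3_mm_isMaximal (κ : ℕ) : (mm κ).IsMaximal := by
  have h : mm κ = RingHom.ker (constantCoeff : RR κ →+* ℂ) := by
    apply le_antisymm
    · rw [mm, Ideal.span_le]
      rintro _ ⟨i, rfl⟩
      simp [RingHom.mem_ker]
    · intro p hp
      exact GOOD3_mem_mm hp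
  rw [h]
  exact RingHom.ker_isMaximal_of_surjective _ (fun z => ⟨C z, by simp⟩)

/-- the chain of primes -/
theorem GOOD3_chain [Module.Finite (RR κ) Q]
    {B₀ : Submodule (RR κ) Q} (c : ℕ → RR κ)
    (h : ∀ j, ∀ 𝔮 ∈ associatedPrimes (RR κ) (Q ⧸ Bm B₀ c j), 𝔮 ≠ mm κ → c j ∉ 𝔮)
    (r : ℕ) (𝔮 : PrimeSpectrum (RR κ)) (h1 : 𝔮.asIdeal ≤ mm κ) (h2 : 𝔮.asIdeal ≠ mm κ)
    (h3 : Module.annihilator (RR κ) (Q ⧸ Bm B₀ c r) ≤ 𝔮.asIdeal) :
    ∃ l : LTSeries (PrimeSpectrum (RR κ)), l.length = r ∧ l.last = 𝔮 ∧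
      Module.annihilator (RR κ) (Q ⧸ B₀) ≤ l.head.asIdeal := by
  induction r generalizing 𝔮 with
  | zero =>
    exact ⟨RelSeries.singleton _ 𝔮, rfl, rfl, h3⟩
  | succ r ih =>
    have h4 : Module.annihilator (RR κ) (Q ⧸ Bm B₀ c r) ≤ 𝔮.asIdeal :=
      (GOOD3_ann_mono (by rw [Bm_succ]; exact le_sup_left)).trans h3
    have := 𝔮.isPrime
    obtain ⟨𝔮', hq', hle⟩ := Ideal.exists_minimalPrimes_le h4
    have hq'p : 𝔮'.IsPrime := hq'.1.1
    have hass := Module.associatedPrimes.minimalPrimes_annihilator_subset_associatedPrimes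
      (RR κ) (Q ⧸ Bm B₀ c r) hq'
    have hne : 𝔮' ≠ mm κ := by
      intro he
      exact h2 (le_antisymm h1 (he ▸ hle))
    have hc := h r 𝔮' hass hne
    have hc' : c r ∈ 𝔮.asIdeal := by
      apply h3
      rw [GOOD3_mem_ann]
      intro m
      rw [Bm_succ]
      exact Submodule.mem_sup_right (mem_mulTop.mpr ⟨m, rfl⟩)
    obtain ⟨l, hl1, hl2, hl3⟩ := ih ⟨𝔮', hq'p⟩ (hle.trans h1) hne hq'.1.2
    have hlt : l.last < 𝔮 := by
      rw [hl2]
      refine lt_of_le_of_ne hle ?_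
      intro he
      apply hc
      rw [← he] at hc'
      exact hc'
    refine ⟨l.snoc 𝔮 hlt, ?_, ?_, ?_⟩
    · simp [hl1]
    · simp
    · simpa using hl3

end GOOD3a

section GOOD3b
variable {κ : ℕ} {Q : Type} [AddCommGroup Q] [Module (RR κ) Q]
variable [Module ℂ Q] [IsScalarTower ℂ (RR κ) Q] {ρ : Q →ₗ[ℂ] Q}

theorem GOOD3_comp (hρ : IsScal κ ρ) {B : Submodule (RR κ) Q} (hB : Stab ρ B) {w : ℕ} {m : Q}
    (hm : Hm ρ w m) {a : RR κ} (ha : a • m ∈ B) (i : ℕ) :
    homogeneousComponent i a • m ∈ B := by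
  classical
  by_cases hi : i < a.totalDegree + 1
  · have hg : ∀ j, Hm ρ (w + j) (homogeneousComponent j a • m) :=
      fun j => TI.hm_smul hρ (homogeneousComponent_isHomogeneous j a) hm
    let f : ℕ →₀ Q := ∑ j ∈ Finset.range (a.totalDegree + 1),
      Finsupp.single (w + j) (homogeneousComponent j a • m)
    have hf' : ∀ k, f k = ∑ j ∈ Finset.range (a.totalDegree + 1),
        if w + j = k then (homogeneousComponent j a • m) else 0 := by
      intro k
      simp only [f, Finsupp.finsetSum_apply, Finsupp.single_apply]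
    have hf : ∀ k, Hm ρ k (f k) := by
      intro k
      rw [hf']
      unfold Hm
      rw [map_sum, Finset.smul_sum]
      refine Finset.sum_congr rfl (fun j _ => ?_)
      split_ifs with hjk
      · subst hjk
        exact hg j
      · simp
    have hs : (f.sum fun _ v => v) = a • m := by
      have h1 : (f.sum fun _ v => v) = ∑ j ∈ Finset.range (a.totalDegree + 1),
          ((Finsupp.single (w + j) (homogeneousComponent j a • m)).sum fun _ v => v) := by
        simp only [f]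
        rw [Finsupp.sum_finsetSum_index]
        · intro _; rfl
        · intro _ _ _; rfl
      rw [h1]
      simp only [Finsupp.sum_single_index]
      rw [← Finset.sum_smul]
      congr 1
      exact sum_homogeneousComponent a
    have h2 := TI.comp_mem hB f hf (by rw [hs]; exact ha) (w + i)
    rw [hf', Finset.sum_eq_single i] at h2
    · simpa using h2
    · intro j _ hj
      rw [if_neg]
      omega
    · intro hni
      exact absurd (Finset.mem_range.mpr hi) hni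
  · rw [homogeneousComponent_eq_zero _ _ (by omega), zero_smul]
    exact B.zero_mem

theorem GOOD3_comp' (hρ : IsScal κ ρ) {n : ℕ} (hg : WGen κ ρ n) {B : Submodule (RR κ) Q}
    (hB : Stab ρ B) {a : RR κ} (ha : ∀ m : Q, a • m ∈ B) (i : ℕ) (m : Q) :
    homogeneousComponent i a • m ∈ B := by
  obtain ⟨f, hf, _, rfl⟩ := TI.decomp hρ hg m
  rw [Finsupp.sum, Finset.smul_sum]
  exact B.sum_mem (fun w _ => GOOD3_comp hρ hB (hf w) (ha _) i)

attribute [local instance] MvPolynomial.gradedAlgebra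

theorem GOOD3_homog (hρ : IsScal κ ρ) {n : ℕ} (hg : WGen κ ρ n) {B : Submodule (RR κ) Q}
    (hB : Stab ρ B) :
    (Module.annihilator (RR κ) (Q ⧸ B)).IsHomogeneous (homogeneousSubmodule (Fin κ) ℂ) := by
  intro i a ha
  have h1 : ((DirectSum.decompose (homogeneousSubmodule (Fin κ) ℂ) a i : _) : RR κ) =
      homogeneousComponent i a := MvPolynomial.decomposition.decompose'_apply a i
  rw [h1, GOOD3_mem_ann]
  rw [GOOD3_mem_ann] at ha
  exact fun m => GOOD3_comp' hρ hg hB ha i m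

theorem GOOD3_min_le (hρ : IsScal κ ρ) {n : ℕ} (hg : WGen κ ρ n) {B : Submodule (RR κ) Q}
    (hB : Stab ρ B) {𝔮 : Ideal (RR κ)}
    (h𝔮 : 𝔮 ∈ (Module.annihilator (RR κ) (Q ⧸ B)).minimalPrimes) : 𝔮 ≤ mm κ := by
  have hp : 𝔮.IsPrime := h𝔮.1.1
  have hh := GOOD3_homog hρ hg hB
  have h1 : ((𝔮.homogeneousCore (homogeneousSubmodule (Fin κ) ℂ)).toIdeal).IsPrime :=
    Ideal.IsPrime.homogeneousCore hp
  have h2 : Module.annihilator (RR κ) (Q ⧸ B) ≤
      (𝔮.homogeneousCore (homogeneousSubmodule (Fin κ) ℂ)).toIdeal :=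
    hh.toIdeal_homogeneousCore_eq_self.symm.trans_le (Ideal.homogeneousCore_mono _ h𝔮.1.2)
  have h3 : 𝔮 ≤ (𝔮.homogeneousCore (homogeneousSubmodule (Fin κ) ℂ)).toIdeal :=
    h𝔮.2 ⟨h1, h2⟩ (Ideal.toIdeal_homogeneousCore_le _ _)
  intro p hpq
  apply GOOD3_mem_mm
  have h4 : homogeneousComponent 0 p ∈
      (𝔮.homogeneousCore (homogeneousSubmodule (Fin κ) ℂ)).toIdeal :=
    homogeneousComponent_mem_of_mem (HomogeneousIdeal.isHomogeneous _) (h3 hpq) 0
  by_contra hne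
  apply h1.ne_top
  rw [Ideal.eq_top_iff_one]
  have h5 := Ideal.mul_mem_left _ (C (coeff 0 p)⁻¹) h4
  rwa [homogeneousComponent_zero, ← C_mul, inv_mul_cancel₀ hne, C_1] at h5

/-- GOOD3: cutting down by good elements -/
theorem pow_of_dim [Module.Finite (RR κ) Q] (hρ : IsScal κ ρ) {n : ℕ} (hg : WGen κ ρ n)
    {B₀ : Submodule (RR κ) Q} (hB : Stab ρ B₀) (c : ℕ → RR κ) (e : ℕ → ℕ)
    (hc : ∀ j, (c j).IsHomogeneous (e j)) (he : ∀ j, 0 < e j)
    (h : ∀ j, ∀ 𝔮 ∈ associatedPrimes (RR κ) (Q ⧸ Bm B₀ c j), 𝔮 ≠ mm κ → c j ∉ 𝔮)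
    (r : ℕ) (hdim : DimLe B₀ r) :
    ∃ L : ℕ, ∀ p ∈ mm κ ^ L, ∀ m : Q, p • m ∈ Bm B₀ c r := by
  have hst : Stab ρ (Bm B₀ c r) := TI.stab_Bm hρ hB hc r
  have hmin : ∀ 𝔮 ∈ (Module.annihilator (RR κ) (Q ⧸ Bm B₀ c r)).minimalPrimes, 𝔮 = mm κ := by
    intro 𝔮 h𝔮
    by_contra hne
    have hle := GOOD3_min_le hρ hg hst h𝔮
    obtain ⟨l, hl1, hl2, hl3⟩ := GOOD3_chain c h r ⟨𝔮, h𝔮.1.1⟩ hle hne h𝔮.1.2
    have hlt : l.last < (⟨mm κ, (GOOD3_mm_isMaximal κ).isPrime⟩ : PrimeSpectrum (RR κ)) := by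
      rw [hl2]
      refine lt_of_le_of_ne hle ?_
      intro he
      exact hne (congrArg PrimeSpectrum.asIdeal he)
    have h5 := hdim (l.snoc _ hlt) (by
      intro a ha
      have : a ∈ Module.annihilator (RR κ) (Q ⧸ B₀) := GOOD3_mem_ann.mpr ha
      simpa using hl3 this)
    simp [hl1] at h5
  have hrad : mm κ ≤ (Module.annihilator (RR κ) (Q ⧸ Bm B₀ c r)).radical := by
    rw [← Ideal.sInf_minimalPrimes]
    refine le_sInf (fun 𝔮 h𝔮 => ?_)
    rw [hmin 𝔮 h𝔮]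
  obtain ⟨L, hL⟩ := Ideal.exists_pow_le_of_le_radical_of_fg hrad (IsNoetherian.noetherian _)
  exact ⟨L, fun p hp m => GOOD3_mem_ann.mp (hL hp) m⟩

end GOOD3b

end TI
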