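import Pool.Agent.Helper97.TI.L_GR3
import Pool.Agent.Helper97.TI.L_MOV

set_option autoImplicit false
open MvPolynomial

namespace TI

section EX
variable {κ : ℕ} {Q : Type} [AddCommGroup Q] [Module (RR κ) Q]

variable [Module ℂ Q] [IsScalarTower ℂ (RR κ) Q] {ρ : Q →ₗ[ℂ] Q}

/-- EXL: exchange lemma -/
theorem exchange (hρ : IsScal κ ρ) {n : ℕ} (hg : WGen κ ρ n) {B : Submodule (RR κ) Q}
    (hB : Stab ρ B) {a b : RR κ} {e e' : ℕ} (ha : a.IsHomogeneous e) (hb : b.IsHomogeneous e')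
    (he' : 0 < e') (hra : Reg a B) (hrb : Reg b B) {w : ℕ} {s : Q} (hs : Hm ρ w s)
    (hsoc : IsSoc (B ⊔ mulTop Q a) s) :
    ∃ w' t, w' + e = w + e' ∧ Hm ρ w' t ∧ IsSoc (B ⊔ mulTop Q b) t := by
  have hb0 : constantCoeff b = 0 := by
    rw [constantCoeff_eq]
    apply hb.coeff_eq_zero
    simp
    omega
  have h1 : b • s ∈ B ⊔ mulTop Q a := GR3_const0 hsoc.2 hb0
  rcases mem_add hρ hg hB ha (hm_smul hρ hb hs) h1 with h | ⟨w', t, h2, -, h4, h5⟩
  · exact absurd (Submodule.mem_sup_left (hrb s h)) hsoc.1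
  · refine ⟨w', t, h2, h4, ?_, fun i => ?_⟩
    · intro ht
      obtain ⟨b₁, hb₁, t', rfl⟩ := MOV_mem.1 ht
      have h6 : b • (s - a • t') ∈ B := by
        have : b • (s - a • t') = (b • s - a • (b₁ + b • t')) + a • b₁ := by
          rw [smul_sub, smul_add, smul_comm a b t']; abel
        rw [this]
        exact B.add_mem h5 (B.smul_mem _ hb₁)
      have h7 := hrb _ h6
      apply hsoc.1
      rw [MOV_mem]
      exact ⟨_, h7, t', by abel⟩
    · obtain ⟨b₀, hb₀, u, hu⟩ := MOV_mem.1 (hsoc.2 i)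
      have h6 : a • ((X i : RR κ) • t - b • u) ∈ B := by
        have : a • ((X i : RR κ) • t - b • u) =
            b • b₀ - (X i : RR κ) • (b • s - a • t) := by
          have h7 : (X i : RR κ) • (b • s) = b • b₀ + a • (b • u) := by
            rw [smul_comm (X i : RR κ) b s, ← hu, smul_add, smul_comm b a u]
          rw [smul_sub, smul_sub, h7, smul_comm a (X i : RR κ) t]
          abel
        rw [this]
        exact B.sub_mem (B.smul_mem _ hb₀) (B.smul_mem _ h5)
      have h7 := hra _ h6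
      rw [MOV_mem]
      exact ⟨_, h7, u, by abel⟩

/-- EXS: exchange one entry of a regular sequence -/
theorem exchange_seq (hρ : IsScal κ ρ) {n : ℕ} (hg : WGen κ ρ n) {B₀ : Submodule (RR κ) Q}
    (hB : Stab ρ B₀) (c c' : ℕ → RR κ) (e e' : ℕ → ℕ) (hc : ∀ j, (c j).IsHomogeneous (e j))
    (hc' : ∀ j, (c' j).IsHomogeneous (e' j)) (he' : ∀ j, 0 < e' j) (i g : ℕ) (hi : i < g)
    (hcc : ∀ j, j ≠ i → c j = c' j)
    (hreg : ∀ j < g, Reg (c j) (Bm B₀ c j)) (hreg' : ∀ j < g, Reg (c' j) (Bm B₀ c' j))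
    {w : ℕ} {s : Q} (hs : Hm ρ w s) (hsoc : IsSoc (Bm B₀ c g) s) :
    ∃ w' t, w' + e i = w + e' i ∧ Hm ρ w' t ∧ IsSoc (Bm B₀ c' g) t := by
  have hupd : Function.update c i 0 = Function.update c' i 0 := by
    funext j
    by_cases h : j = i
    · subst h; simp
    · rw [Function.update_of_ne h, Function.update_of_ne h, hcc j h]
  have hst : Stab ρ (Bm B₀ (Function.update c i 0) g) := by
    apply stab_Bm hρ hB (e := e)
    intro j
    by_cases h : j = i
    · subst h
      rw [Function.update_self]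
      exact isHomogeneous_zero _ _ _
    · rw [Function.update_of_ne h]
      exact hc j
  obtain ⟨r1, r2⟩ := reg_move c i g hi hreg
  obtain ⟨r1', r2'⟩ := reg_move c' i g hi hreg'
  rw [← hupd] at r1' r2'
  rw [r2] at hsoc
  rw [r2']
  exact exchange hρ hg hst (hc i) (hc' i) (he' i) r1 r1' hs hsoc

end EX

end TI
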