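import Pool.Agent.Helper97.TI.Defs
import Pool.Agent.Helper97.TI.L_EX
import Pool.Agent.Helper97.TI.L_GOOD2
import Pool.Agent.Helper97.TI.L_GR2
import Pool.Agent.Helper97.TI.L_GR3

/-! Module SEQ (MP_17e24e_ag): regularity of mixed sequences. -/

set_option autoImplicit false
set_option linter.unusedSectionVars false
open MvPolynomial

namespace TI

section X
variable {κ : ℕ} {Q : Type} [AddCommGroup Q] [Module ℂ Q] [Module (RR κ) Q]
  [IsScalarTower ℂ (RR κ) Q] {ρ : Q →ₗ[ℂ] Q} [Module.Finite (RR κ) Q]

theorem SEQ_phi_hom {d : ℕ} {F : Fin κ → RR κ} (hF : NonDeg d F) {a : RR κ}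
    (ha : a.IsHomogeneous 1) : (phi F a).IsHomogeneous d := by
  have h := ha.aeval F (fun i => hF.hom i)
  rwa [mul_one] at h

theorem SEQ_mixed_hom {d : ℕ} {F : Fin κ → RR κ} (hF : NonDeg d F) {y : ℕ → RR κ}
    (hy : ∀ j, (y j).IsHomogeneous 1) (i j : ℕ) :
    (mixed y (fun t => phi F (y t)) i j).IsHomogeneous (if j < i then d else 1) := by
  unfold mixed
  by_cases h : j < i
  · simp only [h, if_true]
    exact SEQ_phi_hom hF (hy j)
  · simp only [h, if_false]
    exact hy j

theorem SEQ_mixed_zero (y z : ℕ → RR κ) : mixed y z 0 = y := by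
  funext j
  simp [mixed]

/-- SEQ -/
theorem mixed_reg (hρ : IsScal κ ρ) {n : ℕ} (hg : WGen κ ρ n) {B₀ : Submodule (RR κ) Q}
    (hB : Stab ρ B₀) {d : ℕ} {F : Fin κ → RR κ} (hF : NonDeg d F) {y : ℕ → RR κ}
    (hy : ∀ j, (y j).IsHomogeneous 1)
    (hgood : ∀ i j, ∀ 𝔮 ∈ associatedPrimes (RR κ)
      (Q ⧸ Bm B₀ (mixed y (fun t => phi F (y t)) i) j), 𝔮 ≠ mm κ → y j ∉ 𝔮 ∧ phi F (y j) ∉ 𝔮)
    (g : ℕ) (hns : ∀ j < g, ¬ ∃ s, IsSoc (Bm B₀ y j) s) (i : ℕ) :
    ∀ j < g, Reg (mixed y (fun t => phi F (y t)) i j) (Bm B₀ (mixed y (fun t => phi F (y t)) i) j) := by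
  induction g generalizing i with
  | zero => intro j hj; exact absurd hj (Nat.not_lt_zero j)
  | succ g ih =>
    have ih' := fun i => ih (fun j hj => hns j (Nat.lt_succ_of_lt hj)) i
    have hd : 0 < d := lt_trans Nat.zero_lt_one hF.hd
    -- no socle for the mixed sequences
    have hns' : ∀ i, i ≤ g → ¬ ∃ s, IsSoc (Bm B₀ (mixed y (fun t => phi F (y t)) i) g) s := by
      intro i
      induction i with
      | zero =>
        intro _
        rw [SEQ_mixed_zero]
        exact hns g (Nat.lt_succ_self g)
      | succ i ihi =>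
        intro hig hs
        obtain ⟨w, s, -, hw, hsoc⟩ := TI.soc_homog hρ hg
          (TI.stab_Bm hρ hB (fun j => SEQ_mixed_hom hF hy (i + 1) j) g) hs
        obtain ⟨w', t, -, -, ht⟩ := TI.exchange_seq hρ hg hB
          (mixed y (fun t => phi F (y t)) (i + 1)) (mixed y (fun t => phi F (y t)) i)
          (fun j => if j < i + 1 then d else 1) (fun j => if j < i then d else 1)
          (fun j => SEQ_mixed_hom hF hy (i + 1) j) (fun j => SEQ_mixed_hom hF hy i j)
          (fun j => by
            split_ifs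
            · exact hd
            · exact Nat.zero_lt_one)
          i g (by omega)
          (fun j hj => by
            unfold mixed
            by_cases h : j < i
            · simp [h, Nat.lt_succ_of_lt h]
            · have h' : ¬ j < i + 1 := by omega
              simp [h, h'])
          (ih' (i + 1)) (ih' i) hw hsoc
        exact ihi (by omega) ⟨t, ht⟩
    have hns'' : ¬ ∃ s, IsSoc (Bm B₀ (mixed y (fun t => phi F (y t)) i) g) s := by
      by_cases hi : i ≤ g
      · exact hns' i hi
      · have e : Bm B₀ (mixed y (fun t => phi F (y t)) i) g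
            = Bm B₀ (mixed y (fun t => phi F (y t)) g) g := by
          refine Bm_congr g fun j hj => ?_
          unfold mixed
          have h' : j < i := by omega
          simp [hj, h']
        rw [e]
        exact hns' g le_rfl
    intro j hj
    rcases Nat.lt_succ_iff_lt_or_eq.1 hj with h | h
    · exact ih' i j h
    · subst h
      refine TI.reg_of_good (fun 𝔮 h𝔮 hne => ?_) hns''
      have h1 := hgood i j 𝔮 h𝔮 hne
      unfold mixed
      by_cases h : j < i
      · simp only [h, if_true]
        exact h1.2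
      · simp only [h, if_false]
        exact h1.1

end X

end TI
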