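import Pool.Agent.Helper97.TI.Defs
import Pool.Agent.Helper97.TI.L_EX
import Pool.Agent.Helper97.TI.L_GR2
import Pool.Agent.Helper97.TI.L_GR3
import Pool.Agent.Helper97.TI.L_NUL

/-! Module X0 (MP_17e24e_ag): the socle bound. -/

set_option autoImplicit false
set_option linter.unusedSectionVars false
open MvPolynomial

namespace TI

section X
variable {κ : ℕ} {Q : Type} [AddCommGroup Q] [Module ℂ Q] [Module (RR κ) Q]
  [IsScalarTower ℂ (RR κ) Q] {ρ : Q →ₗ[ℂ] Q} [Module.Finite (RR κ) Q]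

theorem X0_mixed_hom {d : ℕ} {F : Fin κ → RR κ} (hF : NonDeg d F) {y : ℕ → RR κ}
    (hy : ∀ j, (y j).IsHomogeneous 1) (i j : ℕ) :
    (mixed y (fun t => phi F (y t)) i j).IsHomogeneous (if j < i then d else 1) := by
  unfold mixed
  by_cases h : j < i
  · simp only [h, if_true]
    have h1 := (hy j).aeval F (fun i => hF.hom i)
    rwa [mul_one] at h1
  · simp only [h, if_false]
    exact hy j

theorem X0_mixed_zero (y z : ℕ → RR κ) : mixed y z 0 = y := by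
  funext j
  simp [mixed]

theorem X0_Phi {d : ℕ} {F : Fin κ → RR κ} {B₀ : Submodule (RR κ) Q} {Φ T : Q →+ Q}
    (hFT : FT d F ρ B₀ Φ T) (y : ℕ → RR κ) (g : ℕ) (m : Q) (hm : m ∈ Bm B₀ y g) :
    Φ m ∈ Bm B₀ (fun t => phi F (y t)) g := by
  induction g generalizing m with
  | zero => exact hFT.Φ_B m hm
  | succ g ih =>
    rw [Bm_succ] at hm ⊢
    obtain ⟨b, hb, c, hc, rfl⟩ := Submodule.mem_sup.1 hm
    obtain ⟨q, rfl⟩ := mem_mulTop.1 hc
    rw [map_add, hFT.Φ_smul]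
    exact Submodule.add_mem_sup (ih b hb) (mem_mulTop.2 ⟨Φ q, rfl⟩)

theorem X0_T {d : ℕ} {F : Fin κ → RR κ} {B₀ : Submodule (RR κ) Q} {Φ T : Q →+ Q}
    (hFT : FT d F ρ B₀ Φ T) (y : ℕ → RR κ) (g : ℕ) (m : Q)
    (hm : m ∈ Bm B₀ (fun t => phi F (y t)) g) : T m ∈ Bm B₀ y g := by
  induction g generalizing m with
  | zero => exact hFT.T_B m hm
  | succ g ih =>
    rw [Bm_succ] at hm ⊢
    obtain ⟨b, hb, c, hc, rfl⟩ := Submodule.mem_sup.1 hm
    obtain ⟨q, rfl⟩ := mem_mulTop.1 hc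
    rw [map_add, hFT.T_smul]
    exact Submodule.add_mem_sup (ih b hb) (mem_mulTop.2 ⟨T q, rfl⟩)

/-- from `z` back to `y` -/
theorem X0_back (hρ : IsScal κ ρ) {n : ℕ} (hg : WGen κ ρ n) {B₀ : Submodule (RR κ) Q}
    (hB : Stab ρ B₀) {d : ℕ} {F : Fin κ → RR κ} (hF : NonDeg d F) {y : ℕ → RR κ}
    (hy : ∀ j, (y j).IsHomogeneous 1) (g : ℕ)
    (hreg : ∀ i, ∀ j < g, Reg (mixed y (fun t => phi F (y t)) i j)
      (Bm B₀ (mixed y (fun t => phi F (y t)) i) j)) (i : ℕ) (hi : i ≤ g) {w : ℕ} {s : Q}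
    (hs : Hm ρ w s) (hsoc : IsSoc (Bm B₀ (mixed y (fun t => phi F (y t)) i) g) s) :
    ∃ w' t, w' + i * d = w + i ∧ Hm ρ w' t ∧ IsSoc (Bm B₀ y g) t := by
  induction i generalizing w s with
  | zero =>
    rw [X0_mixed_zero] at hsoc
    exact ⟨w, s, by simp, hs, hsoc⟩
  | succ i ih =>
    have hd : 0 < d := lt_trans Nat.zero_lt_one hF.hd
    obtain ⟨w₁, t, hw₁, ht, hst⟩ := TI.exchange_seq hρ hg hB
      (mixed y (fun t => phi F (y t)) (i + 1)) (mixed y (fun t => phi F (y t)) i)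
      (fun j => if j < i + 1 then d else 1) (fun j => if j < i then d else 1)
      (fun j => X0_mixed_hom hF hy (i + 1) j) (fun j => X0_mixed_hom hF hy i j)
      (fun j => by
        split_ifs
        · exact hd
        · exact Nat.zero_lt_one)
      i g (by omega)
      (fun j hj => by
        unfold mixed
        by_cases h : j < i
        · simp [h, Nat.lt_succ_of_lt h]
        · have h' : ¬ j < i + 1 := by omega
          simp [h, h'])
      (hreg (i + 1)) (hreg i) hs hsoc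
    simp only [Nat.lt_succ_self, if_true, lt_irrefl, if_false] at hw₁
    obtain ⟨w', t', hw', ht', hst'⟩ := ih (by omega) ht hst
    refine ⟨w', t', ?_, ht', hst'⟩
    rw [Nat.succ_mul]
    omega

/-- X0 -/
theorem socle_bound (hρ : IsScal κ ρ) {n : ℕ} (hg : WGen κ ρ n) {B₀ : Submodule (RR κ) Q}
    (hB : Stab ρ B₀) {d : ℕ} {F : Fin κ → RR κ} (hF : NonDeg d F) {Φ T : Q →+ Q}
    (hFT : FT d F ρ B₀ Φ T) {y : ℕ → RR κ} (hy : ∀ j, (y j).IsHomogeneous 1) (g : ℕ)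
    (hreg : ∀ i, ∀ j < g, Reg (mixed y (fun t => phi F (y t)) i j)
      (Bm B₀ (mixed y (fun t => phi F (y t)) i) j))
    {w : ℕ} {s : Q} (hs : Hm ρ w s) (hsoc : IsSoc (Bm B₀ y g) s) : w ≤ g := by
  have hd := hF.hd
  have hBy : Stab ρ (Bm B₀ y g) := TI.stab_Bm hρ hB hy g
  have hzg : Bm B₀ (fun t => phi F (y t)) g = Bm B₀ (mixed y (fun t => phi F (y t)) g) g := by
    refine Bm_congr g fun j hj => ?_
    unfold mixed
    simp [hj]
  -- the claim
  have claim : ∀ w s, g < w → Hm ρ w s → IsSoc (Bm B₀ y g) s →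
      ∃ w' s', w < w' ∧ Hm ρ w' s' ∧ IsSoc (Bm B₀ y g) s' := by
    intro w s hw hs hsoc
    have hnot : Φ s ∉ Bm B₀ (fun t => phi F (y t)) g := by
      intro hmem
      obtain ⟨c, hc, hTΦ⟩ := hFT.TΦ
      have h1 := X0_T hFT y g _ hmem
      rw [hTΦ] at h1
      have h2 : c⁻¹ • (c • s) ∈ Bm B₀ y g := Submodule.smul_of_tower_mem _ _ h1
      rw [smul_smul, inv_mul_cancel₀ hc, one_smul] at h2
      exact hsoc.1 h2
    have hspan : ∀ p ∈ Ideal.span (Set.range F), p • Φ s ∈ Bm B₀ (fun t => phi F (y t)) g := by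
      intro p hp
      induction hp using Submodule.span_induction with
      | mem x hx =>
        obtain ⟨i, rfl⟩ := hx
        have h1 : F i • Φ s = Φ ((X i : RR κ) • s) := by
          rw [hFT.Φ_smul, phi, aeval_X]
        rw [h1]
        exact X0_Phi hFT y g _ (hsoc.2 i)
      | zero => rw [zero_smul]; exact Submodule.zero_mem _
      | add a b _ _ ha hb => rw [add_smul]; exact Submodule.add_mem _ ha hb
      | smul a b _ hb => rw [smul_eq_mul, mul_smul]; exact Submodule.smul_mem _ _ hb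
    obtain ⟨L, hL⟩ := TI.mm_pow_le hF
    obtain ⟨w₁, t, hw₁, ht, hst⟩ := TI.soc_of_pow hρ (hFT.Φ_w w s hs) hnot
      ⟨L, fun p hp => hspan p (hL hp)⟩
    rw [hzg] at hst
    obtain ⟨w', t', hw', ht', hst'⟩ := X0_back hρ hg hB hF hy g hreg g le_rfl ht hst
    refine ⟨w', t', ?_, ht', hst'⟩
    -- w' = w₁ + g - g d, w₁ ≥ d w
    obtain ⟨k, rfl⟩ := Nat.exists_eq_add_of_lt hw
    obtain ⟨e, rfl⟩ := Nat.exists_eq_add_of_lt hd
    nlinarith
  by_contra hcon
  push Not at hcon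
  obtain ⟨W, hW⟩ := TI.soc_bdd hρ hBy
  have iter : ∀ N : ℕ, ∃ w' s', w + N ≤ w' ∧ Hm ρ w' s' ∧ IsSoc (Bm B₀ y g) s' := by
    intro N
    induction N with
    | zero => exact ⟨w, s, by simp, hs, hsoc⟩
    | succ N ih =>
      obtain ⟨w₁, s₁, h1, h2, h3⟩ := ih
      obtain ⟨w₂, s₂, h4, h5, h6⟩ := claim w₁ s₁ (by omega) h2 h3
      exact ⟨w₂, s₂, by omega, h5, h6⟩
  obtain ⟨w', s', h1, h2, h3⟩ := iter (W + 1)
  have := hW w' s' h2 h3
  omega

end X

end TI
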