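import Pool.Agent.Helper97.TI.Defs
import Pool.Agent.Helper97.TI.L_GOOD1
import Pool.Agent.Helper97.TI.L_GOOD3
import Pool.Agent.Helper97.TI.L_GR1
import Pool.Agent.Helper97.TI.L_GR2
import Pool.Agent.Helper97.TI.L_GR3
import Pool.Agent.Helper97.TI.L_SEQ
import Pool.Agent.Helper97.TI.L_X0

/-! Module XAB (MP_17e24e_ag): the main graded theorem. -/

set_option autoImplicit false
set_option linter.unusedSectionVars false
open MvPolynomial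

namespace TI

section X
variable {κ : ℕ} {Q : Type} [AddCommGroup Q] [Module ℂ Q] [Module (RR κ) Q]
  [IsScalarTower ℂ (RR κ) Q] {ρ : Q →ₗ[ℂ] Q} [Module.Finite (RR κ) Q]

theorem XAB_mixed_hom {d : ℕ} {F : Fin κ → RR κ} (hF : NonDeg d F) {y : ℕ → RR κ}
    (hy : ∀ j, (y j).IsHomogeneous 1) (i j : ℕ) :
    (mixed y (fun t => phi F (y t)) i j).IsHomogeneous (if j < i then d else 1) := by
  unfold mixed
  by_cases h : j < i
  · simp only [h, if_true]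
    have h1 := (hy j).aeval F (fun i => hF.hom i)
    rwa [mul_one] at h1
  · simp only [h, if_false]
    exact hy j

theorem XAB_mixed_zero (y z : ℕ → RR κ) : mixed y z 0 = y := by
  funext j
  simp [mixed]

theorem XAB_mixed_pos {d : ℕ} {F : Fin κ → RR κ} (hF : NonDeg d F) (i j : ℕ) :
    0 < (if j < i then d else 1) := by
  split_ifs
  · exact lt_trans Nat.zero_lt_one hF.hd
  · exact Nat.zero_lt_one

/-- a homogeneous element outside a proper stable submodule -/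
theorem XAB_exists_hom (hρ : IsScal κ ρ) {n : ℕ} (hg : WGen κ ρ n) {B : Submodule (RR κ) Q}
    (hB : B ≠ ⊤) : ∃ w m, n ≤ w ∧ Hm ρ w m ∧ m ∉ B := by
  by_contra hcon
  push Not at hcon
  apply hB
  rw [eq_top_iff]
  intro m _
  obtain ⟨f, hf, hfn, rfl⟩ := TI.decomp hρ hg m
  refine Submodule.sum_mem _ fun w _ => ?_
  by_cases hw : n ≤ w
  · exact hcon w (f w) hw (hf w)
  · have : f w = 0 := hfn w (by omega)
    rw [this]
    exact Submodule.zero_mem _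

/-- the common part: a socle element appears exactly at an index `g ≥ n` -/
theorem XAB_key (hρ : IsScal κ ρ) {n : ℕ} (hg : WGen κ ρ n) {B₀ : Submodule (RR κ) Q}
    (hB : Stab ρ B₀) {d : ℕ} {F : Fin κ → RR κ} (hF : NonDeg d F) {Φ T : Q →+ Q}
    (hFT : FT d F ρ B₀ Φ T) (hne : B₀ ≠ ⊤) {y : ℕ → RR κ} (hy : ∀ j, (y j).IsHomogeneous 1)
    (hgood : ∀ i j, ∀ 𝔮 ∈ associatedPrimes (RR κ)
      (Q ⧸ Bm B₀ (mixed y (fun t => phi F (y t)) i) j), 𝔮 ≠ mm κ → y j ∉ 𝔮 ∧ phi F (y j) ∉ 𝔮)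
    (r : ℕ) (hdim : DimLe B₀ r) :
    ∃ g, n ≤ g ∧ g ≤ r ∧ ∀ j < g, ¬ ∃ s, IsSoc (Bm B₀ y j) s := by
  classical
  have hex : ∃ L : ℕ, ∀ p ∈ mm κ ^ L, ∀ m : Q, p • m ∈ Bm B₀ y r := by
    refine TI.pow_of_dim hρ hg hB y (fun _ => 1) hy (fun _ => Nat.zero_lt_one)
      (fun j 𝔮 h𝔮 h𝔮n => ?_) r hdim
    refine (hgood 0 j 𝔮 ?_ h𝔮n).1
    rw [XAB_mixed_zero]
    exact h𝔮
  have hBr : Bm B₀ y r ≠ ⊤ := fun h =>
    hne (TI.nakayama hρ hg hB hy (fun _ => Nat.zero_lt_one) r h)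
  obtain ⟨w, m, -, hm, hmB⟩ := XAB_exists_hom hρ hg hBr
  obtain ⟨L, hL⟩ := hex
  obtain ⟨w', s, -, -, hs⟩ := TI.soc_of_pow hρ hm hmB ⟨L, fun p hp => hL p hp m⟩
  have hfind : ∃ j, ∃ s, IsSoc (Bm B₀ y j) s := ⟨r, s, hs⟩
  refine ⟨Nat.find hfind, ?_, Nat.find_min' hfind ⟨s, hs⟩, fun j hj => Nat.find_min hfind hj⟩
  set g := Nat.find hfind with hgd
  have hns : ∀ j < g, ¬ ∃ s, IsSoc (Bm B₀ y j) s := fun j hj => Nat.find_min hfind hj
  have hreg := TI.mixed_reg hρ hg hB hF hy hgood g hns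
  obtain ⟨w₁, s₁, hn, hw₁, hs₁⟩ := TI.soc_homog hρ hg (TI.stab_Bm hρ hB hy g)
    (Nat.find_spec hfind)
  exact hn.trans (TI.socle_bound hρ hg hB hF hFT hy g hreg hw₁ hs₁)

/-- Xa -/
theorem X_a (hρ : IsScal κ ρ) {n : ℕ} (hg : WGen κ ρ n) {B₀ : Submodule (RR κ) Q}
    (hB : Stab ρ B₀) {d : ℕ} {F : Fin κ → RR κ} (hF : NonDeg d F) {Φ T : Q →+ Q}
    (hFT : FT d F ρ B₀ Φ T) (hn : 0 < n) (hdim : DimLe B₀ (n - 1)) : B₀ = ⊤ := by
  by_contra hne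
  obtain ⟨y, hy, hgood⟩ := TI.exists_good (Q := Q) hF B₀
  obtain ⟨g, h1, h2, -⟩ := XAB_key hρ hg hB hF hFT hne hy hgood (n - 1) hdim
  omega

/-- Xb -/
theorem X_b (hρ : IsScal κ ρ) {n : ℕ} (hg : WGen κ ρ n) {d : ℕ} {F : Fin κ → RR κ}
    (hF : NonDeg d F) {Φ T : Q →+ Q} (hFT : FT d F ρ (⊥ : Submodule (RR κ) Q) Φ T)
    (hne : Nontrivial Q) (hdim : DimLe (⊥ : Submodule (RR κ) Q) n) :
    ∃ y : ℕ → RR κ, (∀ j, (y j).IsHomogeneous 1) ∧
      (∀ i, ∀ j < n, Reg (mixed y (fun t => phi F (y t)) i j)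
        (Bm (⊥ : Submodule (RR κ) Q) (mixed y (fun t => phi F (y t)) i) j)) ∧
      (∀ i, ∃ L : ℕ, ∀ p ∈ mm κ ^ L, ∀ m : Q,
        p • m ∈ Bm (⊥ : Submodule (RR κ) Q) (mixed y (fun t => phi F (y t)) i) n) ∧
      (∀ w m, n < w → Hm ρ w m → m ∈ Bm (⊥ : Submodule (RR κ) Q) y n) := by
  have hbot : (⊥ : Submodule (RR κ) Q) ≠ ⊤ := by
    intro h
    obtain ⟨a, ha⟩ := exists_ne (0 : Q)
    apply ha
    have : a ∈ (⊥ : Submodule (RR κ) Q) := by rw [h]; exact Submodule.mem_top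
    exact (Submodule.mem_bot _).1 this
  have hB : Stab ρ (⊥ : Submodule (RR κ) Q) := by
    intro m hm
    rw [(Submodule.mem_bot _).1 hm, map_zero]
    exact Submodule.zero_mem _
  obtain ⟨y, hy, hgood⟩ := TI.exists_good (Q := Q) hF (⊥ : Submodule (RR κ) Q)
  obtain ⟨g, h1, h2, hns⟩ := XAB_key hρ hg hB hF hFT hbot hy hgood n hdim
  have hgn : g = n := le_antisymm h2 h1
  subst hgn
  have hreg := TI.mixed_reg hρ hg hB hF hy hgood g hns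
  have hpow : ∀ i, ∃ L : ℕ, ∀ p ∈ mm κ ^ L, ∀ m : Q,
      p • m ∈ Bm (⊥ : Submodule (RR κ) Q) (mixed y (fun t => phi F (y t)) i) g := by
    intro i
    refine TI.pow_of_dim hρ hg hB (mixed y (fun t => phi F (y t)) i)
      (fun j => if j < i then d else 1) (XAB_mixed_hom hF hy i) (XAB_mixed_pos hF i)
      (fun j 𝔮 h𝔮 h𝔮n => ?_) g hdim
    have h3 := hgood i j 𝔮 h𝔮 h𝔮n
    unfold mixed
    by_cases h : j < i
    · simp only [h, if_true]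
      exact h3.2
    · simp only [h, if_false]
      exact h3.1
  refine ⟨y, hy, hreg, hpow, fun w m hw hm => ?_⟩
  by_contra hmB
  obtain ⟨L, hL⟩ := hpow 0
  rw [XAB_mixed_zero] at hL
  obtain ⟨w', s, hw', hs, hsoc⟩ := TI.soc_of_pow hρ hm hmB ⟨L, fun p hp => hL p hp m⟩
  have := TI.socle_bound hρ hg hB hF hFT hy g hreg hs hsoc
  omega

end X

end TI
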