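import Pool.Agent.Helper97.TI.Defs
import Pool.Agent.Helper97.TI.L_DIM
import Pool.Agent.Helper97.TI.L_FRB
import Pool.Agent.Helper97.TI.L_FRG
import Pool.Agent.Helper97.TI.L_FRI
import Pool.Agent.Helper97.TI.L_GR1
import Pool.Agent.Helper97.TI.L_GR2
import Pool.Agent.Helper97.TI.L_INT
import Pool.Agent.Helper97.TI.L_K2
import Pool.Agent.Helper97.TI.L_K3
import Pool.Agent.Helper97.TI.L_K4
import Pool.Agent.Helper97.TI.L_K4f
import Pool.Agent.Helper97.TI.L_XAB

set_option autoImplicit false
set_option linter.unusedSectionVars false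
open MvPolynomial

noncomputable section

namespace TI

section P4a
variable {κ d n : ℕ} {K : Type} [Field K] [Algebra ℂ K] [Algebra (RR κ) K]
  [IsScalarTower ℂ (RR κ) K]

/-- the substitution `X i ↦ 2 X i` -/
def P4a_σ (κ : ℕ) : RR κ →ₐ[ℂ] RR κ := aeval (fun i => (2:ℂ) • (X i : RR κ))

theorem P4a_ρ_alg (S : Sys κ d n K) (a : RR κ) :
    S.ρ (algebraMap (RR κ) K a) = algebraMap (RR κ) K (P4a_σ κ a) := by
  have h : S.ρ.comp (IsScalarTower.toAlgHom ℂ (RR κ) K) =
      (IsScalarTower.toAlgHom ℂ (RR κ) K).comp (P4a_σ κ) := by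
    apply MvPolynomial.algHom_ext
    intro i
    have h1 := S.hρ i
    unfold xb at h1
    simp only [AlgHom.comp_apply, IsScalarTower.coe_toAlgHom', P4a_σ, aeval_X]
    rw [h1, ← IsScalarTower.coe_toAlgHom' ℂ (RR κ) K, map_smul]
  have := DFunLike.congr_fun h a
  simpa using this

theorem P4a_rM_apply (S : Sys κ d n K) (m : K) : S.rM m = (2:ℂ) ^ n • S.ρ m := rfl

theorem P4a_rM_smul (S : Sys κ d n K) (a : RR κ) (m : K) :
    S.rM (a • m) = P4a_σ κ a • S.rM m := by
  rw [P4a_rM_apply, P4a_rM_apply, Algebra.smul_def a, map_mul, P4a_ρ_alg,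
    Algebra.smul_def (P4a_σ κ a), mul_smul_comm]

theorem P4a_Dx_mem (S : Sys κ d n K) (l' : Fin n → Fin κ) : S.Dx l' ∈ S.M :=
  Submodule.subset_span ⟨l', rfl⟩

theorem P4a_V_le (S : Sys κ d n K) {m : K} (hm : m ∈ S.V) : m ∈ S.M := by
  have : S.V ≤ (S.M).restrictScalars ℂ := by
    unfold Sys.V
    rw [Submodule.span_le]
    rintro _ ⟨l', rfl⟩
    exact P4a_Dx_mem S l'
  exact this hm

theorem P4a_rM_V (S : Sys κ d n K) {m : K} (hm : m ∈ S.V) : S.rM m = (2:ℂ) ^ n • m := by
  have h : ∀ m ∈ S.V, S.ρ m = m := by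
    intro m hm
    induction hm using Submodule.span_induction with
    | mem x hx =>
      obtain ⟨l', rfl⟩ := hx
      exact TI.ρ_Dx S l'
    | zero => exact map_zero _
    | add x y _ _ hx hy => rw [map_add, hx, hy]
    | smul c x _ hx => rw [map_smul, hx]
  rw [P4a_rM_apply, h m hm]

theorem P4a_rM_mem (S : Sys κ d n K) {m : K} (hm : m ∈ S.M) : S.rM m ∈ S.M := by
  induction hm using Submodule.span_induction with
  | mem x hx =>
    obtain ⟨l', rfl⟩ := hx
    rw [P4a_rM_V S (Submodule.subset_span ⟨l', rfl⟩)]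
    exact Submodule.smul_of_tower_mem _ _ (P4a_Dx_mem S l')
  | zero => rw [map_zero]; exact Submodule.zero_mem _
  | add x y _ _ hx hy => rw [map_add]; exact Submodule.add_mem _ hx hy
  | smul c x _ hx => rw [P4a_rM_smul]; exact Submodule.smul_mem _ _ hx

/-- the scaling operator on `M` -/
def P4a_ρ (S : Sys κ d n K) : S.M →ₗ[ℂ] S.M where
  toFun m := ⟨S.rM m, P4a_rM_mem S m.2⟩
  map_add' x y := by
    apply Subtype.ext
    simp
  map_smul' c x := by
    apply Subtype.ext
    simp

theorem P4a_Dx_l (S : Sys κ d n K) : S.Dx S.l = 1 := by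
  unfold Sys.Dx Dl
  have : (Matrix.of fun k j => S.der k (xb κ K (S.l j))) = (1 : Matrix (Fin n) (Fin n) K) := by
    ext k j
    rw [Matrix.of_apply, S.der_x, Matrix.one_apply]
  rw [this, Matrix.det_one]

theorem P4a_one_mem (S : Sys κ d n K) : (1 : K) ∈ S.M := by
  rw [← P4a_Dx_l S]
  exact P4a_Dx_mem S S.l

theorem P4a_scal (S : Sys κ d n K) : IsScal κ (P4a_ρ S) := by
  intro i m
  apply Subtype.ext
  exact TI.rM_scal S i m

theorem P4a_hm_iff (S : Sys κ d n K) (w : ℕ) (m : S.M) : Hm (P4a_ρ S) w m ↔ Hm S.rM w (m : K) := by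
  unfold Hm
  rw [Subtype.ext_iff]
  rfl

theorem P4a_wgen (S : Sys κ d n K) : WGen κ (P4a_ρ S) n := by
  unfold WGen
  rw [eq_top_iff]
  have h := Submodule.span_span_coe_preimage (R := RR κ) (s := Set.range S.Dx)
  have h' : Submodule.span (RR κ) ((fun m : S.M => (m : K)) ⁻¹' (Set.range S.Dx)) = ⊤ := h
  rw [← h']
  apply Submodule.span_mono
  rintro m ⟨l', hl'⟩
  refine ⟨n, le_rfl, ?_⟩
  rw [P4a_hm_iff]
  have h2 : (m : K) ∈ S.V := Submodule.subset_span ⟨l', hl'⟩
  exact P4a_rM_V S h2

instance P4a_finite (S : Sys κ d n K) : Module.Finite (RR κ) S.M :=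
  Module.Finite.span_of_finite _ (Set.finite_range _)

/-- restriction of the pull back to `M` -/
def P4a_Φ (S : Sys κ d n K) : S.M →+ S.M :=
  AddMonoidHom.mk' (fun m => ⟨S.Φ m, TI.Φ_mem S m.2⟩) (fun a b => by
    apply Subtype.ext
    simp)

/-- restriction of the trace to `M` -/
def P4a_T (S : Sys κ d n K) (hT : ∀ m ∈ S.M, S.T m ∈ S.M) : S.M →+ S.M :=
  AddMonoidHom.mk' (fun m => ⟨S.T m, hT m m.2⟩) (fun a b => by
    apply Subtype.ext
    simp)

theorem P4a_FT (S : Sys κ d n K) (hT : ∀ m ∈ S.M, S.T m ∈ S.M) :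
    FT d S.F (P4a_ρ S) (⊥ : Submodule (RR κ) S.M) (P4a_Φ S) (P4a_T S hT) where
  Φ_smul a m := by
    apply Subtype.ext
    exact TI.Φ_smul S a m
  Φ_w w m hm := by
    rw [P4a_hm_iff] at hm ⊢
    exact TI.Φ_w S w m hm
  T_smul a m := by
    apply Subtype.ext
    exact TI.T_smul S a m
  TΦ := by
    obtain ⟨c, hc, h⟩ := TI.TΦ S
    refine ⟨c, hc, fun m => ?_⟩
    apply Subtype.ext
    exact h m
  Φ_B m hm := by
    rw [Submodule.mem_bot] at hm ⊢
    rw [hm, map_zero]
  T_B m hm := by
    rw [Submodule.mem_bot] at hm ⊢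
    rw [hm, map_zero]

theorem P4a_dim (S : Sys κ d n K) : DimLe (⊥ : Submodule (RR κ) S.M) n := by
  intro l hl
  refine TI.chain_le S.frac (fun j => xb κ K (S.l j)) S.trb l ?_
  intro a ha
  apply hl
  intro m
  rw [Submodule.mem_bot]
  apply Subtype.ext
  rw [RingHom.mem_ker] at ha
  show a • (m : K) = 0
  rw [Algebra.smul_def, ha, zero_mul]

/-- P4a: good coordinates for `M` -/
theorem exists_coord (S : Sys κ d n K) (hT : ∀ m ∈ S.M, S.T m ∈ S.M) :
    ∃ y : Fin n → RR κ, (∀ j, (y j).IsHomogeneous 1) ∧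
      -- all mixed sequences are systems of parameters
      (∀ i : ℕ, ∀ a : RR κ, IsIntegral (Algebra.adjoin ℂ (Set.range
        (im K fun j : Fin n => if (j : ℕ) < i then phi S.F (y j) else y j)))
        (algebraMap (RR κ) K a)) ∧
      -- `M` is free over `ℂ[y]` on a basis of `V`
      ∃ (δ : ℕ) (v : Fin δ → K), (∀ i, v i ∈ S.V) ∧ (∀ w ∈ S.V, ∃ a : Fin δ → ℂ, w = ∑ i, a i • v i) ∧
        (∀ m ∈ S.M, ∃ P : Fin δ → MvPolynomial (Fin n) ℂ,
          m = ∑ i, algebraMap (RR κ) K (aeval y (P i)) * v i) ∧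
        (∀ P : Fin δ → MvPolynomial (Fin n) ℂ,
          ∑ i, algebraMap (RR κ) K (aeval y (P i)) * v i = 0 → P = 0) := by
  have hne : Nontrivial S.M := by
    refine ⟨⟨⟨1, P4a_one_mem S⟩, 0, ?_⟩⟩
    intro h
    exact one_ne_zero (congrArg Subtype.val h)
  obtain ⟨y, hy1, hreg, hL, hbig⟩ := TI.X_b (P4a_scal S) (P4a_wgen S) S.hF (P4a_FT S hT) hne
    (P4a_dim S)
  refine ⟨fun j => y j, fun j => hy1 j, ?_, ?_⟩
  · intro i a
    set c : ℕ → RR κ := mixed y (fun t => phi S.F (y t)) i with hc
    have hphi : ∀ t, (phi S.F (y t)).IsHomogeneous d := by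
      intro t
      have := (hy1 t).aeval S.F S.hF.hom
      rwa [mul_one] at this
    have hch : ∀ j, (c j).IsHomogeneous (if j < i then d else 1) := by
      intro j
      rw [hc]
      unfold mixed
      split_ifs
      · exact hphi j
      · exact hy1 j
    have hce : ∀ j, 0 < (if j < i then d else 1) := by
      intro j
      have := S.hF.hd
      split_ifs <;> omega
    have hst : Stab (P4a_ρ S) (⊥ : Submodule (RR κ) S.M) := by
      intro m hm
      rw [Submodule.mem_bot] at hm ⊢
      rw [hm, map_zero]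
    obtain ⟨N, h, wt, hh, hspan, -⟩ := TI.exists_basis_mod (P4a_scal S) (P4a_wgen S)
      (TI.stab_Bm (P4a_scal S) hst hch n) (hL i)
    have hgen := TI.free_gen (P4a_scal S) (P4a_wgen S) n c _ hch hce h wt hh hspan
    refine TI.int_of_gen (K := K) (fun j : Fin n => if (j : ℕ) < i then phi S.F (y j) else y j)
      S.M (fun t => (h t : K)) (fun t => (h t).2) ?_ ?_ a
    · intro hbot
      have h1 := P4a_one_mem S
      rw [hbot, Submodule.mem_bot] at h1
      exact one_ne_zero h1
    · intro m hm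
      obtain ⟨P, hP⟩ := hgen ⟨m, hm⟩
      refine ⟨P, ?_⟩
      have h2 := congrArg (fun q : S.M => (q : K)) hP
      simp only [Submodule.coe_sum, Submodule.coe_smul, Algebra.smul_def] at h2
      exact h2
  · have hVfin : FiniteDimensional ℂ S.V := FiniteDimensional.span_of_finite ℂ (Set.finite_range _)
    let bV := Module.finBasis ℂ S.V
    have hVrep : ∀ w (hw : w ∈ S.V), w = ∑ i, bV.repr ⟨w, hw⟩ i • (bV i : K) := by
      intro w hw
      have h1 := bV.sum_repr ⟨w, hw⟩
      have h2 := congrArg (fun q : S.V => (q : K)) h1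
      simp only [Submodule.coe_sum, Submodule.coe_smul] at h2
      exact h2.symm
    -- the basis as elements of `M`
    let v : Fin (Module.finrank ℂ S.V) → S.M := fun i => ⟨bV i, P4a_V_le S (bV i).2⟩
    have hCsmul : ∀ (z : ℂ) (x : K), (C z : RR κ) • x = z • x := by
      intro z x
      rw [← MvPolynomial.algebraMap_eq, algebraMap_smul]
    have hvw : ∀ i, Hm (P4a_ρ S) n (v i) := by
      intro i
      rw [P4a_hm_iff]
      exact P4a_rM_V S (bV i).2
    have hmix : ∀ j, mixed y (fun t => phi S.F (y t)) 0 j = y j := by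
      intro j
      unfold mixed
      rw [if_neg (Nat.not_lt_zero j)]
    refine ⟨Module.finrank ℂ S.V, fun i => (bV i : K), fun i => (bV i).2, ?_, ?_, ?_⟩
    · intro w hw
      exact ⟨fun i => bV.repr ⟨w, hw⟩ i, hVrep w hw⟩
    · intro m hm
      have hspan : ∀ m : S.M, ∃ a : Fin (Module.finrank ℂ S.V) → ℂ,
          m - ∑ i, (C (a i) : RR κ) • v i ∈ Bm (⊥ : Submodule (RR κ) S.M) y n := by
        intro m
        obtain ⟨f, hf, hf0, hm⟩ := TI.decomp (P4a_scal S) (P4a_wgen S) m
        have hfn : (f n : K) ∈ S.V := by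
          refine TI.mem_V S (f n).2 ?_
          have h1 := hf n
          rw [P4a_hm_iff] at h1
          unfold Hm at h1
          rw [P4a_rM_apply] at h1
          have h2 : ((2:ℂ) ^ n) ≠ 0 := pow_ne_zero _ two_ne_zero
          exact smul_right_injective K h2 h1
        refine ⟨fun i => bV.repr ⟨(f n : K), hfn⟩ i, ?_⟩
        have h3 : ∑ i, (C (bV.repr ⟨(f n : K), hfn⟩ i) : RR κ) • v i = f n := by
          apply Subtype.ext
          refine Eq.trans ?_ (hVrep (f n : K) hfn).symm
          simp only [Submodule.coe_sum, Submodule.coe_smul]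
          exact Finset.sum_congr rfl fun i _ => hCsmul _ _
        rw [h3, hm]
        have h4 : (f.sum fun _ v => v) - f n = ∑ w ∈ f.support.erase n, f w := by
          by_cases hn : n ∈ f.support
          · rw [Finsupp.sum, ← Finset.add_sum_erase _ _ hn]
            abel
          · rw [Finset.erase_eq_of_notMem hn, Finsupp.notMem_support_iff.1 hn, sub_zero]
            rfl
        rw [h4]
        refine Submodule.sum_mem _ fun w hw => ?_
        rw [Finset.mem_erase, Finsupp.mem_support_iff] at hw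
        have h5 : n < w := by
          by_contra hcon
          have : w < n := lt_of_le_of_ne (not_lt.1 hcon) hw.1
          exact hw.2 (hf0 w this)
        exact hbig w (f w) h5 (hf w)
      obtain ⟨P, hP⟩ := TI.free_gen (P4a_scal S) (P4a_wgen S) n y (fun _ => 1) hy1
        (fun _ => one_pos) v (fun _ => n) hvw hspan ⟨m, hm⟩
      refine ⟨P, ?_⟩
      have h2 := congrArg (fun q : S.M => (q : K)) hP
      simp only [Submodule.coe_sum, Submodule.coe_smul, Algebra.smul_def] at h2
      exact h2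
    · intro P hP
      refine TI.free_ind n (⊥ : Submodule (RR κ) S.M) y ?_ v ?_ P ?_
      · intro j hj
        have h1 := hreg 0 j hj
        rw [hmix j, Bm_congr (c' := y) j (fun t _ => hmix t)] at h1
        exact h1
      · intro a ha
        have h0 : (∑ i, (C (a i) : RR κ) • v i) = 0 := by
          refine TI.low_weight (P4a_scal S) (P4a_wgen S) (e := fun _ => 1) hy1
            (fun _ => one_pos) n (le_refl n) ?_ ha
          unfold Hm
          rw [map_sum, Finset.smul_sum]
          refine Finset.sum_congr rfl fun i _ => ?_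
          have h1 : (C (a i) : RR κ) • v i = a i • v i := by
            apply Subtype.ext
            exact hCsmul _ _
          have h2 : P4a_ρ S (v i) = (2:ℂ) ^ n • v i := hvw i
          rw [h1, map_smul, h2, smul_comm]
        have h1 := congrArg (fun q : S.M => (q : K)) h0
        simp only [Submodule.coe_sum, Submodule.coe_smul, hCsmul, Submodule.coe_zero] at h1
        have h2 : ∑ i, a i • bV i = 0 := by
          apply Subtype.ext
          simpa using h1
        funext i
        exact (Fintype.linearIndependent_iff.1 bV.linearIndependent) a h2 i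
      · rw [Submodule.mem_bot]
        apply Subtype.ext
        simp only [Submodule.coe_sum, Submodule.coe_smul, Algebra.smul_def]
        exact hP

end P4a

end TI
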