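import Pool.Agent.Helper97.TI.Defs
import Pool.Agent.Helper97.TI.L_GR1
import Pool.Agent.Helper97.TI.L_K1
import Pool.Agent.Helper97.TI.L_K3
import Pool.Agent.Helper97.TI.L_K4
import Pool.Agent.Helper97.TI.L_K7
import Pool.Agent.Helper97.TI.L_K7b

/-!
Module P4b of MP_17e24e_ag: the dual space `U` is `φ`-stable.
-/

set_option autoImplicit false
open MvPolynomial

namespace TI

theorem P4b_coeff {n : ℕ} (P : MvPolynomial (Fin n) ℂ) (m : Fin n →₀ ℕ) :
    coeff m (aeval (fun j => (2:ℂ) • (X j : MvPolynomial (Fin n) ℂ)) P) =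
      2 ^ m.degree * coeff m P := by
  induction P using MvPolynomial.induction_on generalizing m with
  | C a =>
    rw [aeval_C, MvPolynomial.algebraMap_eq, coeff_C]
    split_ifs with h
    · rw [← h]; simp
    · simp
  | add p q hp hq => rw [map_add, coeff_add, coeff_add, hp, hq, mul_add]
  | mul_X p i hp =>
    rw [map_mul, aeval_X, mul_smul_comm, coeff_smul, coeff_mul_X', coeff_mul_X']
    split_ifs with h
    · rw [hp, smul_eq_mul, ← mul_assoc]
      have : m.degree = (m - Finsupp.single i 1).degree + 1 := by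
        have h1 : m = (m - Finsupp.single i 1) + Finsupp.single i 1 := by
          ext j
          by_cases hj : j = i
          · subst hj
            have : m j ≠ 0 := by simpa using h
            simp
            omega
          · simp [Finsupp.single_apply, Ne.symm hj]
        conv_lhs => rw [h1]
        rw [map_add]
        simp
      rw [this, pow_succ]
      ring
    · simp

/-- a polynomial in algebraically independent elements fixed by the scaling is constant -/
theorem P4b_const {n : ℕ} {K : Type} [Field K] [Algebra ℂ K] (y : Fin n → K)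
    (hind : AlgebraicIndependent ℂ y) (σ : K →ₐ[ℂ] K) (hσ : ∀ j, σ (y j) = (2:ℂ) • y j)
    (q : K) (hq : q ∈ Algebra.adjoin ℂ (Set.range y)) (hfix : σ q = q) :
    ∃ z : ℂ, q = algebraMap ℂ K z := by
  rw [Algebra.adjoin_range_eq_range_aeval] at hq
  obtain ⟨P, rfl⟩ := hq
  change σ (aeval y P) = aeval y P at hfix
  have h1 : σ (aeval y P) =
      aeval y (aeval (fun j => (2:ℂ) • (X j : MvPolynomial (Fin n) ℂ)) P) := by
    rw [← AlgHom.comp_apply, ← AlgHom.comp_apply]
    congr 1
    ext j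
    simp [hσ]
  rw [h1] at hfix
  have h2 : aeval (fun j => (2:ℂ) • (X j : MvPolynomial (Fin n) ℂ)) P = P := hind hfix
  refine ⟨coeff 0 P, ?_⟩
  have h3 : P = C (coeff 0 P) := by
    ext m
    rw [coeff_C]
    split_ifs with h
    · rw [← h]
    · have h4 := P4b_coeff P m
      rw [h2] at h4
      have hdeg : m.degree ≠ 0 := by
        intro h0
        apply h
        rw [Finsupp.degree_eq_zero_iff] at h0
        exact h0.symm
      have h5 : (2:ℂ) ^ m.degree ≠ 1 := by
        intro h6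
        have h7 : (2:ℕ) ^ m.degree = 1 := by exact_mod_cast h6
        have h8 : 1 < 2 ^ m.degree := Nat.one_lt_two_pow hdeg
        omega
      have h6 : ((2:ℂ) ^ m.degree - 1) * coeff m P = 0 := by
        linear_combination -h4
      rcases mul_eq_zero.mp h6 with h7 | h7
      · exact absurd (sub_eq_zero.mp h7) h5
      · exact h7
  change (aeval y P : K) = _
  conv_lhs => rw [h3]
  rw [aeval_C]

section trc
variable {K : Type} [Field K] [Algebra ℂ K]

theorem P4b_trc_mul {n : ℕ} (c : Fin n → K) (a f : K)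
    (ha : a ∈ Algebra.adjoin ℂ (Set.range c)) : trc c (a * f) = a * trc c f := by
  have ha' : a ∈ IntermediateField.adjoin ℂ (Set.range c) :=
    IntermediateField.algebra_adjoin_le_adjoin ℂ _ ha
  unfold trc
  have h1 : a * f = (⟨a, ha'⟩ : IntermediateField.adjoin ℂ (Set.range c)) • f := by
    rw [Algebra.smul_def]
    rfl
  rw [h1, map_smul]
  rfl

theorem P4b_trc_sum {n δ : ℕ} (c : Fin n → K) (f : Fin δ → K) :
    trc c (∑ i, f i) = ∑ i, trc c (f i) := by
  unfold trc
  rw [map_sum]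
  push_cast
  rfl

end trc

section P4
variable {κ d n : ℕ} {K : Type} [Field K] [Algebra ℂ K] [Algebra (RR κ) K]
  [IsScalarTower ℂ (RR κ) K]

/-- the scaling on linear forms -/
theorem P4b_lin (S : Sys κ d n K) {p : RR κ} (hp : p.IsHomogeneous 1) :
    S.ρ (algebraMap (RR κ) K p) = (2:ℂ) • algebraMap (RR κ) K p := by
  have h1 : Hm S.rM n (1 : K) := by
    change (2:ℂ) ^ n • S.ρ 1 = (2:ℂ) ^ n • (1 : K)
    rw [map_one]
  have h2 := TI.hm_smul (TI.rM_scal S) hp h1
  have h3 : (p • (1 : K)) = algebraMap (RR κ) K p := by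
    rw [Algebra.smul_def, mul_one]
  rw [h3] at h2
  have h4 : (2:ℂ) ^ n • S.ρ (algebraMap (RR κ) K p) =
      (2:ℂ) ^ (n + 1) • algebraMap (RR κ) K p := h2
  rw [pow_succ, mul_smul] at h4
  exact smul_right_injective K (pow_ne_zero n (two_ne_zero : (2:ℂ) ≠ 0)) h4

theorem P4b_ρ_V (S : Sys κ d n K) {v : K} (hv : v ∈ S.V) : S.ρ v = v := by
  unfold Sys.V at hv
  induction hv using Submodule.span_induction with
  | mem x hx =>
    obtain ⟨l', rfl⟩ := hx
    exact TI.ρ_Dx S l'
  | zero => simp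
  | add x y _ _ hx hy => rw [map_add, hx, hy]
  | smul a x _ hx => rw [map_smul, hx]

theorem P4b_V_le (S : Sys κ d n K) {v : K} (hv : v ∈ S.V) : v ∈ S.M := by
  unfold Sys.V at hv
  induction hv using Submodule.span_induction with
  | mem x hx => exact Submodule.subset_span hx
  | zero => exact S.M.zero_mem
  | add x y _ _ hx hy => exact S.M.add_mem hx hy
  | smul a x _ hx =>
    rw [← algebraMap_smul (RR κ) a x]
    exact S.M.smul_mem _ hx

theorem P4b_ρ_Dl (S : Sys κ d n K) (y : Fin n → RR κ) (hy : ∀ j, (y j).IsHomogeneous 1) :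
    S.ρ (Dl S.der (im K y)) = Dl S.der (im K y) := by
  have h1 : ∀ k j, S.ρ (S.der k (im K y j)) = S.der k (im K y j) := by
    intro k j
    have h2 := TI.ρ_der S k (im K y j)
    have h3 : S.ρ (im K y j) = (2:ℂ) • im K y j := P4b_lin S (hy j)
    rw [h3, (S.der k).map_smul] at h2
    exact (smul_right_injective K (two_ne_zero : (2:ℂ) ≠ 0) h2).symm
  unfold Dl
  have h2 : S.ρ (Matrix.det (Matrix.of fun k j => S.der k (im K y j))) =
      Matrix.det (S.ρ.mapMatrix (Matrix.of fun k j => S.der k (im K y j))) :=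
    AlgHom.map_det S.ρ _
  rw [h2]
  congr 1
  ext k j
  simp [h1]

/-- P4b: the space `U` is `φ`-stable and consists of elements of degree `0` -/
theorem φ_U (S : Sys κ d n K) (hT : ∀ m ∈ S.M, S.T m ∈ S.M) (y : Fin n → RR κ)
    (hy : ∀ j, (y j).IsHomogeneous 1) (hind : AlgebraicIndependent ℂ (im K y))
    (hfin : FiniteDimensional (IntermediateField.adjoin ℂ (Set.range (im K y))) K)
    (hchain : ∀ N : Submodule (RR κ) K,
      TT S.der (im K fun j => phi S.F (y j)) N → TT S.der (im K y) N)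
    {δ : ℕ} (v : Module.Basis (Fin δ) (IntermediateField.adjoin ℂ (Set.range (im K y))) K)
    (hv : ∀ i, v i ∈ S.V)
    (hgen : ∀ m ∈ S.M, ∃ P : Fin δ → MvPolynomial (Fin n) ℂ,
          m = ∑ i, algebraMap (RR κ) K (aeval y (P i)) * v i)
    (U : Submodule ℂ K)
    (hU : ∀ g : K, g ∈ U ↔ ∀ j, ∃ z : ℂ,
      trc (im K y) (g * v j * (Dl S.der (im K y))⁻¹) = algebraMap ℂ K z)
    (hnd : ∀ g g' : K, (∀ j, trc (im K y) (g * v j * (Dl S.der (im K y))⁻¹) =
      trc (im K y) (g' * v j * (Dl S.der (im K y))⁻¹)) → g = g') :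
    ∀ g ∈ U, S.ρ g = g ∧ S.φ g ∈ U := by
  intro g hg
  set dy := Dl S.der (im K y) with hdy
  have hρdy : S.ρ dy = dy := P4b_ρ_Dl S y hy
  have hρdyi : S.ρ dy⁻¹ = dy⁻¹ := by rw [map_inv₀, hρdy]
  have htr : ∀ f : K, S.ρ (trc (im K y) f) = trc (im K y) (S.ρ f) := by
    intro f
    exact TI.trc_ρ S y hy hfin f
  have hρg : S.ρ g = g := by
    apply hnd
    intro j
    obtain ⟨z, hz⟩ := (hU g).mp hg j
    have h1 : S.ρ g * v j * dy⁻¹ = S.ρ (g * v j * dy⁻¹) := by
      rw [map_mul, map_mul, P4b_ρ_V S (hv j), hρdyi]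
    rw [h1, ← htr, hz]
    exact S.ρ.commutes z
  refine ⟨hρg, ?_⟩
  -- the module `φ(g) M`
  let N : Submodule (RR κ) K := S.M.map (LinearMap.mulLeft (RR κ) (S.φ g))
  have himφ : (im K fun j => phi S.F (y j)) = fun j => S.φ (im K y j) := by
    funext j
    exact (S.hφ (y j)).symm
  -- polynomials in `y`
  have hpol : ∀ P : MvPolynomial (Fin n) ℂ,
      algebraMap (RR κ) K (aeval y P) = aeval (im K y) P := by
    intro P
    have : (IsScalarTower.toAlgHom ℂ (RR κ) K).comp (aeval y) = aeval (im K y) := by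
      ext j
      simp [im]
    rw [← this]
    rfl
  have hadj : ∀ P : MvPolynomial (Fin n) ℂ,
      aeval (im K y) P ∈ Algebra.adjoin ℂ (Set.range (im K y)) := by
    intro P
    rw [Algebra.adjoin_range_eq_range_aeval]
    exact ⟨P, rfl⟩
  have hTT : TT S.der (im K fun j => phi S.F (y j)) N := by
    rintro _ ⟨m, hm, rfl⟩
    rw [himφ, TI.Dl_phi, TI.trc_phi S (im K y) hfin]
    have h1 : (LinearMap.mulLeft (RR κ) (S.φ g)) m / (S.J * S.φ (Dl S.der (im K y))) =
        S.φ (g * dy⁻¹) * (m / S.J) := by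
      rw [LinearMap.mulLeft_apply, map_mul, map_inv₀, ← hdy]
      rw [div_eq_mul_inv, div_eq_mul_inv, mul_inv]
      ring
    rw [h1, TI.trHom_mul]
    have h2 : trHom (S.φ : K →+* K) (m / S.J) = S.T m := rfl
    rw [h2]
    obtain ⟨P, hP⟩ := hgen _ (hT m hm)
    choose z hz using (hU g).mp hg
    have h3 : trc (im K y) (g * dy⁻¹ * S.T m) =
        ∑ i, aeval (im K y) (P i) * algebraMap ℂ K (z i) := by
      rw [hP, Finset.mul_sum, P4b_trc_sum]
      apply Finset.sum_congr rfl
      intro i _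
      rw [hpol, ← hz i, ← P4b_trc_mul _ _ _ (hadj (P i))]
      congr 1
      ring
    rw [h3, map_sum]
    apply sum_mem
    intro i _
    rw [map_mul, S.φ.commutes]
    refine mul_mem ?_ (Subalgebra.algebraMap_mem _ _)
    rw [Algebra.adjoin_range_eq_range_aeval]
    refine ⟨P i, ?_⟩
    change (aeval fun j => S.φ (im K y j)) (P i) = S.φ (aeval (im K y) (P i))
    have h4 : (aeval fun j => S.φ (im K y j)) = S.φ.comp (aeval (im K y)) := by
      ext j
      simp
    rw [h4]
    rfl
  have hTT' := hchain N hTT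
  rw [hU]
  intro j
  have hvM : v j ∈ S.M := P4b_V_le S (hv j)
  have h1 := hTT' (S.φ g * v j) ⟨v j, hvM, rfl⟩
  have h2 : S.φ g * v j * dy⁻¹ = S.φ g * v j / Dl S.der (im K y) := by
    rw [← hdy, div_eq_mul_inv]
  rw [h2]
  apply P4b_const (im K y) hind S.ρ (fun j => P4b_lin S (hy j)) _ h1
  rw [htr]
  congr 1
  rw [← h2, map_mul, map_mul, P4b_ρ_V S (hv j), hρdyi, TI.φ_ρ_fix S hρg]

end P4

end TI
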