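import Pool.Agent.Helper97.TI.Defs
import Pool.Agent.Helper97.TI.L_DIM
import Pool.Agent.Helper97.TI.L_K2
import Pool.Agent.Helper97.TI.L_K3
import Pool.Agent.Helper97.TI.L_K4
import Pool.Agent.Helper97.TI.L_K4f
import Pool.Agent.Helper97.TI.L_XAB

set_option autoImplicit false
set_option linter.unusedSectionVars false
open MvPolynomial

noncomputable section

namespace TI

section P4c
variable {κ d n : ℕ} {K : Type} [Field K] [Algebra ℂ K] [Algebra (RR κ) K]
  [IsScalarTower ℂ (RR κ) K]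

/-- the substitution `X i ↦ 2 X i` -/
def P4c_σ (κ : ℕ) : RR κ →ₐ[ℂ] RR κ := aeval (fun i => (2:ℂ) • (X i : RR κ))

theorem P4c_ρ_alg (S : Sys κ d n K) (a : RR κ) :
    S.ρ (algebraMap (RR κ) K a) = algebraMap (RR κ) K (P4c_σ κ a) := by
  have h : S.ρ.comp (IsScalarTower.toAlgHom ℂ (RR κ) K) =
      (IsScalarTower.toAlgHom ℂ (RR κ) K).comp (P4c_σ κ) := by
    apply MvPolynomial.algHom_ext
    intro i
    have h1 := S.hρ i
    unfold xb at h1
    simp only [AlgHom.comp_apply, IsScalarTower.coe_toAlgHom', P4c_σ, aeval_X]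
    rw [h1, ← IsScalarTower.coe_toAlgHom' ℂ (RR κ) K, map_smul]
  have := DFunLike.congr_fun h a
  simpa using this

theorem P4c_rM_apply (S : Sys κ d n K) (m : K) : S.rM m = (2:ℂ) ^ n • S.ρ m := rfl

theorem P4c_rM_smul (S : Sys κ d n K) (a : RR κ) (m : K) :
    S.rM (a • m) = P4c_σ κ a • S.rM m := by
  rw [P4c_rM_apply, P4c_rM_apply, Algebra.smul_def a, map_mul, P4c_ρ_alg,
    Algebra.smul_def (P4c_σ κ a), mul_smul_comm]

theorem P4c_Dx_mem (S : Sys κ d n K) (l' : Fin n → Fin κ) : S.Dx l' ∈ S.M :=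
  Submodule.subset_span ⟨l', rfl⟩

theorem P4c_V_le (S : Sys κ d n K) {m : K} (hm : m ∈ S.V) : m ∈ S.M := by
  have : S.V ≤ (S.M).restrictScalars ℂ := by
    unfold Sys.V
    rw [Submodule.span_le]
    rintro _ ⟨l', rfl⟩
    exact P4c_Dx_mem S l'
  exact this hm

theorem P4c_ρ_V (S : Sys κ d n K) {m : K} (hm : m ∈ S.V) : S.ρ m = m := by
  induction hm using Submodule.span_induction with
  | mem x hx =>
    obtain ⟨l', rfl⟩ := hx
    exact TI.ρ_Dx S l'
  | zero => exact map_zero _
  | add x y _ _ hx hy => rw [map_add, hx, hy]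
  | smul c x _ hx => rw [map_smul, hx]

/-- the module generated by `u i * Dx l'` -/
def P4c_M (S : Sys κ d n K) {r : ℕ} (u : Fin r → K) : Submodule (RR κ) K :=
  Submodule.span (RR κ) (Set.range fun p : Fin r × (Fin n → Fin κ) => u p.1 * S.Dx p.2)

/-- the module `g * M` -/
def P4c_gM (S : Sys κ d n K) (g : K) : Submodule (RR κ) K :=
  Submodule.map (LinearMap.mulLeft (RR κ) g) S.M

theorem P4c_mem_gM (S : Sys κ d n K) (g x : K) : x ∈ P4c_gM S g ↔ ∃ m ∈ S.M, g * m = x :=
  Iff.rfl

theorem P4c_mul_mem (S : Sys κ d n K) {r : ℕ} (u : Fin r → K) {i : Fin r} {m : K} (hm : m ∈ S.M) :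
    u i * m ∈ P4c_M S u := by
  have h : S.M ≤ Submodule.comap (LinearMap.mulLeft (RR κ) (u i)) (P4c_M S u) := by
    unfold Sys.M
    rw [Submodule.span_le]
    rintro _ ⟨l', rfl⟩
    exact Submodule.subset_span ⟨(i, l'), rfl⟩
  exact h hm

/-- P4c: an eigenvector forces stability -/
theorem stab_of_eig (S : Sys κ d n K) (hT : ∀ m ∈ S.M, S.T m ∈ S.M) (U : Submodule ℂ K)
    (hU : FiniteDimensional ℂ U) (hUρ : ∀ g ∈ U, S.ρ g = g) (hφU : ∀ g ∈ U, S.φ g ∈ U)
    (hsurj : ∀ g ∈ U, ∃ g' ∈ U, S.φ g' = g) (g₁ : K) (hg₁ : g₁ ∈ U) (h0 : g₁ ≠ 0) (z : ℂ)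
    (hz : z ≠ 0) (heig : S.φ g₁ = z • g₁) : ∀ g ∈ U, ∀ v ∈ S.V, g / g₁ * v ∈ S.V := by
  let bU := Module.finBasis ℂ U
  set r := Module.finrank ℂ U with hr
  let u : Fin r → K := fun i => (bU i : K)
  have huU : ∀ i, u i ∈ U := fun i => (bU i).2
  set M' := P4c_M S u with hM'
  -- `U * M ⊆ M'`
  have hUM : ∀ g ∈ U, ∀ m ∈ S.M, g * m ∈ M' := by
    intro g hg m hm
    have h1 := bU.sum_repr ⟨g, hg⟩
    have h2 := congrArg (fun q : U => (q : K)) h1
    simp only [Submodule.coe_sum, Submodule.coe_smul] at h2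
    rw [← h2, Finset.sum_mul]
    refine Submodule.sum_mem _ fun i _ => ?_
    rw [smul_mul_assoc]
    exact Submodule.smul_of_tower_mem _ _ (P4c_mul_mem S u hm)
  have hgen : ∀ p : Fin r × (Fin n → Fin κ), u p.1 * S.Dx p.2 ∈ M' :=
    fun p => Submodule.subset_span ⟨p, rfl⟩
  have hρgen : ∀ p : Fin r × (Fin n → Fin κ), S.rM (u p.1 * S.Dx p.2) =
      (2:ℂ) ^ n • (u p.1 * S.Dx p.2) := by
    intro p
    rw [P4c_rM_apply, map_mul, hUρ _ (huU _), TI.ρ_Dx]
  -- stability under `rM`
  have hrM : ∀ m ∈ M', S.rM m ∈ M' := by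
    intro m hm
    induction hm using Submodule.span_induction with
    | mem x hx =>
      obtain ⟨p, rfl⟩ := hx
      simp only
      rw [hρgen p]
      exact Submodule.smul_of_tower_mem _ _ (hgen p)
    | zero => rw [map_zero]; exact Submodule.zero_mem _
    | add x y _ _ hx hy => rw [map_add]; exact Submodule.add_mem _ hx hy
    | smul c x _ hx => rw [P4c_rM_smul]; exact Submodule.smul_mem _ _ hx
  have hΦmul : ∀ g m : K, S.Φ (g * m) = S.φ g * S.Φ m := by
    intro g m
    show S.φ (g * m) * S.J = S.φ g * (S.φ m * S.J)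
    rw [map_mul, mul_assoc]
  have hTmul : ∀ g m : K, S.T (S.φ g * m) = g * S.T m := by
    intro g m
    show trHom (S.φ : K →+* K) (S.φ g * m / S.J) = g * trHom (S.φ : K →+* K) (m / S.J)
    rw [mul_div_assoc, TI.trHom_mul]
  have hΦ : ∀ m ∈ M', S.Φ m ∈ M' := by
    intro m hm
    induction hm using Submodule.span_induction with
    | mem x hx =>
      obtain ⟨p, rfl⟩ := hx
      simp only
      rw [hΦmul]
      exact hUM _ (hφU _ (huU _)) _ (TI.Φ_mem S (P4c_Dx_mem S _))
    | zero => rw [map_zero]; exact Submodule.zero_mem _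
    | add x y _ _ hx hy => rw [map_add]; exact Submodule.add_mem _ hx hy
    | smul c x _ hx => rw [TI.Φ_smul]; exact Submodule.smul_mem _ _ hx
  have hTM : ∀ m ∈ M', S.T m ∈ M' := by
    have key : ∀ m ∈ M', ∀ a : RR κ, S.T (a • m) ∈ M' := by
      intro m hm
      induction hm using Submodule.span_induction with
      | mem x hx =>
        obtain ⟨p, rfl⟩ := hx
        intro a
        simp only
        obtain ⟨g', hg', hg⟩ := hsurj _ (huU p.1)
        rw [← mul_smul_comm, ← hg, hTmul]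
        exact hUM _ hg' _ (hT _ (Submodule.smul_mem _ _ (P4c_Dx_mem S _)))
      | zero =>
        intro a
        rw [smul_zero, map_zero]; exact Submodule.zero_mem _
      | add x y _ _ hx hy =>
        intro a
        rw [smul_add, map_add]; exact Submodule.add_mem _ (hx a) (hy a)
      | smul c x _ hx =>
        intro a
        rw [smul_smul]
        exact hx _
    intro m hm
    have := key m hm 1
    rwa [one_smul] at this
  -- the data on `M'`
  let ρ' : M' →ₗ[ℂ] M' :=
    { toFun := fun m => ⟨S.rM m, hrM m m.2⟩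
      map_add' := fun x y => by
        apply Subtype.ext
        simp
      map_smul' := fun c x => by
        apply Subtype.ext
        simp }
  have hHm : ∀ (w : ℕ) (m : M'), Hm ρ' w m ↔ Hm S.rM w (m : K) := by
    intro w m
    unfold Hm
    rw [Subtype.ext_iff]
    rfl
  let Φ' : M' →+ M' := AddMonoidHom.mk' (fun m => ⟨S.Φ m, hΦ m m.2⟩) (fun a b => by
    apply Subtype.ext
    simp)
  let T' : M' →+ M' := AddMonoidHom.mk' (fun m => ⟨S.T m, hTM m m.2⟩) (fun a b => by
    apply Subtype.ext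
    simp)
  let B₀ : Submodule (RR κ) M' := Submodule.comap M'.subtype (P4c_gM S g₁)
  have hmemB : ∀ m : M', m ∈ B₀ ↔ ∃ x ∈ S.M, g₁ * x = (m : K) := fun m => Iff.rfl
  have hscal : IsScal κ ρ' := by
    intro i m
    apply Subtype.ext
    exact TI.rM_scal S i m
  have hw : WGen κ ρ' n := by
    unfold WGen
    rw [eq_top_iff]
    have h := Submodule.span_span_coe_preimage (R := RR κ)
      (s := Set.range fun p : Fin r × (Fin n → Fin κ) => u p.1 * S.Dx p.2)
    have h' : Submodule.span (RR κ) ((fun m : M' => (m : K)) ⁻¹'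
      (Set.range fun p : Fin r × (Fin n → Fin κ) => u p.1 * S.Dx p.2)) = ⊤ := h
    rw [← h']
    apply Submodule.span_mono
    rintro m ⟨p, hp⟩
    refine ⟨n, le_rfl, ?_⟩
    rw [hHm]
    simp only at hp
    unfold Hm
    rw [← hp]
    exact hρgen p
  have hfin : Module.Finite (RR κ) M' := Module.Finite.span_of_finite _ (Set.finite_range _)
  have hstab : Stab ρ' B₀ := by
    intro m hm
    rw [hmemB] at hm ⊢
    obtain ⟨x, hx, hxm⟩ := hm
    refine ⟨S.rM x, ?_, ?_⟩
    · induction hx using Submodule.span_induction generalizing m with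
      | mem x hx =>
        obtain ⟨l', rfl⟩ := hx
        rw [P4c_rM_apply, TI.ρ_Dx]
        exact Submodule.smul_of_tower_mem _ _ (P4c_Dx_mem S l')
      | zero => rw [map_zero]; exact Submodule.zero_mem _
      | add x y hx' hy' hx hy =>
        rw [map_add]
        exact Submodule.add_mem _ (hx ⟨g₁ * x, hUM _ hg₁ _ hx'⟩ rfl)
          (hy ⟨g₁ * y, hUM _ hg₁ _ hy'⟩ rfl)
      | smul c x hx' hx =>
        rw [P4c_rM_smul]
        exact Submodule.smul_mem _ _ (hx ⟨g₁ * x, hUM _ hg₁ _ hx'⟩ rfl)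
    · show g₁ * S.rM x = S.rM (m : K)
      rw [← hxm, P4c_rM_apply, P4c_rM_apply, map_mul, hUρ _ hg₁, mul_smul_comm]
  have hFT : FT d S.F ρ' B₀ Φ' T' :=
    { Φ_smul := fun a m => by
        apply Subtype.ext
        exact TI.Φ_smul S a m
      Φ_w := fun w m hm => by
        rw [hHm] at hm ⊢
        exact TI.Φ_w S w m hm
      T_smul := fun a m => by
        apply Subtype.ext
        exact TI.T_smul S a m
      TΦ := by
        obtain ⟨c, hc, h⟩ := TI.TΦ S
        refine ⟨c, hc, fun m => ?_⟩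
        apply Subtype.ext
        exact h m
      Φ_B := fun m hm => by
        rw [hmemB] at hm ⊢
        obtain ⟨x, hx, hxm⟩ := hm
        refine ⟨z • S.Φ x, Submodule.smul_of_tower_mem _ _ (TI.Φ_mem S hx), ?_⟩
        show g₁ * (z • S.Φ x) = S.Φ (m : K)
        rw [← hxm, hΦmul, heig, mul_smul_comm, smul_mul_assoc]
      T_B := fun m hm => by
        rw [hmemB] at hm ⊢
        obtain ⟨x, hx, hxm⟩ := hm
        refine ⟨S.T (z⁻¹ • x), hT _ (Submodule.smul_of_tower_mem _ _ hx), ?_⟩
        show g₁ * S.T (z⁻¹ • x) = S.T (m : K)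
        rw [← hTmul, heig, smul_mul_smul_comm, mul_inv_cancel₀ hz, one_smul, hxm] }
  have hdim : DimLe B₀ (n - 1) := by
    intro l hl
    -- a common denominator
    have hden : ∃ b : RR κ, algebraMap (RR κ) K b ≠ 0 ∧ ∀ i, ∃ a : RR κ,
        algebraMap (RR κ) K b * u i = g₁ * algebraMap (RR κ) K a := by
      choose a b hb hab using fun i => S.frac (u i / g₁)
      refine ⟨∏ i, b i, ?_, ?_⟩
      · rw [map_prod]
        exact Finset.prod_ne_zero_iff.2 fun i _ => hb i
      · intro i
        refine ⟨(∏ j ∈ Finset.univ.erase i, b j) * a i, ?_⟩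
        rw [← Finset.mul_prod_erase _ _ (Finset.mem_univ i), map_mul, map_mul]
        have h1 : u i = g₁ * (algebraMap (RR κ) K (a i) / algebraMap (RR κ) K (b i)) := by
          rw [← hab i, mul_div_cancel₀ _ h0]
        rw [h1]
        have h2 := hb i
        field_simp
    obtain ⟨b, hb, hbu⟩ := hden
    have hbM : ∀ m : M', b • m ∈ B₀ := by
      intro m
      rw [hmemB]
      have : ∀ m ∈ M', ∃ x ∈ S.M, g₁ * x = b • m := by
        intro m hm
        induction hm using Submodule.span_induction with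
        | mem x hx =>
          obtain ⟨p, rfl⟩ := hx
          obtain ⟨a, ha⟩ := hbu p.1
          refine ⟨a • S.Dx p.2, Submodule.smul_mem _ _ (P4c_Dx_mem S _), ?_⟩
          simp only
          rw [Algebra.smul_def, Algebra.smul_def, ← mul_assoc, ← mul_assoc, ha]
        | zero => exact ⟨0, Submodule.zero_mem _, by rw [mul_zero, smul_zero]⟩
        | add x y _ _ hx hy =>
          obtain ⟨x', hx', hx''⟩ := hx
          obtain ⟨y', hy', hy''⟩ := hy
          exact ⟨x' + y', Submodule.add_mem _ hx' hy', by rw [mul_add, smul_add, hx'', hy'']⟩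
        | smul c x _ hx =>
          obtain ⟨x', hx', hx''⟩ := hx
          exact ⟨c • x', Submodule.smul_mem _ _ hx', by
            rw [mul_smul_comm, hx'', smul_comm]⟩
      exact this m m.2
    let P₀ : PrimeSpectrum (RR κ) := ⟨RingHom.ker (algebraMap (RR κ) K), RingHom.ker_isPrime _⟩
    have hlt : P₀ < l.head := by
      refine lt_of_le_of_ne ?_ ?_
      · intro a ha
        refine hl a fun m => ?_
        have ha' : algebraMap (RR κ) K a = 0 := ha
        have : a • m = 0 := by
          apply Subtype.ext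
          show a • (m : K) = 0
          rw [Algebra.smul_def, ha', zero_mul]
        rw [this]
        exact Submodule.zero_mem _
      · intro h
        have h1 : b ∈ l.head.asIdeal := hl b hbM
        rw [← h] at h1
        exact hb h1
    have h2 := TI.chain_le S.frac (fun j => xb κ K (S.l j)) S.trb (l.cons P₀ hlt)
      (by rw [RelSeries.head_cons])
    rw [RelSeries.cons_length] at h2
    omega
  have htop : B₀ = ⊤ := TI.X_a hscal hw hstab S.hF hFT S.hn hdim
  intro g hg v hv
  have h1 : (⟨g * v, hUM g hg v (P4c_V_le S hv)⟩ : M') ∈ B₀ := by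
    rw [htop]
    exact Submodule.mem_top
  rw [hmemB] at h1
  obtain ⟨m, hm, hgm⟩ := h1
  simp only at hgm
  have h2 : g / g₁ * v = m := by
    rw [div_mul_eq_mul_div, ← hgm, mul_div_cancel_left₀ _ h0]
  rw [h2]
  refine TI.mem_V S hm ?_
  apply mul_left_cancel₀ h0
  have h3 := congrArg S.ρ hgm
  rw [map_mul, map_mul, hUρ _ hg₁, hUρ _ hg, P4c_ρ_V S hv] at h3
  rw [h3, hgm]

end P4c

end TI
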