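import Pool.Agent.Helper97.TI.L_K4

set_option autoImplicit false
set_option linter.unusedSectionVars false
open MvPolynomial

namespace TI

section P4
variable {κ d n : ℕ} {K : Type} [Field K] [Algebra ℂ K] [Algebra (RR κ) K]
  [IsScalarTower ℂ (RR κ) K]

theorem P4e_aeval (y : Fin n → RR κ) (P : MvPolynomial (Fin n) ℂ) :
    algebraMap (RR κ) K (aeval y P) = aeval (im K y) P := by
  have h : ((IsScalarTower.toAlgHom ℂ (RR κ) K).comp (aeval y)) = aeval (im K y) := by
    apply algHom_ext
    intro i
    rw [AlgHom.comp_apply, aeval_X, aeval_X]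
    rfl
  exact DFunLike.congr_fun h P

/-- common denominators -/
theorem P4e_denom {δ : ℕ} (c : Fin n → K) (g : Fin δ → IntermediateField.adjoin ℂ (Set.range c)) :
    ∃ (s : K) (P : Fin δ → MvPolynomial (Fin n) ℂ), s ≠ 0 ∧
      ∀ i, aeval c (P i) = s * (g i : K) := by
  classical
  have h : ∀ i, ∃ r s : MvPolynomial (Fin n) ℂ, aeval c s ≠ 0 ∧ (g i : K) * aeval c s = aeval c r := by
    intro i
    obtain ⟨r, s, hrs⟩ := (IntermediateField.mem_adjoin_range_iff ℂ c _).mp (g i).2
    by_cases hs : aeval c s = 0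
    · refine ⟨0, 1, by rw [map_one]; exact one_ne_zero, ?_⟩
      rw [hrs, hs, div_zero, zero_mul, map_zero]
    · exact ⟨r, s, hs, by rw [hrs, div_mul_cancel₀ _ hs]⟩
  choose r s hs hrs using h
  refine ⟨∏ i, aeval c (s i), fun i => r i * ∏ j ∈ Finset.univ.erase i, s j,
    Finset.prod_ne_zero_iff.mpr fun i _ => hs i, fun i => ?_⟩
  rw [map_mul, ← hrs, map_prod, ← Finset.mul_prod_erase Finset.univ (fun i => aeval c (s i))
    (Finset.mem_univ i)]
  ring

/-- P4e: such a family is a basis of `K` over `ℂ(y)` -/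
theorem exists_basis (S : Sys κ d n K) (y : Fin n → RR κ)
    (hind : AlgebraicIndependent ℂ (im K y))
    (hint : ∀ a : RR κ, IsIntegral (Algebra.adjoin ℂ (Set.range (im K y))) (algebraMap (RR κ) K a))
    {δ : ℕ} (v : Fin δ → K) (hv : ∀ i, v i ∈ S.M)
    (hgen : ∀ m ∈ S.M, ∃ P : Fin δ → MvPolynomial (Fin n) ℂ,
          m = ∑ i, algebraMap (RR κ) K (aeval y (P i)) * v i)
    (hli : ∀ P : Fin δ → MvPolynomial (Fin n) ℂ,
          ∑ i, algebraMap (RR κ) K (aeval y (P i)) * v i = 0 → P = 0) :
    ∃ b : Module.Basis (Fin δ) (IntermediateField.adjoin ℂ (Set.range (im K y))) K,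
      ∀ i, b i = v i := by
  classical
  have hlin : LinearIndependent (IntermediateField.adjoin ℂ (Set.range (im K y))) v := by
    rw [Fintype.linearIndependent_iff]
    intro g hg i
    obtain ⟨s, P, hs, hP⟩ := P4e_denom (im K y) g
    have h1 : P = 0 := by
      apply hli
      have h2 : ∀ i, algebraMap (RR κ) K (aeval y (P i)) * v i = s * (g i • v i) := by
        intro i
        rw [P4e_aeval, hP, mul_assoc]
        rfl
      rw [Finset.sum_congr rfl fun i _ => h2 i, ← Finset.mul_sum, hg, mul_zero]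
    have h3 := hP i
    rw [h1, Pi.zero_apply, map_zero] at h3
    have h4 := (mul_eq_zero.mp h3.symm).resolve_left hs
    exact Subtype.ext h4
  have hW : ∀ m ∈ S.M, m ∈ Submodule.span (IntermediateField.adjoin ℂ (Set.range (im K y)))
      (Set.range v) := by
    intro m hm
    obtain ⟨P, rfl⟩ := hgen m hm
    refine Submodule.sum_mem _ fun i _ => ?_
    have hk : aeval (im K y) (P i) ∈ IntermediateField.adjoin ℂ (Set.range (im K y)) := by
      apply IntermediateField.algebra_adjoin_le_adjoin
      rw [Algebra.adjoin_range_eq_range_aeval]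
      exact ⟨P i, rfl⟩
    rw [P4e_aeval]
    exact Submodule.smul_mem _ (⟨_, hk⟩ : IntermediateField.adjoin ℂ (Set.range (im K y)))
      (Submodule.subset_span ⟨i, rfl⟩)
  have hM : ∀ a : RR κ, algebraMap (RR κ) K a ∈ S.M := by
    intro a
    have h1 : (1 : K) ∈ S.M := by
      have := K1_x S
      rw [← this]
      exact Submodule.subset_span ⟨S.l, rfl⟩
    rw [Algebra.algebraMap_eq_smul_one]
    exact Submodule.smul_mem _ _ h1
  have hA : ∀ f ∈ Algebra.adjoin (IntermediateField.adjoin ℂ (Set.range (im K y)))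
      (Set.range (algebraMap (RR κ) K)), f ∈ Submodule.span
        (IntermediateField.adjoin ℂ (Set.range (im K y))) (Set.range v) := by
    intro f hf
    rw [← Subalgebra.mem_toSubmodule, Algebra.adjoin_eq_span] at hf
    refine Submodule.span_le.mpr ?_ hf
    intro z hz
    have h2 : (Submonoid.closure (Set.range (algebraMap (RR κ) K)) : Submonoid K) ≤
        MonoidHom.mrange (algebraMap (RR κ) K : RR κ →* K) := by
      rw [Submonoid.closure_le]
      rintro _ ⟨a, rfl⟩
      exact ⟨a, rfl⟩
    obtain ⟨a, rfl⟩ := h2 hz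
    exact hW _ (hM a)
  have hspan : ⊤ ≤ Submodule.span (IntermediateField.adjoin ℂ (Set.range (im K y)))
      (Set.range v) := by
    rintro f -
    apply hA
    obtain ⟨a, b, hb, rfl⟩ := S.frac f
    rw [div_eq_mul_inv]
    refine Subalgebra.mul_mem _ (Algebra.subset_adjoin ⟨a, rfl⟩) ?_
    have hbm : algebraMap (RR κ) K b ∈ Algebra.adjoin
        (IntermediateField.adjoin ℂ (Set.range (im K y))) (Set.range (algebraMap (RR κ) K)) :=
      Algebra.subset_adjoin ⟨b, rfl⟩
    have halg : IsAlgebraic (IntermediateField.adjoin ℂ (Set.range (im K y)))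
        (algebraMap (RR κ) K b) := by
      apply IsIntegral.isAlgebraic
      let ψ : Algebra.adjoin ℂ (Set.range (im K y)) →+*
          IntermediateField.adjoin ℂ (Set.range (im K y)) :=
        (Subalgebra.inclusion (IntermediateField.algebra_adjoin_le_adjoin ℂ
          (Set.range (im K y)))).toRingHom
      exact IsIntegral.map_of_comp_eq ψ (RingHom.id K) (RingHom.ext fun _ => rfl) (hint b)
    exact Subalgebra.inv_mem_of_algebraic (Algebra.adjoin
      (IntermediateField.adjoin ℂ (Set.range (im K y))) (Set.range (algebraMap (RR κ) K)))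
      (x := ⟨_, hbm⟩) halg
  exact ⟨Module.Basis.mk hlin hspan, fun i => Module.Basis.mk_apply hlin hspan i⟩

end P4

end TI
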