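import Pool.Agent.Helper97.TI.L_LC2

/-!
MP_17e24e_ag, module GMC: conjugation invariance of `GM`.
-/

set_option autoImplicit false
open MvPolynomial

namespace TI

section MAT

variable {R k : Type} [CommRing R] [Field k]

theorem GMC_map_mul {ι ι' ι'' : Type} [Fintype ι'] (D : Derivation ℤ k k)
    (A : Matrix ι ι' k) (B : Matrix ι' ι'' k) :
    (A * B).map D = A.map D * B + A * B.map D := by
  ext i j
  simp only [Matrix.map_apply, Matrix.mul_apply, Matrix.add_apply, map_sum, Derivation.leibniz,
    smul_eq_mul]
  rw [← Finset.sum_add_distrib]
  apply Finset.sum_congr rfl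
  intro l _
  ring

theorem GMC_map_add {ι ι' : Type} (D : Derivation ℤ k k)
    (A B : Matrix ι ι' k) : (A + B).map D = A.map D + B.map D := by
  ext i j
  simp

theorem GMC_map_one {ι : Type} [DecidableEq ι] (D : Derivation ℤ k k) :
    (1 : Matrix ι ι k).map D = 0 := by
  ext i j
  rw [Matrix.map_apply, Matrix.one_apply]
  split_ifs <;> simp

theorem GMC_bd {ι : Type} [Fintype ι] [DecidableEq ι] (D : Derivation ℤ k k)
    (T : R →+* Matrix ι ι k) : IsBD T (fun r => (T r).map D) := by
  constructor
  · intro b b'
    change (T (b + b')).map D = _
    rw [map_add, GMC_map_add]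
  · intro b b'
    change (T (b * b')).map D = _
    rw [map_mul, GMC_map_mul]

theorem GMC_GM {n : ℕ} {ι : Type} [Fintype ι] [DecidableEq ι]
    (der : Fin n → Derivation ℤ k k) (T : R →+* Matrix ι ι k) (a : R) (b : Fin n → R) :
    GM der T a b = GG (Matrix.traceAddMonoidHom ι k) T (fun j r => (T r).map (der j)) a b := rfl

/-- G2: conjugation invariance (also between different index types) -/
theorem GM_conj {n : ℕ} {ι ι' : Type} [Fintype ι] [DecidableEq ι] [Fintype ι'] [DecidableEq ι']
    (der : Fin n → Derivation ℤ k k) (T : R →+* Matrix ι ι k) (T' : R →+* Matrix ι' ι' k)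
    (P : Matrix ι ι' k) (P' : Matrix ι' ι k) (hPP : P * P' = 1) (hPP' : P' * P = 1)
    (hT : ∀ r, T r * P = P * T' r) (a : R) (b : Fin n → R) :
    GM der T a b = GM der T' a b := by
  have hT1 : ∀ r, T r = P * T' r * P' := by
    intro r
    rw [← hT, Matrix.mul_assoc, hPP, Matrix.mul_one]
  have hT2 : ∀ r, T' r = P' * T r * P := by
    intro r
    rw [Matrix.mul_assoc, hT, ← Matrix.mul_assoc, hPP', Matrix.one_mul]
  rw [GMC_GM]
  rw [GG_congr (Matrix.traceAddMonoidHom ι k) (fun x y => Matrix.trace_mul_comm x y) T
    (fun j r => (T r).map (der j)) (fun j r => P * (T' r).map (der j) * P')]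
  · unfold GG GM
    apply Finset.sum_congr rfl
    intro σ _
    congr 1
    have h1 : ∀ l : List (Matrix ι' ι' k), (l.map fun x => P * x * P').prod = P * l.prod * P' := by
      intro l
      induction l with
      | nil => simp [hPP]
      | cons x l ih =>
        rw [List.map_cons, List.prod_cons, ih, List.prod_cons]
        calc P * x * P' * (P * l.prod * P') = P * x * (P' * P) * l.prod * P' := by
              simp only [Matrix.mul_assoc]
          _ = P * (x * l.prod) * P' := by
              rw [hPP', Matrix.mul_one]
              simp only [Matrix.mul_assoc]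
    have h2 : (List.ofFn fun j => P * (T' (b (σ j))).map (der j) * P') =
        (List.ofFn fun j => (T' (b (σ j))).map (der j)).map fun x => P * x * P' := by
      rw [List.map_ofFn]
      rfl
    change Matrix.trace (T a * (List.ofFn fun j => P * (T' (b (σ j))).map (der j) * P').prod) = _
    rw [h2, h1]
    calc (T a * (P * (List.ofFn fun j => (T' (b (σ j))).map (der j)).prod * P')).trace
        = ((T a * P) * (List.ofFn fun j => (T' (b (σ j))).map (der j)).prod * P').trace := by
          simp only [Matrix.mul_assoc]
      _ = (P * (T' a * (List.ofFn fun j => (T' (b (σ j))).map (der j)).prod * P')).trace := by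
          rw [hT]
          simp only [Matrix.mul_assoc]
      _ = (T' a * (List.ofFn fun j => (T' (b (σ j))).map (der j)).prod * P' * P).trace := by
          rw [Matrix.trace_mul_comm]
      _ = _ := by
          rw [Matrix.mul_assoc, hPP', Matrix.mul_one]
  · intro j
    exact GMC_bd (der j) T
  · intro j
    constructor
    · intro b b'
      change P * (T' (b + b')).map (der j) * P' = _
      rw [map_add, GMC_map_add, Matrix.mul_add, Matrix.add_mul]
    · intro b b'
      change P * (T' (b * b')).map (der j) * P' =
        P * (T' b).map (der j) * P' * T b' + T b * (P * (T' b').map (der j) * P')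
      rw [map_mul, GMC_map_mul, Matrix.mul_add, Matrix.add_mul, hT1 b, hT1 b']
      congr 1
      · calc P * ((T' b).map (der j) * T' b') * P' =
            P * (T' b).map (der j) * (P' * P) * T' b' * P' := by
              rw [hPP', Matrix.mul_one]
              simp only [Matrix.mul_assoc]
          _ = _ := by
              simp only [Matrix.mul_assoc]
      · calc P * (T' b * (T' b').map (der j)) * P' =
            P * T' b * (P' * P) * (T' b').map (der j) * P' := by
              rw [hPP', Matrix.mul_one]
              simp only [Matrix.mul_assoc]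
          _ = _ := by
              simp only [Matrix.mul_assoc]
  · intro j
    have h0 : P.map (der j) * P' + P * P'.map (der j) = 0 := by
      rw [← GMC_map_mul, hPP, GMC_map_one]
    have h0' : P.map (der j) * P' = - (P * P'.map (der j)) := eq_neg_of_add_eq_zero_left h0
    refine ⟨-(P * P'.map (der j)), fun r => ?_⟩
    change (T r).map (der j) - P * (T' r).map (der j) * P' =
      -(P * P'.map (der j)) * T r - T r * (-(P * P'.map (der j)))
    have h3 : P * (T' r).map (der j) * P' = P * P'.map (der j) * T r + (T r).map (der j) +
        T r * (P.map (der j) * P') := by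
      rw [hT2 r, GMC_map_mul, GMC_map_mul]
      rw [Matrix.add_mul, Matrix.mul_add, Matrix.mul_add, Matrix.add_mul, Matrix.add_mul]
      congr 1
      · congr 1
        · calc P * (P'.map (der j) * T r * P) * P' = P * P'.map (der j) * T r * (P * P') := by
                simp only [Matrix.mul_assoc]
            _ = _ := by rw [hPP, Matrix.mul_one]
        · calc P * (P' * (T r).map (der j) * P) * P' = (P * P') * (T r).map (der j) * (P * P') := by
                simp only [Matrix.mul_assoc]
            _ = _ := by rw [hPP, Matrix.mul_one, Matrix.one_mul]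
      · calc P * (P' * T r * P.map (der j)) * P' = (P * P') * (T r * (P.map (der j) * P')) := by
                simp only [Matrix.mul_assoc]
            _ = _ := by rw [hPP, Matrix.one_mul]
    rw [h3, h0']
    simp only [Matrix.mul_neg, Matrix.neg_mul]
    abel

end MAT

end TI
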