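import Pool.Agent.Helper97.TI.Defs
import Pool.Agent.Helper97.TI.L_GMB
import Pool.Agent.Helper97.TI.L_GMC
import Pool.Agent.Helper97.TI.L_GMR
import Pool.Agent.Helper97.TI.L_REP1
set_option autoImplicit false
open MvPolynomial

namespace TI

variable {R k K : Type} [CommRing R] [Field k] [Field K] [Algebra k K]

/-- REP2 (second wave) -/
theorem rep_formula {θ : R →+* k} {π : R →+* K} {φ : R →+* R} (h : RepData θ π φ)
    [FiniteDimensional k K] {N : ℕ} (hN : 0 < N)
    (T : R →+* Matrix (Fin N) (Fin N) k) (hT : ∀ c, T (φ c) = Matrix.scalar (Fin N) (θ c))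
    (hL : ∃ L : ℕ, ∀ p ∈ RingHom.ker π ^ L, T p = 0) :
    ∃ μ : ℕ, 0 < μ ∧ ∀ (n : ℕ) (der : Fin n → Derivation ℤ k k) (D : Fin n → Derivation ℤ K K),
      (∀ j x, D j (algebraMap k K x) = algebraMap k K (der j x)) → ∀ (a : R) (b : Fin n → R),
      GM der T a b =
        μ • Algebra.trace k K (π a * Matrix.det (Matrix.of fun i j => D i (π (b j)))) := by
  induction N using Nat.strong_induction_on with
  | _ N ih =>
    let e := Module.finBasis k K
    obtain ⟨N', P, P', T₁, T₂, B, T', hN', hPP, hPP', hTP, hT', hT₁, hT₂, hL₂⟩ :=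
      TI.rep_step h e hN T hT hL
    rcases Nat.eq_zero_or_pos N' with h0 | h0
    · subst h0
      refine ⟨1, one_pos, fun n der D hD a b => ?_⟩
      rw [TI.GM_conj der T T' P P' hPP hPP' hTP a b, TI.GM_blocks der T' T₁ T₂ B hT' a b,
        TI.GM_regular e π der D hD T₁ hT₁ a b]
      have : GM der T₂ a b = 0 := by
        unfold GM
        apply Finset.sum_eq_zero
        intro σ _
        rw [Matrix.trace]
        simp
      rw [this, add_zero, one_smul]
    · obtain ⟨μ, hμ, hf⟩ := ih N' hN' h0 T₂ hT₂ hL₂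
      refine ⟨μ + 1, Nat.succ_pos _, fun n der D hD a b => ?_⟩
      rw [TI.GM_conj der T T' P P' hPP hPP' hTP a b, TI.GM_blocks der T' T₁ T₂ B hT' a b,
        TI.GM_regular e π der D hD T₁ hT₁ a b, hf n der D hD a b, add_smul, one_smul, add_comm]

end TI
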