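import Pool.Agent.Helper97.TI.Defs
import Pool.Agent.Helper97.TI.L_K1
import Pool.Agent.Helper97.TI.L_REP2

set_option autoImplicit false
open MvPolynomial

namespace TI

/-- product of sums of matrices -/
theorem TR_list {κ n N : ℕ} {K : Type} [Field K] (s : Fin n → Fin κ → K)
    (A : Fin n → Fin κ → Matrix (Fin N) (Fin N) K) :
    (List.ofFn fun j => ∑ i, s j i • A j i).prod =
      ∑ l : Fin n → Fin κ, (∏ j, s j (l j)) • (List.ofFn fun j => A j (l j)).prod := by
  induction n with
  | zero => simp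
  | succ n ih =>
    rw [List.ofFn_succ, List.prod_cons, ih (fun j => s j.succ) (fun j => A j.succ),
      Finset.sum_mul]
    have h1 : ∀ i, s 0 i • A 0 i * ∑ l : Fin n → Fin κ, (∏ j, s j.succ (l j)) •
        (List.ofFn fun j => A j.succ (l j)).prod =
        ∑ l : Fin n → Fin κ, (∏ j, s j ((Fin.cons i l : Fin (n + 1) → Fin κ) j)) •
          (List.ofFn fun j => A j ((Fin.cons i l : Fin (n + 1) → Fin κ) j)).prod := by
      intro i
      rw [Finset.mul_sum]
      refine Finset.sum_congr rfl fun l _ => ?_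
      rw [Fin.prod_univ_succ, List.ofFn_succ, List.prod_cons]
      simp only [Fin.cons_zero, Fin.cons_succ]
      rw [smul_mul_smul_comm]
    rw [Finset.sum_congr rfl fun i _ => h1 i, ← Fintype.sum_prod_type']
    exact Fintype.sum_equiv (Fin.consEquiv fun _ => Fin κ) _ _ fun x => rfl

theorem TR_fin_aux {k K : Type} [Field k] [Field K] [Algebra k K] (E : Subfield K)
    (h : ∀ e ∈ E, ∃ z : k, algebraMap k K z = e) (hfin : FiniteDimensional E K) :
    FiniteDimensional k K := by
  obtain ⟨s, hs⟩ := hfin.fg_top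
  refine ⟨⟨s, ?_⟩⟩
  rw [eq_top_iff]
  intro x _
  have hx : x ∈ Submodule.span E (s : Set K) := by rw [hs]; trivial
  induction hx using Submodule.span_induction with
  | mem x h => exact Submodule.subset_span h
  | zero => exact Submodule.zero_mem _
  | add x y _ _ hx hy => exact Submodule.add_mem _ (hx trivial) (hy trivial)
  | smul a x _ hx =>
    obtain ⟨z, hz⟩ := h a.1 a.2
    have h1 : a • x = z • x := by
      rw [Algebra.smul_def z x, hz]
      rfl
    rw [h1]
    exact Submodule.smul_mem _ z (hx trivial)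

theorem TR_span_aux {R k K : Type} [CommRing R] [Field k] [Field K] [Algebra k K] (π : R →+* K)
    (h : ∀ f : K, ∃ (z : k) (r : R), f = algebraMap k K z * π r) :
    Submodule.span k (Set.range π) = ⊤ := by
  rw [eq_top_iff]
  intro f _
  obtain ⟨z, r, rfl⟩ := h f
  rw [← Algebra.smul_def]
  exact Submodule.smul_mem _ z (Submodule.subset_span ⟨r, rfl⟩)

section SYS
variable {κ d n : ℕ} {K : Type} [Field K] [Algebra ℂ K] [Algebra (RR κ) K]
  [IsScalarTower ℂ (RR κ) K]

theorem TR_der (D : Derivation ℂ K K) (p : RR κ) :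
    D (algebraMap (RR κ) K p) = ∑ i, D (xb κ K i) * algebraMap (RR κ) K (pderiv i p) := by
  induction p using MvPolynomial.induction_on with
  | C a =>
    have h1 : algebraMap (RR κ) K (C a) = algebraMap ℂ K a := by
      rw [IsScalarTower.algebraMap_apply ℂ (RR κ) K]
      rfl
    rw [h1, Derivation.map_algebraMap]
    simp
  | add p q hp hq =>
    rw [map_add, map_add, hp, hq, ← Finset.sum_add_distrib]
    refine Finset.sum_congr rfl fun i _ => ?_
    rw [map_add, map_add, mul_add]
  | mul_X p j hp =>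
    rw [map_mul, Derivation.leibniz, hp]
    have h1 : ∀ i, D (xb κ K i) * algebraMap (RR κ) K (pderiv i (p * X j)) =
        algebraMap (RR κ) K p * (if i = j then D (xb κ K i) else 0) +
          algebraMap (RR κ) K (X j) * (D (xb κ K i) * algebraMap (RR κ) K (pderiv i p)) := by
      intro i
      rw [Derivation.leibniz, pderiv_X, smul_eq_mul, smul_eq_mul, map_add, map_mul, map_mul]
      by_cases hij : i = j
      · subst hij
        simp
        ring
      · rw [Pi.single_eq_of_ne (fun h => hij h.symm), if_neg hij, map_zero]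
        ring
    rw [Finset.sum_congr rfl fun i _ => h1 i, Finset.sum_add_distrib, ← Finset.mul_sum,
      ← Finset.mul_sum, Finset.sum_ite_eq', if_pos (Finset.mem_univ j), smul_eq_mul, smul_eq_mul]
    rfl

/-- expansion of `GM` -/
theorem TR_GM (D : Fin n → Derivation ℂ K K) {N : ℕ}
    (T : RR κ →+* Matrix (Fin N) (Fin N) (RR κ)) (a : RR κ) (b : Fin n → RR κ) :
    GM (fun j => (D j).restrictScalars ℤ) (((algebraMap (RR κ) K).mapMatrix).comp T) a b =
      ∑ l : Fin n → Fin κ, (∏ j, D j (xb κ K (l j))) * algebraMap (RR κ) K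
        (∑ σ : Equiv.Perm (Fin n), ((Equiv.Perm.sign σ : ℤ)) •
          Matrix.trace (T a * (List.ofFn fun j => (T (b (σ j))).map (pderiv (l j))).prod)) := by
  unfold GM
  have h0 : ∀ (σ : Equiv.Perm (Fin n)), (List.ofFn fun j =>
      ((((algebraMap (RR κ) K).mapMatrix).comp T) (b (σ j))).map
        ((D j).restrictScalars ℤ)).prod =
      ∑ l : Fin n → Fin κ, (∏ j, D j (xb κ K (l j))) • (algebraMap (RR κ) K).mapMatrix
        (List.ofFn fun j => (T (b (σ j))).map (pderiv (l j))).prod := by
    intro σ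
    have h1 : ∀ j, ((((algebraMap (RR κ) K).mapMatrix).comp T) (b (σ j))).map
        ((D j).restrictScalars ℤ) = ∑ i, D j (xb κ K i) •
          (algebraMap (RR κ) K).mapMatrix ((T (b (σ j))).map (pderiv i)) := by
      intro j
      ext x y
      rw [Matrix.sum_apply]
      exact TR_der (D j) (T (b (σ j)) x y)
    have h2 : (fun j => ((((algebraMap (RR κ) K).mapMatrix).comp T) (b (σ j))).map
        ((D j).restrictScalars ℤ)) = fun j => ∑ i, D j (xb κ K i) •
          (algebraMap (RR κ) K).mapMatrix ((T (b (σ j))).map (pderiv i)) := funext h1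
    rw [h2, TR_list]
    refine Finset.sum_congr rfl fun l _ => ?_
    rw [map_list_prod, List.map_ofFn]
    rfl
  have h3 : ∀ σ : Equiv.Perm (Fin n), Matrix.trace
      ((((algebraMap (RR κ) K).mapMatrix).comp T) a * (List.ofFn fun j =>
        ((((algebraMap (RR κ) K).mapMatrix).comp T) (b (σ j))).map
          ((D j).restrictScalars ℤ)).prod) =
      ∑ l : Fin n → Fin κ, (∏ j, D j (xb κ K (l j))) * algebraMap (RR κ) K
        (Matrix.trace (T a * (List.ofFn fun j => (T (b (σ j))).map (pderiv (l j))).prod)) := by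
    intro σ
    rw [h0, Finset.mul_sum, Matrix.trace_sum]
    refine Finset.sum_congr rfl fun l _ => ?_
    rw [mul_smul_comm, Matrix.trace_smul, smul_eq_mul]
    congr 1
    have h4 : (((algebraMap (RR κ) K).mapMatrix).comp T) a *
        (algebraMap (RR κ) K).mapMatrix (List.ofFn fun j => (T (b (σ j))).map (pderiv (l j))).prod
        = (algebraMap (RR κ) K).mapMatrix
          (T a * (List.ofFn fun j => (T (b (σ j))).map (pderiv (l j))).prod) := by
      rw [map_mul]
      rfl
    rw [h4]
    exact (AddMonoidHom.map_trace (algebraMap (RR κ) K).toAddMonoidHom _).symm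
  rw [Finset.sum_congr rfl fun σ _ => by rw [h3 σ, Finset.smul_sum], Finset.sum_comm]
  refine Finset.sum_congr rfl fun l _ => ?_
  rw [map_sum, Finset.mul_sum]
  refine Finset.sum_congr rfl fun σ _ => ?_
  rw [map_zsmul, mul_smul_comm]

/-- `K` is finite over itself through `φ` -/
theorem TR_fin (φ : K →ₐ[ℂ] K) (hfin : FiniteDimensional φ.fieldRange K) :
    @FiniteDimensional K K _ _ (φ : K →+* K).toAlgebra.toModule :=
  @TR_fin_aux K K _ _ (φ : K →+* K).toAlgebra φ.fieldRange.toSubfield (by
    rintro e ⟨z, rfl⟩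
    exact ⟨z, rfl⟩) hfin

/-- the data for the representation formula -/
theorem TR_data (S : Sys κ d n K) :
    @RepData (RR κ) K K _ _ _ (S.φ : K →+* K).toAlgebra (algebraMap (RR κ) K)
      (algebraMap (RR κ) K) ((phi S.F : RR κ →ₐ[ℂ] RR κ) : RR κ →+* RR κ) := by
  refine @RepData.mk (RR κ) K K _ _ _ (S.φ : K →+* K).toAlgebra _ _ _ ?_ ?_ ?_ ?_ ?_
  · intro c
    exact (S.hφ c).symm
  · intro c
    exact Iff.rfl
  · intro x
    obtain ⟨a, b, h1, h2⟩ := S.frac x
    exact ⟨a, b, h1, h2⟩
  · refine @TR_span_aux (RR κ) K K _ _ _ (S.φ : K →+* K).toAlgebra (algebraMap (RR κ) K) ?_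
    intro f
    obtain ⟨a, b, hb, rfl⟩ := S.frac f
    obtain ⟨b', c, h1, h2⟩ := S.int b hb
    have h3 : algebraMap (RR κ) K b * algebraMap (RR κ) K b' = S.φ (algebraMap (RR κ) K c) := by
      rw [← map_mul, h1, S.hφ]
    have h4 : S.φ (algebraMap (RR κ) K c) ≠ 0 := (map_ne_zero S.φ).2 h2
    have h5 : algebraMap (RR κ) K b' ≠ 0 := by
      intro h
      rw [h, mul_zero] at h3
      exact h4 h3.symm
    have h6 : algebraMap (RR κ) K a / algebraMap (RR κ) K b =
        S.φ ((algebraMap (RR κ) K c)⁻¹) * algebraMap (RR κ) K (a * b') := by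
      rw [map_inv₀, ← h3, map_mul]
      field_simp
    exact ⟨(algebraMap (RR κ) K c)⁻¹, a * b', h6⟩
  · intro a ha
    exact S.int a ha

/-- K5 = TR: the trace of polynomial `n`-forms (second wave: uses REP2, X1, X1M) -/
theorem T_mem (S : Sys κ d n K)
    (hmat : ∃ N : ℕ, 0 < N ∧ ∃ T : RR κ →+* Matrix (Fin N) (Fin N) (RR κ),
      ∀ c, T (phi S.F c) = Matrix.scalar (Fin N) c)
    {m : K} (hm : m ∈ S.M) : S.T m ∈ S.M := by
  obtain ⟨N, hN, T, hT⟩ := hmat
  set T' : RR κ →+* Matrix (Fin N) (Fin N) K := ((algebraMap (RR κ) K).mapMatrix).comp T with hT'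
  have hT'φ : ∀ c, T' (phi S.F c) = Matrix.scalar (Fin N) (algebraMap (RR κ) K c) := by
    intro c
    rw [hT', RingHom.comp_apply, hT]
    ext i j
    simp only [RingHom.mapMatrix_apply, Matrix.map_apply, Matrix.scalar_apply,
      Matrix.diagonal_apply]
    split_ifs
    · rfl
    · exact map_zero _
  have hker : ∀ p ∈ Ideal.map (phi S.F) (RingHom.ker (algebraMap (RR κ) K)), T' p = 0 := by
    intro p hp
    refine Submodule.span_induction (p := fun x _ => T' x = 0) ?_ (map_zero _) ?_ ?_ hp
    · rintro x ⟨c, hc, rfl⟩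
      have h1 : algebraMap (RR κ) K c = 0 := hc
      show T' (phi S.F c) = 0
      rw [hT'φ, h1, map_zero]
    · intro x y _ _ hx hy
      rw [map_add, hx, hy, add_zero]
    · intro a x _ hx
      rw [smul_eq_mul, map_mul, hx, mul_zero]
  obtain ⟨L, hL⟩ := S.rad
  obtain ⟨μ, hμ, hform⟩ := @TI.rep_formula (RR κ) K K _ _ _ (S.φ : K →+* K).toAlgebra
    (algebraMap (RR κ) K) (algebraMap (RR κ) K)
    ((phi S.F : RR κ →ₐ[ℂ] RR κ) : RR κ →+* RR κ) (TR_data S) (TR_fin S.φ S.fin) N hN T'
    hT'φ ⟨L, fun p hp => hker p (hL hp)⟩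
  -- the key statement for generators
  have key : ∀ (a : RR κ) (l' : Fin n → Fin κ), S.T (a • S.Dx l') ∈ S.M := by
    intro a l'
    set b : Fin n → RR κ := fun j => X (l' j) with hb
    have hDx : Dl S.der (fun j => algebraMap (RR κ) K (b j)) = S.Dx l' := rfl
    have h1 : ∀ τ : Equiv.Perm (Fin n),
        GM (fun j => (S.der (τ j)).restrictScalars ℤ) T' a b =
          ((Equiv.Perm.sign τ : ℤ)) • (μ • S.T (a • S.Dx l')) := by
      intro τ
      have h2 := hform n (fun j => (S.der (τ j)).restrictScalars ℤ)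
        (fun j => (S.Dt (τ j)).restrictScalars ℤ) (fun j x => S.Dt_φ (τ j) x) a b
      rw [h2]
      have h3 : Matrix.det (Matrix.of fun i j => (S.Dt (τ i)).restrictScalars ℤ
          (algebraMap (RR κ) K (b j))) = ((Equiv.Perm.sign τ : ℤ)) • (S.Dx l' / S.J) := by
        have h4 := Matrix.det_permute τ (Matrix.of fun k j => S.Dt k (algebraMap (RR κ) K (b j)))
        have h5 : Matrix.det (Matrix.of fun k j => S.Dt k (algebraMap (RR κ) K (b j))) =
            S.Dx l' / S.J := by
          have := TI.Dl_Dt S (fun j => algebraMap (RR κ) K (b j))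
          rw [hDx] at this
          exact this
        rw [h5] at h4
        rw [zsmul_eq_mul, ← h4]
        rfl
      rw [h3, mul_smul_comm]
      have h6 : algebraMap (RR κ) K a * (S.Dx l' / S.J) = (a • S.Dx l') / S.J := by
        rw [Algebra.smul_def, mul_div_assoc]
      rw [h6]
      have h7 : ∀ (z : ℤ) (x : K), trHom (S.φ : K →+* K) (z • x) =
          z • trHom (S.φ : K →+* K) x := by
        intro z x
        unfold trHom
        exact map_zsmul _ z x
      have h8 : trHom (S.φ : K →+* K) ((a • S.Dx l') / S.J) = S.T (a • S.Dx l') := rfl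
      rw [← h8]
      have h9 := h7 (Equiv.Perm.sign τ : ℤ) ((a • S.Dx l') / S.J)
      rw [smul_comm, ← h9]
      rfl
    -- sum over all permutations
    have h2 : ∑ τ : Equiv.Perm (Fin n), ((Equiv.Perm.sign τ : ℤ)) •
        GM (fun j => (S.der (τ j)).restrictScalars ℤ) T' a b =
        ((n.factorial * μ : ℕ) : ℂ) • S.T (a • S.Dx l') := by
      rw [Finset.sum_congr rfl fun τ _ => by rw [h1 τ]]
      have h3 : ∀ τ : Equiv.Perm (Fin n), ((Equiv.Perm.sign τ : ℤ)) •
          (((Equiv.Perm.sign τ : ℤ)) • (μ • S.T (a • S.Dx l'))) = μ • S.T (a • S.Dx l') := by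
        intro τ
        rw [smul_smul]
        rcases Int.units_eq_one_or (Equiv.Perm.sign τ) with hs | hs <;> rw [hs] <;> simp
      rw [Finset.sum_congr rfl fun τ _ => h3 τ, Finset.sum_const, Finset.card_univ,
        Fintype.card_perm, Fintype.card_fin, smul_smul, Nat.cast_smul_eq_nsmul]
    have h3 : ∑ τ : Equiv.Perm (Fin n), ((Equiv.Perm.sign τ : ℤ)) •
        GM (fun j => (S.der (τ j)).restrictScalars ℤ) T' a b ∈ S.M := by
      rw [Finset.sum_congr rfl fun τ _ => by
        rw [hT', TR_GM (fun j => S.der (τ j)) T a b, Finset.smul_sum], Finset.sum_comm]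
      refine Submodule.sum_mem _ fun l _ => ?_
      have h4 : ∑ τ : Equiv.Perm (Fin n), ((Equiv.Perm.sign τ : ℤ)) •
          ((∏ j, S.der (τ j) (xb κ K (l j))) * algebraMap (RR κ) K
            (∑ σ : Equiv.Perm (Fin n), ((Equiv.Perm.sign σ : ℤ)) •
              Matrix.trace (T a * (List.ofFn fun j => (T (b (σ j))).map (pderiv (l j))).prod))) =
          (∑ σ : Equiv.Perm (Fin n), ((Equiv.Perm.sign σ : ℤ)) •
              Matrix.trace (T a * (List.ofFn fun j => (T (b (σ j))).map (pderiv (l j))).prod)) •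
            S.Dx l := by
        rw [Algebra.smul_def, mul_comm, Sys.Dx, Dl, Matrix.det_apply, Finset.sum_mul]
        refine Finset.sum_congr rfl fun τ _ => ?_
        rw [← smul_mul_assoc, Units.smul_def]
        rfl
      rw [h4]
      exact Submodule.smul_mem _ _ (Submodule.subset_span ⟨l, rfl⟩)
    rw [h2] at h3
    have hne : ((n.factorial * μ : ℕ) : ℂ) ≠ 0 := by
      rw [Nat.cast_ne_zero]
      exact Nat.mul_ne_zero (Nat.factorial_ne_zero n) hμ.ne'
    have h4 : S.T (a • S.Dx l') = (C (((n.factorial * μ : ℕ) : ℂ)⁻¹) : RR κ) •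
        (((n.factorial * μ : ℕ) : ℂ) • S.T (a • S.Dx l')) := by
      have h5 : ∀ (z : ℂ) (x : K), (C z : RR κ) • x = z • x := by
        intro z x
        rw [← algebraMap_eq, algebraMap_smul]
      rw [h5, smul_smul, inv_mul_cancel₀ hne, one_smul]
    rw [h4]
    exact Submodule.smul_mem _ _ h3
  obtain ⟨c, rfl⟩ := (Submodule.mem_span_range_iff_exists_fun (RR κ)).1 hm
  rw [map_sum]
  exact Submodule.sum_mem _ fun l _ => key (c l) l

end SYS
end TI
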