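import Pool.Agent.Helper97.TI.Defs
import Pool.Agent.Helper97.TI.L_AIN
import Pool.Agent.Helper97.TI.L_D1
import Pool.Agent.Helper97.TI.L_DUA
import Pool.Agent.Helper97.TI.L_EIG
import Pool.Agent.Helper97.TI.L_K6
import Pool.Agent.Helper97.TI.L_P4a
import Pool.Agent.Helper97.TI.L_P4b
import Pool.Agent.Helper97.TI.L_P4c
import Pool.Agent.Helper97.TI.L_P4d
import Pool.Agent.Helper97.TI.L_P4e
import Pool.Agent.Helper97.TI.L_TR
set_option autoImplicit false
open MvPolynomial

namespace TI

variable {κ d n : ℕ} {K : Type} [Field K] [Algebra ℂ K] [Algebra (RR κ) K]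
  [IsScalarTower ℂ (RR κ) K]

/-- the sequence with the first `i` entries replaced by their images -/
noncomputable def PLmix (F : Fin κ → RR κ) (y : Fin n → RR κ) (i : ℕ) : Fin n → RR κ :=
  fun j => if (j : ℕ) < i then phi F (y j) else y j

theorem PL_chain (S : Sys κ d n K) (y : Fin n → RR κ)
    (hint : ∀ i : ℕ, ∀ a : RR κ, IsIntegral (Algebra.adjoin ℂ (Set.range
        (im K (PLmix S.F y i)))) (algebraMap (RR κ) K a))
    (N : Submodule (RR κ) K) (i : ℕ) (hi : i ≤ n) (h : TT S.der (im K (PLmix S.F y i)) N) :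
    TT S.der (im K (PLmix S.F y 0)) N := by
  induction i with
  | zero => exact h
  | succ i ih =>
    apply ih (by omega)
    have key : ∀ i, AlgebraicIndependent ℂ (im K (PLmix S.F y i)) ∧
        FiniteDimensional (IntermediateField.adjoin ℂ (Set.range (im K (PLmix S.F y i)))) K :=
      fun i => TI.algInd_of_int S.frac _ S.trb (PLmix S.F y i) (hint i)
    have hJ : ∀ i, Dl S.der (im K (PLmix S.F y i)) ≠ 0 := fun i => by
      apply TI.Dl_ne_zero S
      intro f
      have := (key i).2
      exact Algebra.IsAlgebraic.isAlgebraic f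
    refine TI.TT_exchange S.der (PLmix S.F y (i+1)) (PLmix S.F y i) ⟨i, by omega⟩ ?_
      (key (i+1)).1 (key i).1 (hint (i+1)) (hint i) (key (i+1)).2 (key i).2 (hJ (i+1)) (hJ i) N h
    intro j hj
    have hj' : (j : ℕ) ≠ i := fun h => hj (Fin.ext h)
    simp only [PLmix]
    by_cases h1 : (j : ℕ) < i
    · rw [if_pos h1, if_pos (by omega)]
    · rw [if_neg h1, if_neg (by omega)]

theorem prime_lin (S : Sys κ d n K)
    (hmat : ∃ N : ℕ, 0 < N ∧ ∃ T : RR κ →+* Matrix (Fin N) (Fin N) (RR κ),
      ∀ c, T (phi S.F c) = Matrix.scalar (Fin N) c) :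
    ∃ y : Fin n → RR κ, (∀ j, (y j).IsHomogeneous 1) ∧ AlgebraicIndependent ℂ (im K y) ∧
      ∀ i, ∃ a : Fin n → ℂ, algebraMap (RR κ) K (X i) = ∑ j, a j • im K y j := by
  have hT : ∀ m ∈ S.M, S.T m ∈ S.M := fun m hm => TI.T_mem S hmat hm
  obtain ⟨y, hy, hint, δ, v, hvV, hVv, hgen, hli⟩ := TI.exists_coord S hT
  have h0 : PLmix S.F y 0 = y := by
    funext j; simp [PLmix]
  have hn : PLmix S.F y n = fun j => phi S.F (y j) := by
    funext j; simp [PLmix]
  have hint0 : ∀ a : RR κ, IsIntegral (Algebra.adjoin ℂ (Set.range (im K y)))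
      (algebraMap (RR κ) K a) := by
    intro a
    have h := hint 0 a
    have e : (fun j : Fin n => if (j : ℕ) < 0 then phi S.F (y j) else y j) = y := by
      funext j; simp
    rw [e] at h
    exact h
  obtain ⟨hind, hfin⟩ := TI.algInd_of_int S.frac _ S.trb y hint0
  have hchain : ∀ N : Submodule (RR κ) K,
      TT S.der (im K fun j => phi S.F (y j)) N → TT S.der (im K y) N := by
    intro N hN
    have := PL_chain S y hint N n le_rfl (by rw [hn]; exact hN)
    rwa [h0] at this
  have hVM : ∀ w ∈ S.V, w ∈ S.M := by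
    intro w hw
    refine Submodule.span_induction (p := fun w _ => w ∈ S.M) ?_ ?_ ?_ ?_ hw
    · rintro _ ⟨l', rfl⟩
      exact Submodule.subset_span ⟨l', rfl⟩
    · exact S.M.zero_mem
    · intro a b _ _ ha hb
      exact S.M.add_mem ha hb
    · intro c a _ ha
      have : c • a = (C c : RR κ) • a := by
        rw [← MvPolynomial.algebraMap_eq, algebraMap_smul]
      rw [this]
      exact S.M.smul_mem _ ha
  obtain ⟨b, hb⟩ := TI.exists_basis S y hind hint0 v (fun i => hVM _ (hvV i)) hgen hli
  have hdy : Dl S.der (im K y) ≠ 0 := by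
    apply TI.Dl_ne_zero S
    intro f
    have : FiniteDimensional (IntermediateField.adjoin ℂ (Set.range (im K y))) K := hfin
    exact Algebra.IsAlgebraic.isAlgebraic f
  obtain ⟨U, hUr, hUf, hUmem, hUnd⟩ := TI.dual_space
    (IntermediateField.adjoin ℂ (Set.range (im K y))) b ((Dl S.der (im K y))⁻¹) (inv_ne_zero hdy)
  have hφU := TI.φ_U S hT y hy hind hfin hchain b (fun i => by rw [hb]; exact hvV i)
    (fun m hm => by
      obtain ⟨P, hP⟩ := hgen m hm
      exact ⟨P, by rw [hP]; exact Finset.sum_congr rfl fun i _ => by rw [hb]⟩) U hUmem hUnd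
  -- `V ≠ 0`
  have hV1 : (1 : K) ∈ S.V := by
    have : S.Dx S.l = 1 := by
      unfold Sys.Dx Dl
      have : (Matrix.of fun k j => S.der k (xb κ K (S.l j))) = (1 : Matrix (Fin n) (Fin n) K) := by
        ext k j
        rw [Matrix.of_apply, S.der_x, Matrix.one_apply]
      rw [this, Matrix.det_one]
    rw [← this]
    exact Submodule.subset_span ⟨S.l, rfl⟩
  have hδ : 0 < δ := by
    rcases Nat.eq_zero_or_pos δ with h | h
    · subst h
      obtain ⟨a, ha⟩ := hVv 1 hV1
      simp at ha
    · exact h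
  have hUne : U ≠ ⊥ := by
    intro h
    rw [h, finrank_bot] at hUr
    omega
  obtain ⟨⟨g₁, hg₁, hg₁0, z, hz, heig⟩, hsurj⟩ :=
    TI.exists_eig U hUf hUne S.φ (fun g hg => (hφU g hg).2)
  have hstab := TI.stab_of_eig S hT U hUf (fun g hg => (hφU g hg).1) (fun g hg => (hφU g hg).2)
    hsurj g₁ hg₁ hg₁0 z hz heig
  -- hence `U` is one-dimensional
  have hVf : FiniteDimensional ℂ S.V := by
    unfold Sys.V
    exact FiniteDimensional.span_of_finite ℂ (Set.finite_range _)
  have hVne : S.V ≠ ⊥ := by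
    intro h
    rw [h] at hV1
    exact one_ne_zero ((Submodule.mem_bot ℂ).1 hV1)
  have hU1 : U ≤ Submodule.span ℂ {g₁} := by
    intro g hg
    obtain ⟨w, hw⟩ := TI.const_of_stab S.V hVf hVne (g / g₁) (hstab g hg)
    rw [Submodule.mem_span_singleton]
    refine ⟨w, ?_⟩
    rw [Algebra.smul_def, ← hw, div_mul_cancel₀ _ hg₁0]
  have hδ1 : δ = 1 := by
    have h1 : Module.finrank ℂ U ≤ 1 := by
      calc Module.finrank ℂ U ≤ Module.finrank ℂ (Submodule.span ℂ {g₁}) :=
            Submodule.finrank_mono hU1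
        _ ≤ 1 := by
          have := finrank_span_le_card (R := ℂ) ({g₁} : Set K)
          simpa using this
    omega
  subst hδ1
  -- so `K = ℂ(y)`
  have htop : ∀ f : K, f ∈ IntermediateField.adjoin ℂ (Set.range (im K y)) := by
    intro f
    have hb0 : b 0 ≠ 0 := b.ne_zero 0
    have h1 : (1 : K) = b.repr 1 0 • b 0 := by
      have := b.sum_repr 1
      rw [Fin.sum_univ_one] at this
      exact this.symm
    have hf : f = b.repr f 0 • b 0 := by
      have := b.sum_repr f
      rw [Fin.sum_univ_one] at this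
      exact this.symm
    have hr0 : b.repr 1 0 ≠ 0 := by
      intro h
      rw [h, zero_smul] at h1
      exact one_ne_zero h1
    have : f = ((b.repr f 0 * (b.repr 1 0)⁻¹ :
        IntermediateField.adjoin ℂ (Set.range (im K y))) : K) := by
      have e1 : (1 : K) = ((b.repr 1 0 : IntermediateField.adjoin ℂ (Set.range (im K y))) : K) * b 0 :=
        h1
      have e2 : f = ((b.repr f 0 : IntermediateField.adjoin ℂ (Set.range (im K y))) : K) * b 0 := hf
      have hc : ((b.repr 1 0 : IntermediateField.adjoin ℂ (Set.range (im K y))) : K) ≠ 0 := by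
        intro h
        rw [h, zero_mul] at e1
        exact one_ne_zero e1
      have hb' : b 0 = ((b.repr 1 0 : IntermediateField.adjoin ℂ (Set.range (im K y))) : K)⁻¹ := by
        rw [eq_comm, inv_eq_iff_eq_inv, eq_comm]
        exact inv_eq_of_mul_eq_one_left e1.symm
      calc f = ((b.repr f 0 : IntermediateField.adjoin ℂ (Set.range (im K y))) : K) * b 0 := e2
        _ = ((b.repr f 0 : IntermediateField.adjoin ℂ (Set.range (im K y))) : K) *
          ((b.repr 1 0 : IntermediateField.adjoin ℂ (Set.range (im K y))) : K)⁻¹ := by rw [hb']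
        _ = _ := by push_cast; rfl
    rw [this]
    exact SetLike.coe_mem _
  exact ⟨y, hy, hind, TI.lin_of_top S y hy hind hint0 htop⟩

end TI
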