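import Pool.Agent.Helper97.TI.Defs
import Pool.Agent.Helper97.TI.L_FRB
import Pool.Agent.Helper97.TI.L_FRG
import Pool.Agent.Helper97.TI.L_FRI
import Pool.Agent.Helper97.TI.L_GOOD1
import Pool.Agent.Helper97.TI.L_GOOD3
import Pool.Agent.Helper97.TI.L_GR2
import Pool.Agent.Helper97.TI.L_SEQ
import Pool.Agent.Helper97.TI.L_SOL

/-!
# MP_17e24e_ag : module X1 (`ℂ[x]` is free over `ℂ[F_1, ..., F_κ]`)
-/

set_option autoImplicit false
set_option linter.unusedSectionVars false
open MvPolynomial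

namespace TI

section X1
variable {κ : ℕ}

/-- the scaling on the polynomial ring -/
noncomputable def X1_rho (κ : ℕ) : RR κ →ₗ[ℂ] RR κ :=
  (aeval (fun i : Fin κ => (C 2 * X i : RR κ))).toLinearMap

theorem X1_scal : IsScal κ (X1_rho κ) := by
  intro i m
  show aeval (fun i : Fin κ => (C 2 * X i : RR κ)) (X i * m) =
    (2:ℂ) • (X i * aeval (fun i : Fin κ => (C 2 * X i : RR κ)) m)
  rw [map_mul, aeval_X, MvPolynomial.smul_eq_C_mul]
  ring

theorem X1_gen : WGen κ (X1_rho κ) 0 := by
  rw [WGen, Submodule.eq_top_iff']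
  intro x
  have h1 : (1 : RR κ) ∈ Submodule.span (RR κ) {m : RR κ | ∃ w, 0 ≤ w ∧ Hm (X1_rho κ) w m} := by
    apply Submodule.subset_span
    refine ⟨0, le_rfl, ?_⟩
    show aeval (fun i : Fin κ => (C 2 * X i : RR κ)) (1 : RR κ) = (2:ℂ) ^ 0 • (1 : RR κ)
    rw [map_one, pow_zero, one_smul]
  have := Submodule.smul_mem _ x h1
  rwa [smul_eq_mul, mul_one] at this

theorem X1_bot : Stab (X1_rho κ) (⊥ : Submodule (RR κ) (RR κ)) := by
  intro x hx
  rw [Submodule.mem_bot] at hx ⊢
  rw [hx, map_zero]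

theorem X1_dim : DimLe (⊥ : Submodule (RR κ) (RR κ)) κ := by
  intro l _
  have h1 := Order.LTSeries.length_le_krullDim l
  have h2 : ringKrullDim (RR κ) = κ := by
    rw [MvPolynomial.ringKrullDim_of_isNoetherianRing, ringKrullDim_eq_zero_of_field]
    simp
  have h3 : Order.krullDim (PrimeSpectrum (RR κ)) = κ := h2
  rw [h3] at h1
  exact_mod_cast h1

theorem X1_phi_hom {d : ℕ} {F : Fin κ → RR κ} (hF : NonDeg d F) {y : RR κ}
    (hy : y.IsHomogeneous 1) : (phi F y).IsHomogeneous d := by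
  have := hy.aeval F hF.hom
  rwa [mul_one] at this

theorem X1_mm_one : (1 : RR κ) ∉ mm κ := by
  intro h
  have h1 : mm κ ≤ RingHom.ker (constantCoeff (R := ℂ) (σ := Fin κ)) := by
    rw [mm, Ideal.span_le]
    rintro _ ⟨i, rfl⟩
    simp [RingHom.mem_ker]
  have := h1 h
  rw [RingHom.mem_ker, map_one] at this
  exact one_ne_zero this

theorem X1_mem_mm {y : RR κ} (hy : y.IsHomogeneous 1) : y ∈ mm κ := by
  have h1 : y ∈ homogeneousSubmodule (Fin κ) ℂ 1 := hy
  rw [homogeneousSubmodule_one_eq_span_X] at h1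
  refine Submodule.span_induction ?_ ?_ ?_ ?_ h1
  · rintro _ ⟨i, rfl⟩
    exact Ideal.subset_span ⟨i, rfl⟩
  · exact Submodule.zero_mem _
  · intro a b _ _ ha hb
    exact Submodule.add_mem _ ha hb
  · intro c a _ ha
    rw [MvPolynomial.smul_eq_C_mul]
    exact Ideal.mul_mem_left _ _ ha

theorem X1_Bm_le {y : ℕ → RR κ} (hy : ∀ j, (y j).IsHomogeneous 1) (j : ℕ) :
    Bm (⊥ : Submodule (RR κ) (RR κ)) y j ≤ mm κ := by
  induction j with
  | zero => exact bot_le
  | succ j ih =>
    rw [Bm_succ]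
    refine sup_le ih ?_
    intro m hm
    rw [mem_mulTop] at hm
    obtain ⟨q, rfl⟩ := hm
    exact Ideal.mul_mem_right _ _ (X1_mem_mm (hy j))

/-- the substitution of regular linear forms is bijective -/
theorem X1_bij {y : ℕ → RR κ} (hy : ∀ j, (y j).IsHomogeneous 1)
    (hreg : ∀ j < κ, Reg (y j) (Bm (⊥ : Submodule (RR κ) (RR κ)) y j)) :
    Function.Bijective (aeval (fun j : Fin κ => y j) : RR κ →ₐ[ℂ] RR κ) := by
  have hinj : ∀ P : RR κ, aeval (fun j : Fin κ => y j) P = 0 → P = 0 := by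
    intro P hP
    have h1 := TI.free_ind (ι := Unit) κ (⊥ : Submodule (RR κ) (RR κ)) y hreg (fun _ => 1) ?_
      (fun _ => P) ?_
    · exact congrFun h1 ()
    · intro a ha
      by_contra hne
      have hne' : a () ≠ 0 := by
        intro h
        apply hne
        funext u
        exact h
      have h2 := X1_Bm_le hy κ ha
      rw [Finset.univ_unique, Finset.sum_singleton, smul_eq_mul, mul_one] at h2
      apply X1_mm_one (κ := κ)
      have h3 := Ideal.mul_mem_left (mm κ) (C (a ())⁻¹) h2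
      rw [← C_mul] at h3
      have h4 : (a ())⁻¹ * a default = 1 := inv_mul_cancel₀ hne'
      rwa [h4, C_1] at h3
    · rw [Finset.univ_unique, Finset.sum_singleton, hP, zero_smul]
      exact Submodule.zero_mem _
  have hinj' : Function.Injective (aeval (fun j : Fin κ => y j) : RR κ →ₐ[ℂ] RR κ) :=
    (injective_iff_map_eq_zero _).2 hinj
  refine ⟨hinj', ?_⟩
  -- linear independence
  have hli : LinearIndependent ℂ (fun j : Fin κ => y j) := by
    have h1 : LinearIndependent ℂ (fun j : Fin κ => (X j : RR κ)) :=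
      MvPolynomial.linearIndependent_X (Fin κ) ℂ
    have h2 := h1.map' (aeval (fun j : Fin κ => y j) : RR κ →ₐ[ℂ] RR κ).toLinearMap
      (LinearMap.ker_eq_bot.2 hinj')
    have e1 : (fun j : Fin κ => y j) =
        (aeval (fun j : Fin κ => y j) : RR κ →ₐ[ℂ] RR κ).toLinearMap ∘ fun j => X j := by
      funext j
      simp
    rw [e1]
    exact h2
  have hW : Submodule.span ℂ (Set.range fun j : Fin κ => y j) =
      Submodule.span ℂ (Set.range (X : Fin κ → RR κ)) := by
    have hfin : Module.Finite ℂ (Submodule.span ℂ (Set.range (X : Fin κ → RR κ))) :=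
      Module.Finite.span_of_finite ℂ (Set.finite_range _)
    apply Submodule.eq_of_le_of_finrank_le
    · rw [Submodule.span_le]
      rintro _ ⟨j, rfl⟩
      have h1 : y j ∈ homogeneousSubmodule (Fin κ) ℂ 1 := hy j
      rwa [homogeneousSubmodule_one_eq_span_X] at h1
    · rw [finrank_span_eq_card hli]
      exact finrank_range_le_card _
  have hX : ∀ i : Fin κ, (X i : RR κ) ∈ (aeval (fun j : Fin κ => y j) : RR κ →ₐ[ℂ] RR κ).range := by
    intro i
    have h1 : (X i : RR κ) ∈ Submodule.span ℂ (Set.range fun j : Fin κ => y j) := by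
      rw [hW]
      exact Submodule.subset_span ⟨i, rfl⟩
    have h2 : Submodule.span ℂ (Set.range fun j : Fin κ => y j) ≤
        Subalgebra.toSubmodule (aeval (fun j : Fin κ => y j) : RR κ →ₐ[ℂ] RR κ).range := by
      rw [Submodule.span_le]
      rintro _ ⟨j, rfl⟩
      exact ⟨X j, aeval_X _ _⟩
    exact h2 h1
  have htop : (aeval (fun j : Fin κ => y j) : RR κ →ₐ[ℂ] RR κ).range = ⊤ := by
    rw [eq_top_iff, ← MvPolynomial.adjoin_range_X, Algebra.adjoin_le_iff]
    rintro _ ⟨i, rfl⟩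
    exact hX i
  exact AlgHom.range_eq_top _ |>.1 htop

/-- X1 (second wave) -/
theorem free_over_phi {d : ℕ} {F : Fin κ → RR κ} (hF : NonDeg d F) :
    ∃ (N : ℕ) (e : Fin N → RR κ), 0 < N ∧
      Function.Bijective (fun c : Fin N → RR κ => ∑ j, phi F (c j) * e j) := by
  obtain ⟨y, hy, hgood⟩ := TI.exists_good (Q := RR κ) hF (⊥ : Submodule (RR κ) (RR κ))
  have hmix := fun i => TI.mixed_reg (Q := RR κ) X1_scal X1_gen X1_bot hF hy hgood κ
    (fun j hj => TI.no_soc_lin y hy j hj) i
  have hreg0 : ∀ j < κ, Reg (y j) (Bm (⊥ : Submodule (RR κ) (RR κ)) y j) := by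
    intro j hj
    have := hmix 0 j hj
    have e : mixed y (fun t => phi F (y t)) 0 = y := by
      funext t
      simp [mixed]
    rwa [e] at this
  have hbij := X1_bij hy hreg0
  set c : ℕ → RR κ := mixed y (fun t => phi F (y t)) κ with hc
  have hcj : ∀ j : Fin κ, c j = phi F (y j) := by
    intro j
    rw [hc]
    simp [mixed]
  have hd := hF.hd
  have hhom : ∀ j, (c j).IsHomogeneous (if j < κ then d else 1) := by
    intro j
    by_cases hj : j < κ
    · simp only [hc, mixed, if_pos hj]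
      exact X1_phi_hom hF (hy j)
    · simp only [hc, mixed, if_neg hj]
      exact hy j
  have hpos : ∀ j, 0 < (if j < κ then d else 1) := by
    intro j
    split_ifs <;> omega
  have hgoodc : ∀ j, ∀ 𝔮 ∈ associatedPrimes (RR κ)
      ((RR κ) ⧸ Bm (⊥ : Submodule (RR κ) (RR κ)) c j), 𝔮 ≠ mm κ → c j ∉ 𝔮 := by
    intro j 𝔮 h𝔮 hne
    have h1 := hgood κ j 𝔮 h𝔮 hne
    by_cases hj : j < κ
    · simp only [hc, mixed, if_pos hj]
      exact h1.2
    · simp only [hc, mixed, if_neg hj]
      exact h1.1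
  have hL := TI.pow_of_dim (Q := RR κ) X1_scal X1_gen X1_bot c _ hhom hpos hgoodc κ X1_dim
  obtain ⟨N, h, wt, hh, hspan, hind⟩ := TI.exists_basis_mod (Q := RR κ) X1_scal X1_gen
    (TI.stab_Bm X1_scal X1_bot hhom κ) hL
  have hgen := TI.free_gen (Q := RR κ) X1_scal X1_gen κ c _ hhom hpos h wt hh hspan
  have hfree := TI.free_ind (Q := RR κ) κ (⊥ : Submodule (RR κ) (RR κ)) c (hmix κ) h hind
  have hcomp : ∀ P : RR κ, aeval (fun j : Fin κ => c j) P =
      phi F (aeval (fun j : Fin κ => y j) P) := by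
    intro P
    have e1 : (fun j : Fin κ => c j) = fun j : Fin κ => phi F (y j) := funext hcj
    rw [e1, ← MvPolynomial.comp_aeval]
    rfl
  refine ⟨N, h, ?_, ?_, ?_⟩
  · rcases Nat.eq_zero_or_pos N with h0 | h0
    · subst h0
      obtain ⟨P, hP⟩ := hgen 1
      rw [Finset.univ_eq_empty, Finset.sum_empty] at hP
      exact absurd hP one_ne_zero
    · exact h0
  · intro a b hab
    choose P hP using fun j => hbij.2 (a j)
    choose P' hP' using fun j => hbij.2 (b j)
    have h1 : (∑ i, (aeval (fun j : Fin κ => c j) (P i - P' i) : RR κ) • h i) ∈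
        (⊥ : Submodule (RR κ) (RR κ)) := by
      rw [Submodule.mem_bot]
      have h2 : ∑ j, phi F (a j) * h j = ∑ j, phi F (b j) * h j := hab
      simp only [hcomp, map_sub, hP, hP', smul_eq_mul, sub_mul, Finset.sum_sub_distrib]
      rw [h2, sub_self]
    have h2 := hfree (fun i => P i - P' i) h1
    funext j
    have h3 : P j - P' j = 0 := congrFun h2 j
    rw [← hP j, ← hP' j, sub_eq_zero.1 h3]
  · intro m
    obtain ⟨P, hP⟩ := hgen m
    refine ⟨fun i => aeval (fun j : Fin κ => y j) (P i), ?_⟩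
    show ∑ j, phi F (aeval (fun j : Fin κ => y j) (P j)) * h j = m
    rw [hP]
    refine Finset.sum_congr rfl fun i _ => ?_
    rw [hcomp, smul_eq_mul]

end X1

end TI
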