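import Pool.Agent.Helper97.TI.Defs
import Pool.Agent.Helper97.TI.L_DER1
import Pool.Agent.Helper97.TI.L_DER2
import Pool.Agent.Helper97.TI.L_HOM
import Pool.Agent.Helper97.TI.L_IT
import Pool.Agent.Helper97.TI.L_LIN
import Pool.Agent.Helper97.TI.L_PM
import Pool.Agent.Helper97.TI.L_SYC
import Pool.Agent.Helper97.TI.L_X1
import Pool.Agent.Helper97.TI.L_X1M
import Pool.Agent.Helper97.TI.L_ZS
import Pool.Agent.Helper97.TI.L_PL
set_option autoImplicit false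
open MvPolynomial

namespace TI

variable {κ : ℕ}

theorem coe_pow_algHom {A : Type} [CommRing A] [Algebra ℂ A] (f : A →ₐ[ℂ] A) (N : ℕ) :
    ((f ^ N : A →ₐ[ℂ] A) : A →+* A) = (f : A →+* A) ^ N := by
  induction N with
  | zero => rfl
  | succ N ih => rw [pow_succ, pow_succ, ← ih]; rfl

/-- the prime case -/
theorem prime_case {d : ℕ} {F : Fin κ → RR κ} (hF : NonDeg d F) (𝔭 : Ideal (RR κ))
    (hp : 𝔭.IsPrime) (hhom : ∀ p ∈ 𝔭, ∀ i, homogeneousComponent i p ∈ 𝔭)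
    (hcomap : 𝔭.comap (phi F) = 𝔭) (hrad : (𝔭.map (phi F)).radical = 𝔭) :
    ∃ W : Submodule ℂ (Fin κ → ℂ), ∀ v : Fin κ → ℂ, (∀ p ∈ 𝔭, eval v p = 0) ↔ v ∈ W := by
  by_cases hne : 𝔭 = mm κ
  · refine ⟨⊥, fun v => ⟨fun h => ?_, fun h => ?_⟩⟩
    · rw [Submodule.mem_bot]
      funext i
      have := h (X i) (by rw [hne]; exact Ideal.subset_span ⟨i, rfl⟩)
      simpa using this
    · rw [Submodule.mem_bot] at h
      subst h
      intro p hp'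
      rw [hne] at hp'
      have : mm κ ≤ RingHom.ker (eval (0 : Fin κ → ℂ)) := by
        rw [mm, Ideal.span_le]
        rintro _ ⟨i, rfl⟩
        simp [RingHom.mem_ker]
      exact this hp'
  · have hfree := TI.free_over_phi hF
    obtain ⟨K, i1, i2, i3, i4, n, S, hker, hSF⟩ := TI.exists_sys hF
      (TI.phi_inj_int hF hfree).2 𝔭 hp hhom hcomap hrad hne
      (fun K _ _ x hx => TI.exists_der x hx) (fun K _ _ φ hfin D => TI.exists_Dt φ hfin D)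
    obtain ⟨N, e, hN, he⟩ := TI.free_over_phi S.hF
    obtain ⟨T, hT⟩ := TI.exists_mat e he
    obtain ⟨y, hy, hind, hlin⟩ := prime_lin S ⟨N, hN, T, hT⟩
    obtain ⟨W, hW⟩ := TI.exists_subspace y hy hind hlin
    exact ⟨W, by rw [hker] at hW; exact hW⟩

theorem main (k d : ℕ) (hd : 1 < d)
    (F : Fin (k+1) → MvPolynomial (Fin (k+1)) ℂ)
    (hF : ∀ i, (F i).IsHomogeneous d)
    (hnd : ∀ v : Fin (k+1) → ℂ, (∀ i, MvPolynomial.eval v (F i) = 0) → v = 0)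
    (S : Finset (MvPolynomial (Fin (k+1)) ℂ))
    (hS : ∀ p ∈ S, ∃ n : ℕ, p.IsHomogeneous n)
    (h1 : ∀ v : Fin (k+1) → ℂ, v ≠ 0 →
      ((∀ p ∈ S, MvPolynomial.eval v p = 0) ↔
        (∀ p ∈ S, MvPolynomial.eval (fun i => MvPolynomial.eval v (F i)) p = 0))) :
    ∃ (m : ℕ) (W : Fin m → Submodule ℂ (Fin (k+1) → ℂ)),
      ∀ v : Fin (k+1) → ℂ, v ≠ 0 →
        ((∀ p ∈ S, MvPolynomial.eval v p = 0) ↔ ∃ j, v ∈ W j) := by
  have hND : NonDeg d F := ⟨hd, hF, hnd⟩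
  have hF0 : (fun i => MvPolynomial.eval (0 : Fin (k+1) → ℂ) (F i)) = 0 := by
    funext i
    rw [Pi.zero_apply, MvPolynomial.eval_zero, MvPolynomial.constantCoeff_eq]
    by_contra hne
    have h2 := hF i hne
    simp at h2
    omega
  have h1' : ∀ v : Fin (k+1) → ℂ, (∀ p ∈ S, eval v p = 0) ↔
      (∀ p ∈ S, eval (fun i => eval v (F i)) p = 0) := by
    intro v
    by_cases hv : v = 0
    · subst hv
      rw [hF0]
    · exact h1 v hv
  have hI := TI.radical_eq S h1'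
  obtain ⟨hinj, hfin⟩ := TI.phi_inj_int hND (TI.free_over_phi hND)
  obtain ⟨N, hN, hperm⟩ := TI.perm_min ((phi F : RR (k+1) →ₐ[ℂ] RR (k+1)) : RR (k+1) →+* RR (k+1))
    hinj hfin.to_isIntegral (Ideal.span (S : Set (RR (k+1)))).radical hI
  obtain ⟨hG, hGphi⟩ := TI.nonDeg_iter hND N hN
  set G : Fin (k+1) → RR (k+1) := fun i => ((phi F) ^ N) (X i) with hGdef
  have hW : ∀ 𝔭 ∈ (Ideal.span (S : Set (RR (k+1)))).radical.minimalPrimes,
      ∃ W : Submodule ℂ (Fin (k+1) → ℂ), ∀ v : Fin (k+1) → ℂ, (∀ p ∈ 𝔭, eval v p = 0) ↔ v ∈ W := by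
    intro 𝔭 h𝔭
    obtain ⟨hc, hr⟩ := hperm 𝔭 h𝔭
    have hcoe : ((phi G : RR (k+1) →ₐ[ℂ] RR (k+1)) : RR (k+1) →+* RR (k+1)) =
        ((phi F : RR (k+1) →ₐ[ℂ] RR (k+1)) : RR (k+1) →+* RR (k+1)) ^ N := by
      rw [hGphi]
      exact coe_pow_algHom (phi F) N
    refine prime_case hG 𝔭 h𝔭.1.1 (TI.minimal_hom S hS 𝔭 h𝔭) ?_ ?_
    · have : 𝔭.comap ((phi G : RR (k+1) →ₐ[ℂ] RR (k+1)) : RR (k+1) →+* RR (k+1)) = 𝔭 := by
        rw [hcoe]; exact hc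
      exact this
    · have : (𝔭.map ((phi G : RR (k+1) →ₐ[ℂ] RR (k+1)) : RR (k+1) →+* RR (k+1))).radical = 𝔭 := by
        rw [hcoe]; exact hr
      exact this
  have hfinite : (Ideal.span (S : Set (RR (k+1)))).radical.minimalPrimes.Finite :=
    Ideal.finite_minimalPrimes_of_isNoetherianRing _ _
  choose! W hW using hW
  let t := hfinite.toFinset
  refine ⟨t.card, fun j => W (t.equivFin.symm j), fun v _ => ?_⟩
  rw [TI.union_min S v]
  constructor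
  · rintro ⟨𝔭, h𝔭, h⟩
    have ht : 𝔭 ∈ t := hfinite.mem_toFinset.2 h𝔭
    refine ⟨t.equivFin ⟨𝔭, ht⟩, ?_⟩
    simp only [Equiv.symm_apply_apply]
    exact (hW 𝔭 h𝔭 v).1 h
  · rintro ⟨j, hj⟩
    have ht : ((t.equivFin.symm j : t) : Ideal (RR (k+1))) ∈
        (Ideal.span (S : Set (RR (k+1)))).radical.minimalPrimes :=
      hfinite.mem_toFinset.1 (t.equivFin.symm j).2
    exact ⟨_, ht, (hW _ ht v).2 hj⟩

end TI
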