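import Pool.Agent.Helper97.TI.L_LC1

/-!
MP_17e24e_ag, module LC2: replacing derivations modulo inner ones.
-/

set_option autoImplicit false
open MvPolynomial

namespace TI

open Equiv

section LC

variable {E R k : Type} [Ring E] [CommRing R] [AddCommGroup k]

theorem LC2_u_update {n : ℕ} (δ : Fin n → R → E) (i : Fin n) (f : R → E) (b : Fin n → R)
    (σ : Equiv.Perm (Fin n)) :
    LC1_pr (LC1_u (Function.update δ i f) b σ) 0 n =
      LC1_pr (LC1_u δ b σ) 0 i * f (b (σ i)) *
        LC1_pr (LC1_u δ b σ) (i + 1) (n - i - 1) := by
  rw [LC1_pr_split _ i.2]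
  have e1 : LC1_u (Function.update δ i f) b σ (0 + i) = f (b (σ i)) := by
    rw [zero_add]
    unfold LC1_u
    rw [dif_pos i.2]
    simp
  have e2 : ∀ j : ℕ, j ≠ i → LC1_u (Function.update δ i f) b σ j = LC1_u δ b σ j := by
    intro j hj
    unfold LC1_u
    split_ifs with h
    · rw [Function.update_of_ne]
      intro hc
      exact hj (by rw [← hc])
    · rfl
  rw [e1, zero_add]
  congr 1
  · congr 1
    exact LC1_pr_congr fun j _ hj => e2 j (by omega)
  · exact LC1_pr_congr fun j hj _ => e2 j (by omega)

theorem LC2_sub {n : ℕ} (tr : E →+ k) (T : R →+* E) (δ : Fin n → R → E) (i : Fin n)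
    (f g : R → E) (a : R) (b : Fin n → R) :
    GG tr T (Function.update δ i fun x => f x - g x) a b =
      GG tr T (Function.update δ i f) a b - GG tr T (Function.update δ i g) a b := by
  rw [LC1_GG, LC1_GG, LC1_GG, ← Finset.sum_sub_distrib]
  apply Finset.sum_congr rfl
  intro σ _
  rw [← smul_sub, ← map_sub, LC2_u_update, LC2_u_update, LC2_u_update]
  congr 2
  noncomm_ring

theorem LC2_bd_sub {T : R →+* E} {f g : R → E} (hf : IsBD T f) (hg : IsBD T g) :
    IsBD T (fun x => f x - g x) := by
  constructor
  · intro b b'
    change f (b + b') - g (b + b') = (f b - g b) + (f b' - g b')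
    rw [hf.1, hg.1]
    abel
  · intro b b'
    change f (b * b') - g (b * b') = (f b - g b) * T b' + T b * (f b' - g b')
    rw [hf.2, hg.2]
    noncomm_ring

/-- LC2 -/
theorem GG_congr {n : ℕ} (tr : E →+ k) (htr : ∀ x y, tr (x * y) = tr (y * x)) (T : R →+* E)
    (δ δ' : Fin n → R → E) (hδ : ∀ j, IsBD T (δ j)) (hδ' : ∀ j, IsBD T (δ' j))
    (h : ∀ j, ∃ Z : E, ∀ b, δ j b - δ' j b = Z * T b - T b * Z) (a : R) (b : Fin n → R) :
    GG tr T δ a b = GG tr T δ' a b := by
  classical
  have key : ∀ s : Finset (Fin n),
      GG tr T (fun j => if j ∈ s then δ' j else δ j) a b = GG tr T δ a b := by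
    intro s
    induction s using Finset.induction_on with
    | empty => simp
    | insert i s hi ih =>
      rw [← ih]
      set D : Fin n → R → E := fun j => if j ∈ s then δ' j else δ j with hD
      have hDbd : ∀ j, IsBD T (D j) := by
        intro j
        simp only [hD]
        split_ifs
        · exact hδ' j
        · exact hδ j
      have e1 : (fun j => if j ∈ insert i s then δ' j else δ j) = Function.update D i (δ' i) := by
        funext j
        by_cases hj : j = i
        · subst hj
          simp
        · rw [Function.update_of_ne hj]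
          simp [hD, hj]
      have e2 : D = Function.update D i (δ i) := by
        funext j
        by_cases hj : j = i
        · subst hj
          simp [hD, hi]
        · rw [Function.update_of_ne hj]
      rw [e1]
      conv_rhs => rw [e2]
      rw [← sub_eq_zero, ← neg_sub, neg_eq_zero, ← LC2_sub]
      obtain ⟨Z, hZ⟩ := h i
      apply GG_inner tr htr T _ _ i Z
      · intro x
        simp only [Function.update_self]
        exact hZ x
      · intro j
        by_cases hj : j = i
        · subst hj
          simp only [Function.update_self]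
          exact LC2_bd_sub (hδ j) (hδ' j)
        · rw [Function.update_of_ne hj]
          exact hDbd j
  have h1 := key Finset.univ
  simp only [Finset.mem_univ, if_true] at h1
  exact h1.symm

end LC

end TI
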